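import Mathlib

/-!
# Differential modules, the Gauss–Manin connection of a cyclic cover of the line

Basic definitions.
-/

set_option autoImplicit false

open Polynomial

namespace Pool.Agent.V8H79.BM

/-- the block of the Hasse-Witt matrix -/
noncomputable def hw {R : Type*} [CommRing R] (p d : ℕ) (F : R[X]) : Matrix (Fin d) (Fin d) R :=
  Matrix.of fun a b => (X ^ ((b : ℕ) + 1) * F).coeff (p * ((a : ℕ) + 1))

/-- `∏ (x - s l')` over the `l' ≠ l` -/
noncomputable def co {K : Type*} [CommRing K] {N : ℕ} (s : Fin N → K) (l : Fin N) : K[X] :=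
  ∏ l' ∈ Finset.univ.erase l, (X - C (s l'))

/-- `∏ (x - s l)` -/
noncomputable def pr {K : Type*} [CommRing K] {N : ℕ} (s : Fin N → K) : K[X] :=
  ∏ l, (X - C (s l))

/-- the Gauss–Manin matrix of `∏ (x - s l) ^ (- b l / m) dx` in the basis `x ^ i`, `i < n`. -/
def IsGM {K : Type*} [CommRing K] (δ : Derivation ℤ K K) (m : ℕ) {n : ℕ} (s : Fin (n + 1) → K)
    (b : Fin (n + 1) → ℕ) (M : Matrix (Fin n) (Fin n) K) : Prop :=
  ∀ i : Fin n, ∃ Q : K[X],
    X ^ (i : ℕ) * ∑ l, C ((b l : K) * δ (s l)) * co s l =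
      (m : K[X]) * pr s * (∑ j, C (M i j) * X ^ (j : ℕ) + derivative Q) -
        Q * ∑ l, (b l : K[X]) * co s l

/-- the connection `∇` on `K ^ n` with the matrix `M` -/
def nab {K : Type*} [CommRing K] (δ : Derivation ℤ K K) {n : ℕ} (M : Matrix (Fin n) (Fin n) K)
    (a : Fin n → K) : Fin n → K :=
  fun j => δ (a j) + ∑ i, a i * M i j

/-- the constants of a derivation of a field -/
def consts {E : Type*} [Field E] (δ : Derivation ℤ E E) : Subfield E where
  carrier := {x | δ x = 0}
  mul_mem' {x y} hx hy := by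
    change δ x = 0 at hx
    change δ y = 0 at hy
    change δ (x * y) = 0
    simp [hx, hy]
  one_mem' := by
    change δ 1 = 0
    simp
  add_mem' {x y} hx hy := by
    change δ x = 0 at hx
    change δ y = 0 at hy
    change δ (x + y) = 0
    simp [hx, hy]
  zero_mem' := by
    change δ 0 = 0
    simp
  neg_mem' {x} hx := by
    change δ x = 0 at hx
    change δ (-x) = 0
    simp [hx]
  inv_mem' x hx := by
    change δ x = 0 at hx
    change δ x⁻¹ = 0
    by_cases h : x = 0
    · simp [h]
    · have h1 : δ (x * x⁻¹) = 0 := by rw [mul_inv_cancel₀ h]; simp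
      rw [Derivation.leibniz, hx] at h1
      simpa [h] using h1

theorem mem_consts {E : Type*} [Field E] {δ : Derivation ℤ E E} {x : E} :
    x ∈ consts δ ↔ δ x = 0 := Iff.rfl

/-- general position: over no differential extension field a flat subspace of dimension at most
`n - r` has a nonzero vector with the last `n - r` coordinates zero. -/
def GP {k : Type} [Field k] (δ : Derivation ℤ k k) {n : ℕ} (M : Matrix (Fin n) (Fin n) k)
    (r : ℕ) : Prop :=
  ∀ (K' : Type) [Field K'] [Algebra k K'] (δ' : Derivation ℤ K' K'),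
    (∀ a : k, δ' (algebraMap k K' a) = algebraMap k K' (δ a)) →
    ∀ L : Submodule K' (Fin n → K'), Module.finrank K' L + r ≤ n →
      (∀ a ∈ L, nab δ' (M.map (algebraMap k K')) a ∈ L) →
      ∀ a ∈ L, (∀ i : Fin n, r ≤ (i : ℕ) → a i = 0) → a = 0

/-- the matrices, with respect to a fundamental matrix `Φ`, of the automorphisms of the differential
field `E` over `k` and its constants -/
def galMat (k : Type) {E : Type} [Field k] [Field E] [Algebra k E] (δE : Derivation ℤ E E)
    {n : ℕ} (Φ : Matrix (Fin n) (Fin n) E) : Set (Matrix (Fin n) (Fin n) (consts δE)) :=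
  {N | ∃ σ : E ≃ₐ[k] E, (∀ x, σ (δE x) = δE (σ x)) ∧ (∀ x, δE x = 0 → σ x = x) ∧
    Φ.map σ = N.map (fun c => (c : E)) * Φ}

/-- the Zariski closure of `S` contains `G` -/
def ZContains {C : Type*} [Field C] {n : ℕ} (S G : Set (Matrix (Fin n) (Fin n) C)) : Prop :=
  ∀ Q : MvPolynomial (Fin n × Fin n) C,
    (∀ N ∈ S, MvPolynomial.eval (fun ij => N ij.1 ij.2) Q = 0) →
      ∀ h ∈ G, MvPolynomial.eval (fun ij => h ij.1 ij.2) Q = 0

/-- big differential Galois group: for a fundamental matrix `Φ` of flat vectors over a differential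
extension field `E` the Zariski closure of the group of the matrices of the automorphisms of `E / k`
contains a symplectic group or the special linear group -/
def Big {k : Type} [Field k] (δ : Derivation ℤ k k) {n : ℕ} (M : Matrix (Fin n) (Fin n) k) :
    Prop :=
  ∃ (E : Type) (_ : Field E) (_ : Algebra k E) (δE : Derivation ℤ E E)
    (Φ : Matrix (Fin n) (Fin n) E),
    (∀ a : k, δE (algebraMap k E a) = algebraMap k E (δ a)) ∧ Φ.det ≠ 0 ∧
    (∀ i, nab δE (M.map (algebraMap k E)) (Φ i) = 0) ∧
    ((∃ J : Matrix (Fin n) (Fin n) (consts δE), J.transpose = -J ∧ J.det ≠ 0 ∧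
        ZContains (galMat k δE Φ) {h | h * J * h.transpose = J}) ∨
      ZContains (galMat k δE Φ) {h | h.det = 1})

end Pool.Agent.V8H79.BM
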