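import Pool.Agent.V8H79.BM.Defs

/-!
# Exact forms in characteristic `p`
-/

set_option autoImplicit false

open Polynomial

namespace Pool.Agent.V8H79.BM

section logder

/-- the logarithmic derivative of a product of powers -/
theorem logder {R ι : Type*} [CommRing R] [DecidableEq ι] (D : Derivation ℤ R R) (u : ι → R)
    (e : ι → ℕ) (S : Finset ι) :
    (∏ l ∈ S, u l) * D (∏ l ∈ S, u l ^ e l) =
      (∏ l ∈ S, u l ^ e l) * ∑ l ∈ S, (e l : R) * D (u l) * ∏ l' ∈ S.erase l, u l' := by
  induction S using Finset.induction_on with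
  | empty => simp
  | insert i S hi ih =>
    rw [Finset.prod_insert hi, Finset.prod_insert hi, Finset.sum_insert hi,
      Finset.erase_insert hi, Derivation.leibniz]
    have h1 : ∑ l ∈ S, (e l : R) * D (u l) * ∏ l' ∈ (insert i S).erase l, u l' =
        u i * ∑ l ∈ S, (e l : R) * D (u l) * ∏ l' ∈ S.erase l, u l' := by
      rw [Finset.mul_sum]
      refine Finset.sum_congr rfl fun l hl => ?_
      have hne : i ≠ l := fun h => hi (h ▸ hl)
      rw [Finset.erase_insert_of_ne hne, Finset.prod_insert
        (fun h => hi (Finset.mem_of_mem_erase h))]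
      ring
    rw [h1]
    have h2 : u i * D (u i ^ e i) = (e i : R) * u i ^ e i * D (u i) := by
      rw [Derivation.leibniz_pow]
      rcases Nat.eq_zero_or_pos (e i) with h0 | h0
      · simp [h0]
      · obtain ⟨k, hk⟩ := Nat.exists_eq_succ_of_ne_zero h0.ne'
        rw [hk]
        simp only [smul_eq_mul, nsmul_eq_mul, Nat.succ_eq_add_one, Nat.add_sub_cancel, pow_succ]
        ring
    simp only [smul_eq_mul]
    calc u i * (∏ l ∈ S, u l) * (u i ^ e i * D (∏ l ∈ S, u l ^ e l) +
          (∏ l ∈ S, u l ^ e l) * D (u i ^ e i))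
        = u i * u i ^ e i * ((∏ l ∈ S, u l) * D (∏ l ∈ S, u l ^ e l)) +
          (∏ l ∈ S, u l) * (∏ l ∈ S, u l ^ e l) * (u i * D (u i ^ e i)) := by ring
      _ = _ := by
          rw [ih, h2]
          ring

end logder

section

variable {K : Type*} [Field K]

/-- a derivation of `K` applied to the coefficients -/
noncomputable def dc (δ : Derivation ℤ K K) : Derivation ℤ K[X] K[X] :=
  letI : Differential K := ⟨δ⟩
  Differential.mapCoeffs

theorem coeff_dc (δ : Derivation ℤ K K) (P : K[X]) (i : ℕ) :
    (dc δ P).coeff i = δ (P.coeff i) := rfl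

theorem dc_C (δ : Derivation ℤ K K) (a : K) : dc δ (C a) = C (δ a) := by
  ext i
  rw [coeff_dc, coeff_C, coeff_C]
  split_ifs <;> simp

theorem dc_X (δ : Derivation ℤ K K) : dc δ (X : K[X]) = 0 := by
  ext i
  rw [coeff_dc, coeff_X]
  split_ifs <;> simp

theorem dc_Xpow (δ : Derivation ℤ K K) (i : ℕ) : dc δ (X ^ i : K[X]) = 0 := by
  rw [Derivation.leibniz_pow, dc_X]
  simp

theorem dc_deriv (δ : Derivation ℤ K K) (P : K[X]) :
    dc δ (derivative P) = derivative (dc δ P) := by
  ext i
  rw [coeff_dc, coeff_derivative, coeff_derivative, coeff_dc, Derivation.leibniz]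
  have : δ ((i : K) + 1) = 0 := by
    rw [map_add, Derivation.map_natCast, Derivation.map_one_eq_zero, add_zero]
  rw [this]
  simp [mul_comm]

/-- the polynomial with the coefficients `a` -/
noncomputable def pol {n : ℕ} (a : Fin n → K) : K[X] := ∑ i, C (a i) * X ^ (i : ℕ)

theorem pol_add {n : ℕ} (a b : Fin n → K) : pol (a + b) = pol a + pol b := by
  simp [pol, add_mul, Finset.sum_add_distrib]

theorem pol_smul {n : ℕ} (c : K) (a : Fin n → K) : pol (c • a) = C c * pol a := by
  simp [pol, Finset.mul_sum, mul_assoc]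

theorem coeff_pol {n : ℕ} (a : Fin n → K) (i : Fin n) : (pol a).coeff (i : ℕ) = a i := by
  unfold pol
  rw [finsetSum_coeff, Finset.sum_eq_single i]
  · simp
  · intro j _ hj
    rw [coeff_C_mul, coeff_X_pow, if_neg (fun h => hj (Fin.ext h.symm)), mul_zero]
  · simp

theorem pol_eq_zero {n : ℕ} {a : Fin n → K} (h : pol a = 0) : a = 0 := by
  funext i
  rw [← coeff_pol a i, h]
  simp

theorem pol_degree {n : ℕ} (a : Fin n → K) : (pol a).natDegree ≤ n - 1 := by
  unfold pol
  refine natDegree_sum_le_of_forall_le _ _ fun i _ => ?_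
  refine (natDegree_C_mul_X_pow_le _ _).trans ?_
  omega

/-- no terms `x ^ (p j - 1)` -/
def Ex (p : ℕ) (F : K[X]) : Prop := ∀ k, p ∣ k + 1 → F.coeff k = 0

theorem ex_derivative {p : ℕ} [CharP K p] (v : K[X]) : Ex p (derivative v) := by
  intro k hk
  rw [coeff_derivative]
  have : ((k : K) + 1) = 0 := by
    have := (CharP.cast_eq_zero_iff K p (k + 1)).2 hk
    exact_mod_cast this
  rw [this, mul_zero]

/-- antiderivative -/
noncomputable def antid : K[X] →ₗ[K] K[X] :=
  Polynomial.lsum fun k => ((k : K) + 1)⁻¹ • monomial (k + 1)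

theorem coeff_antid (F : K[X]) (k : ℕ) :
    (antid F).coeff (k + 1) = F.coeff k * ((k : K) + 1)⁻¹ := by
  unfold antid
  rw [Polynomial.lsum_apply, Polynomial.sum, finsetSum_coeff, Finset.sum_eq_single k]
  · simp [mul_comm]
  · intro j _ hj
    simp only [LinearMap.smul_apply, coeff_smul, coeff_monomial, smul_eq_mul]
    rw [if_neg (by omega), mul_zero]
  · intro h
    rw [notMem_support_iff.1 h]
    simp

theorem deriv_antid {p : ℕ} [CharP K p] {F : K[X]} (h : Ex p F) : derivative (antid F) = F := by
  ext k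
  rw [coeff_derivative, coeff_antid]
  by_cases hk : ((k : K) + 1) = 0
  · rw [hk, mul_zero]
    refine (h k ?_).symm
    rw [← CharP.cast_eq_zero_iff K p]
    exact_mod_cast hk
  · rw [mul_assoc, inv_mul_cancel₀ hk, mul_one]

theorem natDegree_antid (F : K[X]) : (antid F).natDegree ≤ F.natDegree + 1 := by
  rw [natDegree_le_iff_coeff_eq_zero]
  intro N hN
  obtain ⟨k, rfl⟩ : ∃ k, N = k + 1 := ⟨N - 1, by omega⟩
  rw [coeff_antid, coeff_eq_zero_of_natDegree_lt (by omega), zero_mul]

theorem root_mult {p : ℕ} [CharP K p] {s : K} {v : K[X]} {e : ℕ} (he : e + 1 ≤ p)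
    (hd : (X - C s) ^ e ∣ derivative v) (hv : v.eval s = 0) : (X - C s) ^ (e + 1) ∣ v := by
  have key : ∀ k, k ≤ e + 1 → (X - C s) ^ k ∣ v := by
    intro k
    induction k with
    | zero => intro _; simp
    | succ k ih =>
      intro hk
      rcases Nat.eq_zero_or_pos k with h0 | h0
      · subst h0
        simpa using dvd_iff_isRoot.2 hv
      obtain ⟨u, hu⟩ := ih (by omega)
      have h1 : derivative v = C (k : K) * (X - C s) ^ (k - 1) * u +
          (X - C s) ^ k * derivative u := by
        rw [hu, derivative_mul, derivative_X_sub_C_pow]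
      have h2 : (X - C s) ^ k ∣ derivative v := (pow_dvd_pow _ (by omega)).trans hd
      have h3 : (X - C s) ^ k ∣ C (k : K) * (X - C s) ^ (k - 1) * u := by
        rw [h1] at h2
        exact (dvd_add_left (dvd_mul_right _ _)).1 h2
      have hk0 : (k : K) ≠ 0 := by
        rw [Ne, CharP.cast_eq_zero_iff K p]
        intro h
        exact absurd (Nat.le_of_dvd h0 h) (by omega)
      obtain ⟨k', rfl⟩ : ∃ k', k = k' + 1 := ⟨k - 1, by omega⟩
      have hX : (X - C s : K[X]) ≠ 0 := X_sub_C_ne_zero s
      have h4 : (X - C s) ∣ C ((k' + 1 : ℕ) : K) * u := by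
        have h5 : (X - C s) ^ k' * (X - C s) ∣ (X - C s) ^ k' * (C ((k' + 1 : ℕ) : K) * u) := by
          rw [← pow_succ]
          convert h3 using 1
          rw [Nat.add_sub_cancel]
          ring
        exact (mul_dvd_mul_iff_left (pow_ne_zero _ hX)).1 h5
      have h5 : (X - C s) ∣ u := by
        rcases (prime_X_sub_C s).dvd_or_dvd h4 with h6 | h6
        · exfalso
          have h7 : (C ((k' + 1 : ℕ) : K) : K[X]).eval s = 0 := dvd_iff_isRoot.1 h6
          rw [eval_C] at h7
          exact hk0 h7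
        · exact h6
      rw [hu, pow_succ]
      exact mul_dvd_mul_left _ h5
  exact key _ le_rfl

variable {n : ℕ}

/-- the weight `∏ (x - s l) ^ e l` -/
noncomputable def gg (s : Fin (n + 1) → K) (e : Fin (n + 1) → ℕ) : K[X] :=
  ∏ l, (X - C (s l)) ^ e l

theorem gg_ne (s : Fin (n + 1) → K) (e : Fin (n + 1) → ℕ) : gg s e ≠ 0 :=
  Finset.prod_ne_zero_iff.2 fun _ _ => pow_ne_zero _ (X_sub_C_ne_zero _)

theorem pr_ne (s : Fin (n + 1) → K) : pr s ≠ 0 :=
  Finset.prod_ne_zero_iff.2 fun _ _ => X_sub_C_ne_zero _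

theorem gg_deg (s : Fin (n + 1) → K) (e : Fin (n + 1) → ℕ) :
    (gg s e).natDegree = ∑ l, e l := by
  unfold gg
  rw [natDegree_prod _ _ fun _ _ => pow_ne_zero _ (X_sub_C_ne_zero _)]
  simp

/-- the exact forms -/
def exact (p : ℕ) (s : Fin (n + 1) → K) (e : Fin (n + 1) → ℕ) : Submodule K (Fin n → K) where
  carrier := {a | Ex p (pol a * gg s e)}
  zero_mem' := by
    intro k _
    have : pol (0 : Fin n → K) = 0 := by simp [pol]
    rw [this]
    simp
  add_mem' {a b} ha hb := by
    intro k hk
    rw [pol_add, add_mul, coeff_add, ha k hk, hb k hk, add_zero]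
  smul_mem' c a ha := by
    intro k hk
    rw [pol_smul, mul_assoc, coeff_C_mul, ha k hk, mul_zero]

theorem mem_exact {p : ℕ} {s : Fin (n + 1) → K} {e : Fin (n + 1) → ℕ} {a : Fin n → K} :
    a ∈ exact p s e ↔ Ex p (pol a * gg s e) := Iff.rfl

theorem pol_nab (δ : Derivation ℤ K K) (M : Matrix (Fin n) (Fin n) K) (a : Fin n → K) :
    pol (nab δ M a) = dc δ (pol a) + ∑ i, C (a i) * ∑ j, C (M i j) * X ^ (j : ℕ) := by
  have h1 : dc δ (pol a) = ∑ i, C (δ (a i)) * X ^ (i : ℕ) := by
    unfold pol
    rw [map_sum]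
    refine Finset.sum_congr rfl fun i _ => ?_
    rw [Derivation.leibniz, dc_Xpow, dc_C, smul_zero, zero_add, smul_eq_mul, mul_comm]
  have h2 : ∑ i, C (a i) * ∑ j, C (M i j) * X ^ (j : ℕ) =
      ∑ j, C (∑ i, a i * M i j) * X ^ (j : ℕ) := by
    have h3 : ∀ i, C (a i) * ∑ j, C (M i j) * X ^ (j : ℕ) =
        ∑ j, C (a i * M i j) * X ^ (j : ℕ) := by
      intro i
      rw [Finset.mul_sum]
      refine Finset.sum_congr rfl fun j _ => ?_
      rw [C_mul, mul_assoc]
    rw [Finset.sum_congr rfl fun i _ => h3 i, Finset.sum_comm]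
    refine Finset.sum_congr rfl fun j _ => ?_
    rw [← Finset.sum_mul, ← map_sum]
  rw [h1, h2, ← Finset.sum_add_distrib]
  unfold pol nab
  refine Finset.sum_congr rfl fun j _ => ?_
  rw [C_add, add_mul]

theorem exact_flat (p : ℕ) [CharP K p] (δ : Derivation ℤ K K) (m : ℕ) (hm : (m : K) ≠ 0)
    (s : Fin (n + 1) → K) (b e : Fin (n + 1) → ℕ) (M : Matrix (Fin n) (Fin n) K)
    (hM : IsGM δ m s b M) (he : ∀ l, (m : K) * e l = - b l) (a : Fin n → K)
    (ha : a ∈ exact p s e) : nab δ M a ∈ exact p s e := by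
  classical
  rw [mem_exact] at ha ⊢
  choose Q hQ using hM
  set g := gg s e with hg
  set v := antid (pol a * g) with hv
  have hdv : derivative v = pol a * g := deriv_antid ha
  have hgl : ∀ D : Derivation ℤ K[X] K[X], pr s * D g =
      g * ∑ l, (e l : K[X]) * D (X - C (s l)) * co s l := by
    intro D
    exact logder D (fun l => X - C (s l)) e Finset.univ
  have hmC : (m : K[X]) = C (m : K) := by simp
  have h1 : (m : K[X]) * pr s * dc δ g = g * ∑ l, C ((b l : K) * δ (s l)) * co s l := by
    rw [mul_assoc, hgl, mul_left_comm, Finset.mul_sum]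
    congr 1
    refine Finset.sum_congr rfl fun l _ => ?_
    rw [map_sub, dc_X, dc_C, zero_sub]
    have h2 : (m : K[X]) * (e l : K[X]) = - C (b l : K) := by
      have := congrArg (C : K → K[X]) (he l)
      simpa using this
    calc (m : K[X]) * ((e l : K[X]) * -C (δ (s l)) * co s l)
        = -((m : K[X]) * (e l : K[X])) * C (δ (s l)) * co s l := by ring
      _ = _ := by
        rw [h2, C_mul]
        ring
  have h2 : (m : K[X]) * pr s * derivative g = - (g * ∑ l, (b l : K[X]) * co s l) := by
    have hd := hgl (derivative'.restrictScalars ℤ)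
    have hd2 : pr s * derivative g = g * ∑ l, (e l : K[X]) * co s l := by
      have h3 : ∀ F : K[X], (derivative'.restrictScalars ℤ : Derivation ℤ K[X] K[X]) F =
          derivative F := fun F => rfl
      rw [h3] at hd
      rw [hd]
      congr 1
      refine Finset.sum_congr rfl fun l _ => ?_
      rw [h3]
      simp
    rw [mul_assoc, hd2, mul_left_comm, Finset.mul_sum, ← mul_neg, ← Finset.sum_neg_distrib]
    congr 1
    refine Finset.sum_congr rfl fun l _ => ?_
    have h2 : (m : K[X]) * (e l : K[X]) = - (b l : K[X]) := by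
      have := congrArg (C : K → K[X]) (he l)
      simpa using this
    rw [← mul_assoc, h2]
    ring
  set W := dc δ v - ∑ i, C (a i) * (Q i * g) with hW
  have h3 : (m : K[X]) * pr s * (pol (nab δ M a) * g) = (m : K[X]) * pr s * derivative W := by
    have h4 : derivative W = dc δ (pol a) * g + pol a * dc δ g -
        ∑ i, C (a i) * (derivative (Q i) * g + Q i * derivative g) := by
      rw [hW, derivative_sub, ← dc_deriv, hdv, Derivation.leibniz, derivative_sum]
      have h4' : ∑ i, derivative (C (a i) * (Q i * g)) =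
          ∑ i, C (a i) * (derivative (Q i) * g + Q i * derivative g) :=
        Finset.sum_congr rfl fun i _ => by rw [derivative_C_mul, derivative_mul]
      rw [h4', smul_eq_mul, smul_eq_mul]
      ring
    have h5 : (m : K[X]) * pr s * ∑ i, C (a i) * (derivative (Q i) * g + Q i * derivative g) =
        g * ∑ i, C (a i) * ((m : K[X]) * pr s * derivative (Q i) -
          Q i * ∑ l, (b l : K[X]) * co s l) := by
      rw [Finset.mul_sum, Finset.mul_sum]
      refine Finset.sum_congr rfl fun i _ => ?_
      linear_combination (C (a i) * Q i) * h2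
    have h6 : (m : K[X]) * pr s * (pol a * dc δ g) =
        g * ∑ i, C (a i) * ((m : K[X]) * pr s * (∑ j, C (M i j) * X ^ (j : ℕ) +
          derivative (Q i)) - Q i * ∑ l, (b l : K[X]) * co s l) := by
      calc (m : K[X]) * pr s * (pol a * dc δ g) = pol a * ((m : K[X]) * pr s * dc δ g) := by ring
        _ = g * ∑ i, C (a i) * (X ^ (i : ℕ) * ∑ l, C ((b l : K) * δ (s l)) * co s l) := by
            rw [h1]
            generalize (∑ l, C ((b l : K) * δ (s l)) * co s l) = Z
            rw [pol, Finset.sum_mul, Finset.mul_sum]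
            refine Finset.sum_congr rfl fun i _ => ?_
            ring
        _ = _ := by
            congr 1
            refine Finset.sum_congr rfl fun i _ => ?_
            rw [hQ i]
    rw [h4, pol_nab, mul_sub, mul_add, h6, h5]
    clear hQ h1
    generalize (∑ l, (b l : K[X]) * co s l) = Z at *
    generalize pr s = Y at *
    have h7 : ∑ i, C (a i) * ((m : K[X]) * Y * (∑ j, C (M i j) * X ^ (j : ℕ) +
          derivative (Q i)) - Q i * Z) =
        (m : K[X]) * Y * ∑ i, C (a i) * ∑ j, C (M i j) * X ^ (j : ℕ) +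
        ∑ i, C (a i) * ((m : K[X]) * Y * derivative (Q i) -
          Q i * Z) := by
      rw [Finset.mul_sum, ← Finset.sum_add_distrib]
      refine Finset.sum_congr rfl fun i _ => ?_
      ring
    rw [h7]
    ring
  have h8 : (m : K[X]) * pr s ≠ 0 := by
    rw [hmC]
    exact mul_ne_zero (C_ne_zero.2 hm) (pr_ne s)
  rw [mul_left_cancel₀ h8 h3]
  exact ex_derivative W

theorem exact_dim (p : ℕ) [CharP K p] (r : ℕ) (hr : r ≤ n)
    (s : Fin (n + 1) → K) (hs : Function.Injective s) (e : Fin (n + 1) → ℕ)
    (he : ∀ l, e l + 1 ≤ p) (hpr : p * r ≤ n + ∑ l, e l) :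
    Module.finrank K (exact p s e) + r ≤ n := by
  classical
  by_contra hcon
  have hp0 : p ≠ 0 := by
    have := he 0
    omega
  let T : (exact p s e) × (Fin (r + 1) → K) →ₗ[K] (Fin (n + 1) → K) :=
    { toFun := fun x l => (antid (pol (x.1 : Fin n → K) * gg s e)).eval (s l) +
        (∑ j, C (x.2 j) * X ^ (p * (j : ℕ))).eval (s l)
      map_add' := by
        intro x y
        funext l
        simp only [Prod.fst_add, Prod.snd_add, Submodule.coe_add, pol_add, add_mul, map_add,
          eval_add, Pi.add_apply, Finset.sum_add_distrib]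
        ring
      map_smul' := by
        intro c x
        funext l
        simp only [Prod.smul_fst, Prod.smul_snd, Submodule.coe_smul, pol_smul, Pi.smul_apply,
          smul_eq_mul, RingHom.id_apply, C_mul, mul_assoc]
        rw [← smul_eq_C_mul, map_smul, eval_smul, ← Finset.mul_sum, eval_mul, eval_C]
        simp only [smul_eq_mul]
        ring }
  have hT : ¬ Function.Injective T := by
    intro h
    have h1 := LinearMap.finrank_le_finrank_of_injective h
    rw [Module.finrank_prod, Module.finrank_fin_fun, Module.finrank_fin_fun] at h1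
    omega
  rw [← LinearMap.ker_eq_bot, Submodule.eq_bot_iff] at hT
  push Not at hT
  obtain ⟨⟨a, c⟩, hx, hx0⟩ := hT
  rw [LinearMap.mem_ker] at hx
  set F := pol (a : Fin n → K) * gg s e with hF
  set R : K[X] := ∑ j, C (c j) * X ^ (p * (j : ℕ)) with hR
  set v := antid F + R with hv
  have hRd : derivative R = 0 := by
    rw [hR, derivative_sum]
    refine Finset.sum_eq_zero fun j _ => ?_
    rw [derivative_C_mul_X_pow]
    have : ((p * (j : ℕ) : ℕ) : K) = 0 := by
      rw [Nat.cast_mul, CharP.cast_eq_zero, zero_mul]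
    rw [this]
    simp
  have hFv : derivative v = F := by
    rw [hv, derivative_add, hRd, add_zero]
    exact deriv_antid a.2
  have hvs : ∀ l, v.eval (s l) = 0 := by
    intro l
    have := congrFun hx l
    rw [hv, eval_add]
    exact this
  have hdiv : ∀ l, (X - C (s l)) ^ (e l + 1) ∣ v := by
    intro l
    refine root_mult (he l) ?_ (hvs l)
    rw [hFv, hF]
    exact Dvd.dvd.mul_left (Finset.dvd_prod_of_mem (fun l => (X - C (s l)) ^ e l)
      (Finset.mem_univ l)) _
  have hprod : ∏ l, (X - C (s l)) ^ (e l + 1) ∣ v := by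
    refine Finset.prod_dvd_of_coprime ?_ fun l _ => hdiv l
    intro i _ j _ hij
    exact IsCoprime.pow (pairwise_coprime_X_sub_C hs hij)
  have hv0 : v = 0 := by
    by_contra hne
    have h1 := natDegree_le_of_dvd hprod hne
    rw [natDegree_prod _ _ fun _ _ => pow_ne_zero _ (X_sub_C_ne_zero _)] at h1
    simp only [natDegree_pow, natDegree_X_sub_C, mul_one, Finset.sum_add_distrib,
      Finset.sum_const, Finset.card_univ, Fintype.card_fin, smul_eq_mul] at h1
    have h2 : v.natDegree ≤ n + ∑ l, e l := by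
      rw [hv]
      refine (natDegree_add_le _ _).trans (max_le ?_ ?_)
      · by_cases hn : n = 0
        · have h3 : F = 0 := by
            rw [hF, pol]
            subst hn
            simp
          rw [h3]
          simp
        · refine (natDegree_antid F).trans ?_
          have h3 : F.natDegree ≤ (n - 1) + ∑ l, e l := by
            rw [hF]
            refine natDegree_mul_le.trans ?_
            rw [gg_deg]
            exact Nat.add_le_add_right (pol_degree _) _
          omega
      · rw [hR]
        refine natDegree_sum_le_of_forall_le _ _ fun j _ => ?_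
        refine (natDegree_C_mul_X_pow_le _ _).trans ?_
        refine le_trans (Nat.mul_le_mul_left p (Nat.lt_succ_iff.1 j.2)) hpr
    omega
  have hF0 : F = 0 := by rw [← hFv, hv0, derivative_zero]
  have ha0 : (a : Fin n → K) = 0 := by
    refine pol_eq_zero ?_
    rcases mul_eq_zero.1 hF0 with h | h
    · exact h
    · exact absurd h (gg_ne s e)
  have hR0 : R = 0 := by
    have h1 := hv
    rw [hv0, hF0, map_zero, zero_add] at h1
    exact h1.symm
  apply hx0
  have hc0 : c = 0 := by
    funext j
    have h1 : R.coeff (p * (j : ℕ)) = c j := by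
      rw [hR, finsetSum_coeff, Finset.sum_eq_single j]
      · simp
      · intro i _ hij
        rw [coeff_C_mul, coeff_X_pow, if_neg, mul_zero]
        intro h
        exact hij (Fin.ext (Nat.eq_of_mul_eq_mul_left (Nat.pos_of_ne_zero hp0) h).symm)
      · simp
    rw [← h1, hR0]
    simp
  rw [Prod.mk_eq_zero]
  exact ⟨Subtype.ext ha0, hc0⟩

theorem exact_hw (p : ℕ) (r : ℕ) (hr : r ≤ n)
    (s : Fin (n + 1) → K) (e : Fin (n + 1) → ℕ) (hp : 0 < p)
    (her : r + ∑ l, e l < p * (r + 1))
    (hdet : (hw p r (gg s e)).det = 0) :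
    ∃ a ∈ exact p s e, a ≠ 0 ∧ ∀ i : Fin n, r ≤ (i : ℕ) → a i = 0 := by
  classical
  obtain ⟨w, hw0, hw1⟩ := Matrix.exists_mulVec_eq_zero_iff.2 hdet
  let a : Fin n → K := fun i => if h : (i : ℕ) < r then w ⟨i, h⟩ else 0
  have hpol : pol a = ∑ j : Fin r, C (w j) * X ^ (j : ℕ) := by
    ext k
    by_cases hk : k < n
    · have h10 : (pol a).coeff k = a ⟨k, hk⟩ := coeff_pol a ⟨k, hk⟩
      rw [h10]
      by_cases hkr : k < r
      · have h9 : (∑ j : Fin r, C (w j) * X ^ (j : ℕ)).coeff k = w ⟨k, hkr⟩ :=
          coeff_pol w ⟨k, hkr⟩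
        rw [h9]
        simp only [a, dif_pos hkr]
      · simp only [a, dif_neg hkr]
        rw [finsetSum_coeff]
        refine (Finset.sum_eq_zero fun j _ => ?_).symm
        rw [coeff_C_mul, coeff_X_pow, if_neg (by have := j.2; omega), mul_zero]
    · rw [pol, finsetSum_coeff, finsetSum_coeff, Finset.sum_eq_zero, Finset.sum_eq_zero]
      · intro j _
        rw [coeff_C_mul, coeff_X_pow, if_neg (by have := j.2; omega), mul_zero]
      · intro j _
        rw [coeff_C_mul, coeff_X_pow, if_neg (by have := j.2; omega), mul_zero]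
  refine ⟨a, ?_, ?_, ?_⟩
  · rw [mem_exact]
    intro k hk
    obtain ⟨u, hu⟩ := hk
    obtain ⟨u, rfl⟩ : ∃ u', u = u' + 1 := ⟨u - 1, by
      rcases Nat.eq_zero_or_pos u with h | h
      · subst h; simp at hu
      · omega⟩
    by_cases hur : u < r
    · have h1 : (pol a * gg s e).coeff k = (X * (pol a * gg s e)).coeff (k + 1) := by
        rw [coeff_X_mul]
      have h2 := congrFun hw1 ⟨u, hur⟩
      simp only [Matrix.mulVec, dotProduct, hw, Matrix.of_apply, Pi.zero_apply] at h2
      rw [h1, hu, ← h2, hpol, Finset.sum_mul, Finset.mul_sum, finsetSum_coeff]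
      refine Finset.sum_congr rfl fun j _ => ?_
      rw [show X * (C (w j) * X ^ (j : ℕ) * gg s e) = C (w j) * (X ^ ((j : ℕ) + 1) * gg s e) by
        ring, coeff_C_mul, mul_comm]
    · rw [coeff_eq_zero_of_natDegree_lt]
      rcases Nat.eq_zero_or_pos r with h0 | h0
      · have h3 : pol a = 0 := by
          rw [hpol]
          subst h0
          simp
        rw [h3]
        simp only [zero_mul, natDegree_zero]
        have : 0 < p * (u + 1) := Nat.mul_pos hp (by omega)
        subst h0
        have h4 : p * 1 ≤ p * (u + 1) := Nat.mul_le_mul_left p (by omega)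
        have h5 : ∑ l, e l < p := by simpa using her
        by_contra hk0
        have hk1 : k = 0 := by omega
        subst hk1
        -- p = 1
        have hp1 : p = 1 := by
          have : p * (u + 1) = 1 := by omega
          exact Nat.eq_one_of_mul_eq_one_right this
        exfalso
        apply hw0
        funext i
        exact i.elim0
      · have h3 : (pol a * gg s e).natDegree ≤ (r - 1) + ∑ l, e l := by
          refine natDegree_mul_le.trans ?_
          rw [gg_deg]
          refine Nat.add_le_add_right ?_ _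
          rw [hpol]
          exact pol_degree w
        have h4 : p * (r + 1) ≤ p * (u + 1) := Nat.mul_le_mul_left p (by omega)
        omega
  · intro h
    apply hw0
    funext j
    have hj : (j : ℕ) < n := lt_of_lt_of_le j.2 hr
    have := congrFun h ⟨j, hj⟩
    simpa [a] using this
  · intro i hi
    simp only [a]
    rw [dif_neg (by omega)]

/-- **Part A.** The flat space of the exact forms. -/
theorem partA (p : ℕ) [CharP K p] (hp : 2 ≤ p) (δ : Derivation ℤ K K) (m : ℕ) (hm : (m : K) ≠ 0)
    (r : ℕ) (hr : r ≤ n) (s : Fin (n + 1) → K) (hs : Function.Injective s)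
    (b e : Fin (n + 1) → ℕ) (hb : ∀ l, b l < m) (M : Matrix (Fin n) (Fin n) K)
    (hM : IsGM δ m s b M) (he : ∀ l, m * e l = b l * (p - 1))
    (hr1 : m * r ≤ ∑ l, b l) (hr2 : ∑ l, b l < m * (r + 1)) :
    ∃ L : Submodule K (Fin n → K), Module.finrank K L + r ≤ n ∧
      (∀ a ∈ L, nab δ M a ∈ L) ∧
      ((hw p r (gg s e)).det = 0 →
        ∃ a ∈ L, a ≠ 0 ∧ ∀ i : Fin n, r ≤ (i : ℕ) → a i = 0) := by
  have hm0 : 0 < m := lt_of_le_of_lt (Nat.zero_le _) (hb 0)
  have hel : ∀ l, e l + 1 ≤ p := by
    intro l
    have h1 : m * e l < m * (p - 1) ∨ p - 1 = 0 := by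
      rcases Nat.eq_zero_or_pos (p - 1) with h | h
      · exact Or.inr h
      · left
        rw [he l]
        exact Nat.mul_lt_mul_of_pos_right (hb l) h
    rcases h1 with h1 | h1
    · have := Nat.lt_of_mul_lt_mul_left h1
      omega
    · omega
  have hsum : m * ∑ l, e l = (∑ l, b l) * (p - 1) := by
    rw [Finset.mul_sum, Finset.sum_mul]
    exact Finset.sum_congr rfl fun l _ => he l
  refine ⟨exact p s e, ?_, ?_, ?_⟩
  · refine exact_dim p r hr s hs e hel ?_
    have h1 : m * (r * (p - 1)) ≤ m * ∑ l, e l := by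
      rw [hsum, ← mul_assoc]
      exact Nat.mul_le_mul_right _ hr1
    have h2 := Nat.le_of_mul_le_mul_left h1 hm0
    obtain ⟨q, rfl⟩ : ∃ q, p = q + 1 := ⟨p - 1, by omega⟩
    rw [Nat.add_sub_cancel] at h2
    nlinarith
  · intro a ha
    refine exact_flat p δ m hm s b e M hM ?_ a ha
    intro l
    have h1 := he l
    obtain ⟨q, rfl⟩ : ∃ q, p = q + 1 := ⟨p - 1, by omega⟩
    rw [Nat.add_sub_cancel] at h1
    have h2 : ((m * e l : ℕ) : K) = ((b l * q : ℕ) : K) := by rw [h1]
    have h3 : ((q : K) + 1) = 0 := by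
      have := CharP.cast_eq_zero K (q + 1)
      exact_mod_cast this
    push_cast at h2
    rw [h2, eq_neg_of_add_eq_zero_left h3]
    ring
  · refine exact_hw p r hr s e (by omega) ?_
    have h1 : m * ∑ l, e l < m * ((r + 1) * (p - 1)) := by
      rw [hsum, ← mul_assoc]
      exact Nat.mul_lt_mul_of_pos_right hr2 (by omega)
    have h2 := Nat.lt_of_mul_lt_mul_left h1
    obtain ⟨q, rfl⟩ : ∃ q, p = q + 1 := ⟨p - 1, by omega⟩
    rw [Nat.add_sub_cancel] at h2
    nlinarith

end

end Pool.Agent.V8H79.BM
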