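import Pool.Agent.V8H79.BM.Defs

/-!
# Derivations of quotients and fraction fields, composites of differential fields
-/

set_option autoImplicit false

open scoped TensorProduct

namespace Pool.Agent.V8H79.BM

section quotient

/-- the derivation of a quotient -/
theorem exists_qder {R : Type*} [CommRing R] (D : R →+ R)
    (hD : ∀ x y, D (x * y) = x * D y + y * D x) (I : Ideal R) (h : ∀ x ∈ I, D x ∈ I) :
    ∃ D' : R ⧸ I →+ R ⧸ I, (∀ x y, D' (x * y) = x * D' y + y * D' x) ∧
      ∀ x, D' (Ideal.Quotient.mk I x) = Ideal.Quotient.mk I (D x) := by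
  have key : ∀ x y : R, Ideal.Quotient.mk I x = Ideal.Quotient.mk I y →
      Ideal.Quotient.mk I (D x) = Ideal.Quotient.mk I (D y) := fun x y hxy => by
    rw [Ideal.Quotient.eq] at hxy ⊢
    rw [← map_sub]
    exact h _ hxy
  have hs : ∀ y : R ⧸ I, ∃ x, Ideal.Quotient.mk I x = y := Ideal.Quotient.mk_surjective
  choose f hf using hs
  refine ⟨{ toFun := fun y => Ideal.Quotient.mk I (D (f y)), map_zero' := ?_, map_add' := ?_ },
    ?_, ?_⟩
  · rw [key _ 0 (by rw [hf, map_zero])]
    simp
  · intro y z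
    rw [key _ (f y + f z) (by rw [hf, map_add, hf, hf])]
    simp
  · intro y z
    change Ideal.Quotient.mk I (D (f (y * z))) = y * Ideal.Quotient.mk I (D (f z)) +
      z * Ideal.Quotient.mk I (D (f y))
    rw [key _ (f y * f z) (by rw [hf, map_mul, hf, hf]), hD, map_add, map_mul, map_mul, hf, hf]
  · intro x
    exact key _ _ (hf _)

end quotient

section fraction

variable {R K : Type*} [CommRing R] [IsDomain R] [Field K] [Algebra R K] [IsFractionRing R K]
  (D : R →+ R) (hD : ∀ x y, D (x * y) = x * D y + y * D x)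

include hD in
theorem exists_fder : ∃ D' : Derivation ℤ K K, ∀ x : R,
    D' (algebraMap R K x) = algebraMap R K (D x) := by
  classical
  set φ := algebraMap R K with hφ
  have hinj : Function.Injective φ := IsFractionRing.injective R K
  have hsurj : ∀ x : K, ∃ a b : R, b ≠ 0 ∧ x = φ a / φ b := by
    intro x
    obtain ⟨a, b, hb, hx⟩ := IsFractionRing.div_surjective (A := R) x
    exact ⟨a, b, nonZeroDivisors.ne_zero hb, hx.symm⟩
  choose A B hB hAB using hsurj
  have hφ0 : ∀ {b : R}, b ≠ 0 → φ b ≠ 0 := fun hb h0 => hb (hinj (by rw [h0, map_zero]))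
  let f : K → K := fun x => (φ (D (A x)) * φ (B x) - φ (A x) * φ (D (B x))) / φ (B x) ^ 2
  have key : ∀ a b : R, b ≠ 0 → f (φ a / φ b) =
      (φ (D a) * φ b - φ a * φ (D b)) / φ b ^ 2 := by
    intro a b hb
    set x := φ a / φ b with hx
    have h1 := hAB x
    have hb0 := hφ0 hb
    have hB0 := hφ0 (hB x)
    have h2 : φ a * φ (B x) = φ (A x) * φ b := by
      have h3 : φ a / φ b = φ (A x) / φ (B x) := by rw [← h1]
      rwa [div_eq_div_iff hb0 hB0] at h3
    have h3 : a * B x = A x * b := hinj (by rw [map_mul, map_mul, h2])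
    have h4 := congrArg D h3
    rw [hD, hD] at h4
    have h5 := congrArg φ h4
    simp only [map_add, map_mul] at h5
    change (φ (D (A x)) * φ (B x) - φ (A x) * φ (D (B x))) / φ (B x) ^ 2 = _
    rw [div_eq_div_iff (pow_ne_zero 2 hB0) (pow_ne_zero 2 hb0)]
    -- multiply the difference by suitable factors
    have h6 : φ (A x) = φ a * φ (B x) / φ b := by
      rw [h2, mul_div_assoc, div_self hb0, mul_one]
    have h7 : φ (D (A x)) = (φ a * φ (D (B x)) + φ (B x) * φ (D a) - φ (A x) * φ (D b)) / φ b := by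
      rw [h5, eq_div_iff hb0]
      ring
    rw [h7, h6]
    field_simp
    ring
  have hadd : ∀ x y, f (x + y) = f x + f y := by
    intro x y
    have hx := hφ0 (hB x)
    have hy := hφ0 (hB y)
    have h1 : x + y = φ (A x * B y + A y * B x) / φ (B x * B y) := by
      conv_lhs => rw [hAB x, hAB y]
      rw [map_add, map_mul, map_mul, map_mul]
      field_simp
    rw [h1, key _ _ (mul_ne_zero (hB x) (hB y))]
    simp only [map_add, map_mul, hD, f]
    field_simp
    ring
  have hmul : ∀ x y, f (x * y) = x * f y + y * f x := by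
    intro x y
    have hx := hφ0 (hB x)
    have hy := hφ0 (hB y)
    have h1 : x * y = φ (A x * A y) / φ (B x * B y) := by
      conv_lhs => rw [hAB x, hAB y]
      rw [map_mul, map_mul]
      field_simp
    rw [h1, key _ _ (mul_ne_zero (hB x) (hB y))]
    have h2 : x * f y + y * f x = φ (A x) / φ (B x) * f y + φ (A y) / φ (B y) * f x := by
      rw [← hAB x, ← hAB y]
    rw [h2]
    simp only [map_add, map_mul, hD, f]
    field_simp
    ring
  have hD1 : D 1 = 0 := by
    have h1 := hD 1 1
    simpa using h1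
  have hzero : f 0 = 0 := by
    have h1 := key 0 1 one_ne_zero
    simpa using h1
  refine ⟨Derivation.mk' (AddMonoidHom.toIntLinearMap
    { toFun := f, map_zero' := hzero, map_add' := hadd }) ?_, ?_⟩
  · intro x y
    exact hmul x y
  · intro x
    change f (φ x) = φ (D x)
    have h1 := key x 1 one_ne_zero
    simpa [hD1] using h1

end fraction

section composite

variable {K E L : Type} [Field K] [CharZero K] [Field E] [Field L] [Algebra K E] [Algebra K L]
  (δ : Derivation ℤ K K) (δE : Derivation ℤ E E) (δL : Derivation ℤ L L)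

/-- a ring in which all positive integers are invertible: the radical of a differential ideal is
differential -/
theorem rad_diff {T : Type*} [CommRing T] (hT : ∀ n : ℕ, n ≠ 0 → IsUnit (n : T))
    (D : Derivation ℤ T T) (I : Ideal T) (hI : ∀ x ∈ I, D x ∈ I) :
    ∀ x ∈ I.radical, D x ∈ I.radical := by
  rintro x ⟨n, hn⟩
  have key : ∀ k, k ≤ n → x ^ (n - k) * (D x) ^ (2 * k) ∈ I := by
    intro k
    induction k with
    | zero => intro _; simpa using hn
    | succ k ih =>
      intro hk
      have h1 := ih (by omega)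
      have h2 := hI _ h1
      rw [Derivation.leibniz, Derivation.leibniz_pow, Derivation.leibniz_pow] at h2
      simp only [smul_eq_mul, nsmul_eq_mul] at h2
      obtain ⟨q, hq⟩ : ∃ q, n - k = q + 1 := ⟨n - k - 1, by omega⟩
      have hq' : n - (k + 1) = q := by omega
      rw [hq] at h1 h2
      rw [hq']
      have h3 := I.mul_mem_left (D x) h2
      have h4 : D x * (x ^ (q + 1) * (((2 * k : ℕ) : T) * (D x ^ (2 * k - 1) * D (D x))) +
          D x ^ (2 * k) * (((q + 1 : ℕ) : T) * (x ^ (q + 1 - 1) * D x))) =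
          x ^ (q + 1) * D x ^ (2 * k) * (((2 * k : ℕ) : T) * D (D x)) +
          ((q + 1 : ℕ) : T) * (x ^ q * D x ^ (2 * (k + 1))) := by
        rcases Nat.eq_zero_or_pos k with h0 | h0
        · subst h0
          simp
          ring
        · obtain ⟨j, rfl⟩ : ∃ j, k = j + 1 := ⟨k - 1, by omega⟩
          rw [show 2 * (j + 1) - 1 = 2 * j + 1 by omega, Nat.add_sub_cancel]
          ring
      rw [h4] at h3
      have h5 : ((q + 1 : ℕ) : T) * (x ^ q * D x ^ (2 * (k + 1))) ∈ I :=
        (I.add_mem_iff_right (I.mul_mem_right _ h1)).1 h3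
      obtain ⟨u, hu⟩ := hT (q + 1) (by omega)
      rw [← hu] at h5
      have h6 := I.mul_mem_left (↑u⁻¹ : T) h5
      rwa [← mul_assoc, Units.inv_mul, one_mul] at h6
  have h1 := key n le_rfl
  rw [Nat.sub_self, pow_zero, one_mul] at h1
  exact ⟨2 * n, h1⟩

/-- a proper differential ideal is contained in a prime differential ideal -/
theorem exists_prime_diff {T : Type*} [CommRing T] [Nontrivial T]
    (hT : ∀ n : ℕ, n ≠ 0 → IsUnit (n : T)) (D : Derivation ℤ T T) :
    ∃ I : Ideal T, I.IsPrime ∧ ∀ x ∈ I, D x ∈ I := by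
  classical
  let S : Set (Ideal T) := {I | I ≠ ⊤ ∧ ∀ x ∈ I, D x ∈ I}
  have hS : ⊥ ∈ S := ⟨bot_ne_top, fun x hx => by
    rw [Ideal.mem_bot] at hx
    rw [hx, map_zero]
    exact Ideal.zero_mem _⟩
  obtain ⟨I, -, hI⟩ := zorn_le_nonempty₀ S (by
    intro c hc hchain y hy
    refine ⟨sSup c, ⟨?_, ?_⟩, fun z hz => le_sSup hz⟩
    · rw [Ideal.ne_top_iff_one]
      intro h1
      rw [Submodule.mem_sSup_of_directed ⟨y, hy⟩ hchain.directedOn] at h1
      obtain ⟨J, hJ, h2⟩ := h1
      exact (Ideal.ne_top_iff_one J).1 (hc hJ).1 h2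
    · intro x hx
      rw [Submodule.mem_sSup_of_directed ⟨y, hy⟩ hchain.directedOn] at hx
      obtain ⟨J, hJ, h2⟩ := hx
      exact (le_sSup hJ : J ≤ sSup c) ((hc hJ).2 x h2)) ⊥ hS
  have hIS : I ∈ S := hI.1
  have hrad : I.radical = I := by
    refine le_antisymm ?_ Ideal.le_radical
    refine hI.2 ⟨?_, rad_diff hT D I hIS.2⟩ Ideal.le_radical
    rw [Ne, Ideal.radical_eq_top]
    exact hIS.1
  refine ⟨I, ⟨hIS.1, fun {a b} hab => ?_⟩, hIS.2⟩
  by_contra hcon
  push Not at hcon
  obtain ⟨ha, hb⟩ := hcon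
  -- the ideal (I : a)
  let J : Ideal T :=
    { carrier := {x | a * x ∈ I}
      zero_mem' := by
        change a * 0 ∈ I
        simp
      add_mem' := by
        intro x y hx hy
        change a * (x + y) ∈ I
        rw [mul_add]
        exact I.add_mem hx hy
      smul_mem' := by
        intro c x hx
        change a * (c • x) ∈ I
        rw [smul_eq_mul, mul_left_comm]
        exact I.mul_mem_left _ hx }
  have hJ : J ∈ S := by
    refine ⟨?_, ?_⟩
    · rw [Ideal.ne_top_iff_one]
      change ¬ (a * 1 ∈ I)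
      rwa [mul_one]
    · intro x hx
      change a * x ∈ I at hx
      change a * D x ∈ I
      have h1 := hIS.2 _ hx
      rw [Derivation.leibniz] at h1
      simp only [smul_eq_mul] at h1
      have h2 : (a * D x) ^ 2 = (a * D x + x * D a) * (a * D x) - (a * x) * (D a * D x) := by ring
      have h3 : (a * D x) ^ 2 ∈ I := by
        rw [h2]
        exact I.sub_mem (I.mul_mem_right _ h1) (I.mul_mem_right _ hx)
      rw [← hrad]
      exact ⟨2, h3⟩
  have h1 : J ≤ I := hI.2 hJ (fun x hx => I.mul_mem_left a hx)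
  exact hb (h1 hab)

omit [CharZero K] in
/-- the derivation of a tensor product -/
theorem exists_tder (hE : ∀ a, δE (algebraMap K E a) = algebraMap K E (δ a))
    (hL : ∀ a, δL (algebraMap K L a) = algebraMap K L (δ a)) :
    ∃ D : E ⊗[K] L →+ E ⊗[K] L, (∀ x y, D (x * y) = x * D y + y * D x) ∧ ∀ a b,
      D (a ⊗ₜ[K] b) = δE a ⊗ₜ[K] b + a ⊗ₜ[K] δL b := by
  let f : E →+ L →+ E ⊗[K] L :=
    { toFun := fun a =>
        { toFun := fun b => δE a ⊗ₜ[K] b + a ⊗ₜ[K] δL b
          map_zero' := by simp
          map_add' := by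
            intro b c
            rw [map_add, TensorProduct.tmul_add, TensorProduct.tmul_add]
            abel }
      map_zero' := by
        ext b
        simp
      map_add' := by
        intro a c
        ext b
        simp only [AddMonoidHom.coe_mk, ZeroHom.coe_mk, AddMonoidHom.add_apply, map_add,
          TensorProduct.add_tmul]
        abel }
  have hf : ∀ (r : K) (a : E) (b : L), f (r • a) b = f a (r • b) := by
    intro r a b
    change δE (r • a) ⊗ₜ[K] b + (r • a) ⊗ₜ[K] δL b = δE a ⊗ₜ[K] (r • b) + a ⊗ₜ[K] δL (r • b)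
    rw [Algebra.smul_def, Algebra.smul_def r b, Derivation.leibniz, Derivation.leibniz, hE, hL]
    simp only [smul_eq_mul]
    rw [mul_comm a, mul_comm b]
    simp only [← Algebra.smul_def]
    simp only [TensorProduct.add_tmul, TensorProduct.tmul_add, TensorProduct.smul_tmul]
    abel
  let D0 : E ⊗[K] L →+ E ⊗[K] L := TensorProduct.liftAddHom f hf
  have hD0 : ∀ a b, D0 (a ⊗ₜ[K] b) = δE a ⊗ₜ[K] b + a ⊗ₜ[K] δL b := by
    intro a b
    exact TensorProduct.liftAddHom_tmul f hf a b
  refine ⟨D0, ?_, hD0⟩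
  intro x y
  induction x using TensorProduct.induction_on with
  | zero => simp
  | add x1 x2 h1 h2 => rw [add_mul, map_add, h1, h2, map_add]; ring
  | tmul a b =>
    induction y using TensorProduct.induction_on with
    | zero => simp
    | add x1 x2 h1 h2 => rw [mul_add, map_add, h1, h2, map_add]; ring
    | tmul c d =>
      rw [Algebra.TensorProduct.tmul_mul_tmul, hD0, hD0, hD0, Derivation.leibniz,
        Derivation.leibniz]
      simp only [smul_eq_mul, mul_add, Algebra.TensorProduct.tmul_mul_tmul,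
        TensorProduct.add_tmul, TensorProduct.tmul_add]
      rw [mul_comm d b, mul_comm (a) (δE c), mul_comm c a]
      rw [mul_comm c (δE a), mul_comm b (δL d), mul_comm d (δL b)]
      rw [mul_comm (δE c) a, mul_comm (δE a) c, mul_comm (δL d) b, mul_comm (δL b) d]
      abel

/-- a field with a derivation which receives a differential ring -/
theorem exists_dfield {T : Type} [CommRing T] [Nontrivial T]
    (hT : ∀ n : ℕ, n ≠ 0 → IsUnit (n : T)) (D0 : T →+ T)
    (hD0 : ∀ x y, D0 (x * y) = x * D0 y + y * D0 x) :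
    ∃ (F : Type) (_ : Field F) (q : T →+* F) (δF : Derivation ℤ F F),
      ∀ x, δF (q x) = q (D0 x) := by
  let D : Derivation ℤ T T := Derivation.mk' (AddMonoidHom.toIntLinearMap D0) hD0
  obtain ⟨I, hI, hDI⟩ := exists_prime_diff hT D
  have : IsDomain (T ⧸ I) := Ideal.Quotient.isDomain I
  obtain ⟨D1, hD1, hD1'⟩ := exists_qder D0 hD0 I hDI
  obtain ⟨D', hD'⟩ := exists_fder (K := FractionRing (T ⧸ I)) D1 hD1
  refine ⟨FractionRing (T ⧸ I), inferInstance,
    (algebraMap (T ⧸ I) (FractionRing (T ⧸ I))).comp (Ideal.Quotient.mk I), D', ?_⟩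
  intro x
  change D' (algebraMap _ _ (Ideal.Quotient.mk I x)) = _
  rw [hD', hD1']
  rfl

/-- two extensions of a differential field of characteristic zero are contained in a third one -/
theorem composite (hE : ∀ a, δE (algebraMap K E a) = algebraMap K E (δ a))
    (hL : ∀ a, δL (algebraMap K L a) = algebraMap K L (δ a)) :
    ∃ (F : Type) (_ : Field F) (i : E →+* F) (j : L →+* F) (δF : Derivation ℤ F F),
      (∀ a : K, i (algebraMap K E a) = j (algebraMap K L a)) ∧
      (∀ x, δF (i x) = i (δE x)) ∧ (∀ x, δF (j x) = j (δL x)) := by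
  obtain ⟨D, hDm, hD⟩ := exists_tder δ δE δL hE hL
  have hT : ∀ n : ℕ, n ≠ 0 → IsUnit (n : E ⊗[K] L) := by
    intro n hn
    have h1 : IsUnit ((n : ℕ) : K) := isUnit_iff_ne_zero.2 (by exact_mod_cast hn)
    have h2 := h1.map (algebraMap K (E ⊗[K] L))
    simpa using h2
  obtain ⟨F, hF, q, D', hq⟩ := exists_dfield hT D hDm
  refine ⟨F, hF,
    q.comp (Algebra.TensorProduct.includeLeftRingHom),
    q.comp (Algebra.TensorProduct.includeRight (R := K) (A := E) (B := L)).toRingHom, D',
    ?_, ?_, ?_⟩
  · intro a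
    change q (algebraMap K E a ⊗ₜ[K] 1) = q (1 ⊗ₜ[K] algebraMap K L a)
    congr 1
    rw [Algebra.algebraMap_eq_smul_one, Algebra.algebraMap_eq_smul_one,
      TensorProduct.smul_tmul]
  · intro x
    change D' (q (x ⊗ₜ[K] 1)) = q (δE x ⊗ₜ[K] 1)
    rw [hq, hD]
    simp
  · intro x
    change D' (q (1 ⊗ₜ[K] x)) = q (1 ⊗ₜ[K] δL x)
    rw [hq, hD]
    simp

end composite

end Pool.Agent.V8H79.BM
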