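import Pool.Agent.V8H79.BM.PB

/-!
# Constants
-/

set_option autoImplicit false

namespace Pool.Agent.V8H79.BM

section constants

variable {F : Type*} [Field F] (δ : Derivation ℤ F F)

/-- a derivation applied to the coordinates -/
def dv {n : Type*} (b : n → F) : n → F := fun i => δ (b i)

/-- a subspace stable under the derivation has a basis of constant vectors -/
theorem const_basis {n : ℕ} (U : Submodule F (Fin n → F)) (hU : ∀ b ∈ U, dv δ b ∈ U) :
    ∃ N : Fin (Module.finrank F U) → (Fin n → F), (∀ t, N t ∈ U) ∧ (∀ t i, δ (N t i) = 0) ∧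
      LinearIndependent F N := by
  classical
  let c : Fin n → Module.Dual F U := fun i => (LinearMap.proj i).comp U.subtype
  obtain ⟨κ, a, ha, hsp, hli⟩ := exists_linearIndependent' F c
  have : Fintype κ := Fintype.ofInjective a ha
  have hc : ∀ (i : Fin n) (u : U), c i u = (u : Fin n → F) i := fun _ _ => rfl
  let ρ : U →ₗ[F] (κ → F) :=
    { toFun := fun u t => (u : Fin n → F) (a t)
      map_add' := fun _ _ => rfl
      map_smul' := fun _ _ => rfl }
  have hρ : ∀ u t, ρ u t = (u : Fin n → F) (a t) := fun _ _ => rfl
  have hinj : Function.Injective ρ := by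
    rw [← LinearMap.ker_eq_bot, Submodule.eq_bot_iff]
    intro u hu
    rw [LinearMap.mem_ker] at hu
    have h1 : ∀ f ∈ Submodule.span F (Set.range (c ∘ a)), f u = 0 := by
      intro f hf
      induction hf using Submodule.span_induction with
      | mem x hx =>
        obtain ⟨t, rfl⟩ := hx
        exact congrFun hu t
      | zero => rfl
      | add x y _ _ hx hy => rw [LinearMap.add_apply, hx, hy, add_zero]
      | smul r x _ hx => rw [LinearMap.smul_apply, hx, smul_zero]
    apply Subtype.ext
    funext i
    exact h1 (c i) (by rw [hsp]; exact Submodule.subset_span ⟨i, rfl⟩)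
  have hcard : Fintype.card κ = Module.finrank F U := by
    refine le_antisymm ?_ ?_
    · have h1 := hli.fintype_card_le_finrank
      rwa [Subspace.dual_finrank_eq] at h1
    · have h1 := LinearMap.finrank_le_finrank_of_injective hinj
      rwa [Module.finrank_fintype_fun_eq_card] at h1
  have hbij : Function.Bijective ρ := by
    refine ⟨hinj, ?_⟩
    exact (LinearMap.injective_iff_surjective_of_finrank_eq_finrank
      (by rw [Module.finrank_fintype_fun_eq_card, hcard])).1 hinj
  let e : U ≃ₗ[F] (κ → F) := LinearEquiv.ofBijective ρ hbij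
  have he : ∀ u, e u = ρ u := fun _ => rfl
  let w : κ → U := fun t => e.symm (Pi.single t 1)
  have hw : ∀ t, ρ (w t) = Pi.single t 1 := by
    intro t
    rw [← he, LinearEquiv.apply_symm_apply]
  have hδ : ∀ t, dv δ (w t : Fin n → F) = 0 := by
    intro t
    have h1 : (⟨dv δ (w t : Fin n → F), hU _ (w t).2⟩ : U) = 0 := by
      apply hinj
      rw [map_zero]
      funext t'
      rw [hρ]
      change δ ((w t : Fin n → F) (a t')) = 0
      rw [← hρ, hw]
      by_cases h : t' = t
      · subst h
        simp
      · simp [h]
    exact congrArg Subtype.val h1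
  have hwli : LinearIndependent F w := by
    have h1 : w = e.symm ∘ fun t => (Pi.single t 1 : κ → F) := rfl
    rw [h1]
    have h2 : LinearIndependent F fun t => (Pi.single t 1 : κ → F) := by
      have h3 : (fun t => (Pi.single t 1 : κ → F)) = ⇑(Pi.basisFun F κ) := by
        funext t
        rw [Pi.basisFun_apply]
      rw [h3]
      exact (Pi.basisFun F κ).linearIndependent
    exact h2.map' e.symm.toLinearMap (LinearEquiv.ker _)
  let g : Fin (Module.finrank F U) ≃ κ := (Fintype.equivFinOfCardEq hcard).symm
  refine ⟨fun t => (w (g t) : Fin n → F), fun t => (w (g t)).2, fun t i => congrFun (hδ (g t)) i,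
    ?_⟩
  have h3 : LinearIndependent F (w ∘ g) := hwli.comp g g.injective
  exact h3.map' U.subtype (Submodule.ker_subtype U)

/-- a linear functional on a finite power -/
theorem exists_orth {q : ℕ} (W : Submodule F (Fin q → F)) (hW : W ≠ ⊤) :
    ∃ x : Fin q → F, x ≠ 0 ∧ ∀ v ∈ W, ∑ u, x u * v u = 0 := by
  classical
  obtain ⟨f, hf0, hf⟩ := Submodule.exists_le_ker_of_lt_top W (lt_top_iff_ne_top.2 hW)
  refine ⟨fun u => f (Pi.single u 1), ?_, ?_⟩
  · intro h
    apply hf0
    refine LinearMap.pi_ext' fun u => ?_
    ext
    have := congrFun h u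
    simpa using this
  · intro v hv
    have h1 : f v = ∑ u, v u * f (Pi.single u 1) := by
      have h0 : v = ∑ u, v u • (Pi.single u (1 : F) : Fin q → F) := by
        funext j
        rw [Finset.sum_apply, Finset.sum_eq_single j]
        · simp
        · intro u _ hu
          simp [Pi.single_apply, hu.symm]
        · simp
      conv_lhs => rw [h0]
      rw [map_sum]
      refine Finset.sum_congr rfl fun u _ => ?_
      rw [map_smul, smul_eq_mul]
    have h2 : f v = 0 := hf hv
    rw [← h2, h1]
    exact Finset.sum_congr rfl fun u _ => mul_comm _ _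

end constants

section independence

variable {E F : Type*} [Field E] [Field F] (δE : Derivation ℤ E E) (δF : Derivation ℤ F F)
  (i : E →+* F) (hi : ∀ x, δF (i x) = i (δE x))

include hi in
/-- elements independent over the constants stay so in an extension -/
theorem indep_consts {q : ℕ} (e : Fin q → E)
    (he : ∀ c : Fin q → E, (∀ u, δE (c u) = 0) → ∑ u, c u * e u = 0 → c = 0)
    (γ : Fin q → F) (hγ : ∀ u, δF (γ u) = 0) (h0 : ∑ u, γ u * i (e u) = 0) : γ = 0 := by
  classical
  -- iterated derivatives
  let R : ℕ → (Fin q → E) := fun j u => δE^[j] (e u)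
  let W := Submodule.span E (Set.range R)
  have hW : W = ⊤ := by
    by_contra hne
    -- the orthogonal space
    let U : Submodule E (Fin q → E) :=
      { carrier := {x | ∀ j, ∑ u, x u * R j u = 0}
        zero_mem' := fun j => by simp
        add_mem' := fun {x y} hx hy j => by
          simp only [Pi.add_apply, add_mul, Finset.sum_add_distrib]
          rw [hx j, hy j, add_zero]
        smul_mem' := fun c x hx j => by
          simp only [Pi.smul_apply, smul_eq_mul, mul_assoc]
          rw [← Finset.mul_sum, hx j, mul_zero] }
    have hU : ∀ b ∈ U, dv δE b ∈ U := by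
      intro b hb j
      change ∑ u, δE (b u) * R j u = 0
      have h1 := congrArg δE (hb j)
      rw [map_sum, map_zero] at h1
      have h2 : ∀ u, δE (b u * R j u) = b u * R (j + 1) u + δE (b u) * R j u := by
        intro u
        rw [Derivation.leibniz]
        simp only [smul_eq_mul, R, Function.iterate_succ_apply']
        ring
      rw [Finset.sum_congr rfl fun u _ => h2 u, Finset.sum_add_distrib, hb (j + 1), zero_add] at h1
      exact h1
    obtain ⟨x, hx0, hx⟩ := exists_orth W hne
    have hxU : x ∈ U := fun j => hx (R j) (Submodule.subset_span ⟨j, rfl⟩)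
    obtain ⟨N, hN1, hN2, hN3⟩ := const_basis δE U hU
    have hpos : 0 < Module.finrank E U := by
      rw [Nat.pos_iff_ne_zero, Ne, Submodule.finrank_eq_zero]
      intro h
      rw [h, Submodule.mem_bot] at hxU
      exact hx0 hxU
    have h3 := he (N ⟨0, hpos⟩) (hN2 _) (hN1 ⟨0, hpos⟩ 0)
    exact hN3.ne_zero ⟨0, hpos⟩ h3
  have hrel : ∀ j, ∑ u, γ u * i (R j u) = 0 := by
    intro j
    induction j with
    | zero => exact h0
    | succ j ih =>
      have h1 := congrArg δF ih
      rw [map_sum, map_zero] at h1
      rw [← h1]
      refine Finset.sum_congr rfl fun u _ => ?_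
      rw [Derivation.leibniz, hγ u, hi]
      simp only [R, Function.iterate_succ_apply', smul_eq_mul, mul_zero, add_zero]
  have hall : ∀ v ∈ W, ∑ u, γ u * i (v u) = 0 := by
    intro v hv
    induction hv using Submodule.span_induction with
    | mem x hx =>
      obtain ⟨j, rfl⟩ := hx
      exact hrel j
    | zero => simp
    | add x y _ _ hx hy =>
      simp only [Pi.add_apply, map_add, mul_add, Finset.sum_add_distrib]
      rw [hx, hy, add_zero]
    | smul c x _ hx =>
      have : ∑ u, γ u * i ((c • x) u) = i c * ∑ u, γ u * i (x u) := by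
        rw [Finset.mul_sum]
        refine Finset.sum_congr rfl fun u _ => ?_
        rw [Pi.smul_apply, smul_eq_mul, map_mul]
        ring
      rw [this, hx, mul_zero]
  funext u
  have h1 := hall (Pi.single u 1) (by rw [hW]; trivial)
  rw [Finset.sum_eq_single u] at h1
  · simpa using h1
  · intro v _ hv
    simp [hv]
  · simp

end independence

end Pool.Agent.V8H79.BM
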