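import Pool.Agent.V8H79.BM.PC

/-!
# Moving a subspace by transvections
-/

set_option autoImplicit false

open Matrix

namespace Pool.Agent.V8H79.BM

section moving

variable {C F : Type*} [Field C] [CharZero C] [Field F] [CharZero F] [Algebra C F] {n : ℕ}

omit [CharZero F] in
theorem exists_single_notMem (W : Submodule F (Fin n → F)) (hW : W ≠ ⊤) :
    ∃ i, (Pi.single i 1 : Fin n → F) ∉ W := by
  by_contra h
  push Not at h
  apply hW
  rw [eq_top_iff]
  intro v _
  have h0 : v = ∑ u, v u • (Pi.single u (1 : F) : Fin n → F) := by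
    funext j
    rw [Finset.sum_apply, Finset.sum_eq_single j]
    · simp
    · intro u _ hu
      simp [hu.symm]
    · simp
  rw [h0]
  exact Submodule.sum_mem _ fun u _ => Submodule.smul_mem _ _ (h u)

/-- an integral vector outside of two proper subspaces -/
theorem int_avoid (W1 W2 : Submodule F (Fin n → F)) (h1 : W1 ≠ ⊤) (h2 : W2 ≠ ⊤) :
    ∃ v : Fin n → ℕ, (fun i => (v i : F)) ∉ W1 ∧ (fun i => (v i : F)) ∉ W2 := by
  classical
  obtain ⟨i, hi⟩ := exists_single_notMem W1 h1
  obtain ⟨j, hj⟩ := exists_single_notMem W2 h2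
  have hv : ∀ t : ℕ, (fun l => (((Pi.single i 1 : Fin n → ℕ) l + t * (Pi.single j 1 : Fin n → ℕ) l :
      ℕ) : F)) = (Pi.single i 1 : Fin n → F) + (t : F) • (Pi.single j 1 : Fin n → F) := by
    intro t
    funext l
    rw [Pi.add_apply, Pi.smul_apply, Pi.single_apply, Pi.single_apply, Pi.single_apply,
      Pi.single_apply]
    split_ifs <;> simp
  by_cases hi2 : (Pi.single i 1 : Fin n → F) ∈ W2
  · have hW2 : ∀ t : ℕ, t ≠ 0 →
        (Pi.single i 1 : Fin n → F) + (t : F) • (Pi.single j 1 : Fin n → F) ∉ W2 := by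
      intro t ht h
      have h3 := (Submodule.add_mem_iff_right W2 hi2).1 h
      have ht' : (t : F) ≠ 0 := by exact_mod_cast ht
      exact hj ((Submodule.smul_mem_iff W2 ht').1 h3)
    by_cases h3 : (Pi.single i 1 : Fin n → F) + ((1 : ℕ) : F) • (Pi.single j 1 : Fin n → F) ∈ W1
    · refine ⟨fun l => (Pi.single i 1 : Fin n → ℕ) l + 2 * (Pi.single j 1 : Fin n → ℕ) l, ?_, ?_⟩
      · rw [hv 2]
        intro h4
        have h5 := W1.sub_mem h4 h3
        have h6 : (Pi.single i 1 : Fin n → F) + ((2 : ℕ) : F) • (Pi.single j 1 : Fin n → F) -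
            ((Pi.single i 1 : Fin n → F) + ((1 : ℕ) : F) • (Pi.single j 1 : Fin n → F)) =
            (Pi.single j 1 : Fin n → F) := by
          push_cast
          module
        rw [h6] at h5
        have h7 := W1.sub_mem h3 (W1.smul_mem ((1 : ℕ) : F) h5)
        rw [add_sub_cancel_right] at h7
        exact hi h7
      · rw [hv 2]
        exact hW2 2 (by norm_num)
    · refine ⟨fun l => (Pi.single i 1 : Fin n → ℕ) l + 1 * (Pi.single j 1 : Fin n → ℕ) l, ?_, ?_⟩
      · rw [hv 1]
        exact h3
      · rw [hv 1]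
        exact hW2 1 (by norm_num)
  · refine ⟨fun l => (Pi.single i 1 : Fin n → ℕ) l + 0 * (Pi.single j 1 : Fin n → ℕ) l, ?_, ?_⟩
    · rw [hv 0]
      simpa using hi
    · rw [hv 0]
      simpa using hi2

/-- a set of matrices with many transvections -/
def Trans (F : Type*) [Field F] [Algebra C F] (G : Set (Matrix (Fin n) (Fin n) C)) : Prop :=
  (1 : Matrix (Fin n) (Fin n) C) ∈ G ∧ (∀ g ∈ G, ∀ h ∈ G, g * h ∈ G) ∧ (∀ g ∈ G, g.det ≠ 0) ∧
    ∀ W : Submodule F (Fin n → F), W ≠ ⊤ → ∀ x ∈ W, x ≠ 0 →
      ∃ h ∈ G, ∃ φ : (Fin n → F) →ₗ[F] F, ∃ v ∉ W,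
        (∀ y, Matrix.vecMul y (h.map (algebraMap C F)) = y + φ y • v) ∧ φ x ≠ 0

omit [CharZero C] in
theorem vecMul_transv (w v : Fin n → C) (y : Fin n → F) :
    Matrix.vecMul y ((1 + vecMulVec w v : Matrix (Fin n) (Fin n) C).map (algebraMap C F)) =
      y + (y ⬝ᵥ (fun i => algebraMap C F (w i))) • (fun i => algebraMap C F (v i)) := by
  rw [Matrix.map_add _ (map_add _), Matrix.vecMul_add, Matrix.map_one _ (map_zero _) (map_one _),
    Matrix.vecMul_one]
  congr 1
  funext j
  simp only [vecMul, dotProduct, Matrix.map_apply, vecMulVec_apply, map_mul, Pi.smul_apply,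
    smul_eq_mul, Finset.sum_mul]
  exact Finset.sum_congr rfl fun a _ => by ring

/-- the symplectic group -/
theorem trans_sp (J : Matrix (Fin n) (Fin n) C) (hJ : Jᵀ = -J) (hdet : J.det ≠ 0) :
    Trans F {h : Matrix (Fin n) (Fin n) C | h * J * hᵀ = J} := by
  classical
  refine ⟨?_, ?_, ?_, ?_⟩
  · change 1 * J * 1ᵀ = J
    simp
  · intro g hg h hh
    change g * J * gᵀ = J at hg
    change h * J * hᵀ = J at hh
    change g * h * J * (g * h)ᵀ = J
    rw [transpose_mul]
    calc g * h * J * (hᵀ * gᵀ) = g * (h * J * hᵀ) * gᵀ := by simp only [Matrix.mul_assoc]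
      _ = J := by rw [hh, hg]
  · intro g hg h0
    change g * J * gᵀ = J at hg
    have := congrArg Matrix.det hg
    rw [det_mul, det_mul, h0, zero_mul, zero_mul] at this
    exact hdet this.symm
  · intro W hW x _ hx0
    let JF := J.map (algebraMap C F)
    have hJF : JF.det ≠ 0 := by
      have : JF.det = algebraMap C F J.det := by
        rw [RingHom.map_det]
        rfl
      rw [this]
      exact (map_ne_zero _).2 hdet
    let W2 : Submodule F (Fin n → F) :=
      { carrier := {y | x ⬝ᵥ (JF *ᵥ y) = 0}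
        zero_mem' := by simp
        add_mem' := by
          intro a b ha hb
          change x ⬝ᵥ (JF *ᵥ (a + b)) = 0
          rw [mulVec_add, dotProduct_add, ha, hb, add_zero]
        smul_mem' := by
          intro c a ha
          change x ⬝ᵥ (JF *ᵥ (c • a)) = 0
          rw [mulVec_smul, dotProduct_smul, ha, smul_zero] }
    have hW2 : W2 ≠ ⊤ := by
      intro h
      apply hx0
      have h1 : ∀ y, x ⬝ᵥ (JF *ᵥ y) = 0 := fun y => by
        have : y ∈ W2 := by rw [h]; trivial
        exact this
      have h2 : ∀ y, x ⬝ᵥ y = 0 := by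
        intro y
        have := h1 (JF⁻¹ *ᵥ y)
        rwa [mulVec_mulVec, mul_nonsing_inv _ (isUnit_iff_ne_zero.2 hJF), one_mulVec] at this
      funext i
      have := h2 (Pi.single i 1)
      simpa using this
    obtain ⟨v, hv1, hv2⟩ := int_avoid W W2 hW hW2
    let vC : Fin n → C := fun i => (v i : C)
    let w : Fin n → C := J *ᵥ vC
    have hvF : (fun i => algebraMap C F (vC i)) = fun i => (v i : F) := by
      funext i
      simp [vC]
    have hwF : (fun i => algebraMap C F (w i)) = JF *ᵥ fun i => (v i : F) := by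
      funext i
      rw [← hvF]
      simp [w, mulVec, dotProduct, JF, map_sum, map_mul]
    have hvJ : vC ᵥ* J = -w := by
      have : vC ᵥ* J = Jᵀ *ᵥ vC := by rw [mulVec_transpose]
      rw [this, hJ, neg_mulVec]
    have hvw : w ⬝ᵥ vC = 0 := by
      have h1 : w ⬝ᵥ vC = vC ⬝ᵥ (J *ᵥ vC) := dotProduct_comm _ _
      have h2 : vC ⬝ᵥ (J *ᵥ vC) = (vC ᵥ* J) ⬝ᵥ vC := dotProduct_mulVec _ _ _
      have h3 : w ⬝ᵥ vC = -(w ⬝ᵥ vC) := by
        conv_lhs => rw [h1, h2, hvJ, neg_dotProduct]
      have h4 : (2 : C) * (w ⬝ᵥ vC) = 0 := by linear_combination h3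
      rcases mul_eq_zero.1 h4 with h5 | h5
      · exact absurd h5 two_ne_zero
      · exact h5
    refine ⟨1 + vecMulVec w vC, ?_, ?_⟩
    · change (1 + vecMulVec w vC) * J * (1 + vecMulVec w vC)ᵀ = J
      rw [transpose_add, transpose_one, transpose_vecMulVec, add_mul, one_mul, vecMulVec_mul, hvJ,
        mul_add, mul_one, add_mul, mul_vecMulVec, vecMulVec_mul_vecMulVec]
      change J + vecMulVec w (-w) + (vecMulVec w w + vecMulVec w ((-w ⬝ᵥ vC) • w)) = J
      rw [neg_dotProduct, hvw, neg_zero, zero_smul, vecMulVec_zero, add_zero, vecMulVec_neg]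
      abel
    · let φ : (Fin n → F) →ₗ[F] F :=
        { toFun := fun y => y ⬝ᵥ (fun i => algebraMap C F (w i))
          map_add' := fun a b => add_dotProduct _ _ _
          map_smul' := fun c a => smul_dotProduct _ _ _ }
      refine ⟨φ, fun i => algebraMap C F (vC i), ?_, fun y => vecMul_transv w vC y, ?_⟩
      · rw [hvF]
        exact hv1
      · change x ⬝ᵥ (fun i => algebraMap C F (w i)) ≠ 0
        rw [hwF]
        exact hv2

/-- the special linear group -/
theorem trans_sl : Trans F {h : Matrix (Fin n) (Fin n) C | h.det = 1} := by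
  classical
  refine ⟨?_, ?_, ?_, ?_⟩
  · change det 1 = 1
    simp
  · intro g hg h hh
    change g.det = 1 at hg
    change h.det = 1 at hh
    change (g * h).det = 1
    rw [det_mul, hg, hh, one_mul]
  · intro g hg
    change g.det = 1 at hg
    rw [hg]
    exact one_ne_zero
  · intro W hW x hxW hx0
    obtain ⟨v, hv1, -⟩ := int_avoid W W hW hW
    have hne : ∃ a b, (v b : F) * x a - (v a : F) * x b ≠ 0 := by
      by_contra hcon
      push Not at hcon
      have hv0 : ∃ b, (v b : F) ≠ 0 := by
        by_contra h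
        push Not at h
        apply hv1
        rw [show (fun i => (v i : F)) = 0 from funext h]
        exact W.zero_mem
      obtain ⟨b, hb⟩ := hv0
      have hx : x = (x b / v b) • fun i => (v i : F) := by
        funext a
        rw [Pi.smul_apply, smul_eq_mul, div_mul_eq_mul_div, eq_div_iff hb]
        linear_combination hcon a b
      have hc : x b / v b ≠ 0 := by
        intro h
        apply hx0
        rw [hx, h, zero_smul]
      apply hv1
      rw [← Submodule.smul_mem_iff W hc, ← hx]
      exact hxW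
    obtain ⟨a, b, hab⟩ := hne
    have hab' : a ≠ b := by
      rintro rfl
      simp at hab
    let vC : Fin n → C := fun i => (v i : C)
    let w : Fin n → C := Pi.single a (vC b) - Pi.single b (vC a)
    have hvF : (fun i => algebraMap C F (vC i)) = fun i => (v i : F) := by
      funext i
      simp [vC]
    have hwv : vC ⬝ᵥ w = 0 := by
      simp only [w, dotProduct_sub, dotProduct_single]
      ring
    have hwF : (fun i => algebraMap C F (w i)) = Pi.single a (v b : F) - Pi.single b (v a : F) := by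
      funext i
      simp only [w, Pi.sub_apply, Pi.single_apply, map_sub]
      split_ifs <;> simp [vC]
    refine ⟨1 + vecMulVec w vC, ?_, ?_⟩
    · change det (1 + vecMulVec w vC) = 1
      have h1 := det_one_add_replicateCol_mul_replicateRow (ι := Unit) w vC
      rw [hwv, add_zero] at h1
      rw [vecMulVec_eq Unit]
      exact h1
    · let φ : (Fin n → F) →ₗ[F] F :=
        { toFun := fun y => y ⬝ᵥ (fun i => algebraMap C F (w i))
          map_add' := fun a b => add_dotProduct _ _ _
          map_smul' := fun c a => smul_dotProduct _ _ _ }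
      refine ⟨φ, fun i => algebraMap C F (vC i), ?_, fun y => vecMul_transv w vC y, ?_⟩
      · rw [hvF]
        exact hv1
      · change x ⬝ᵥ (fun i => algebraMap C F (w i)) ≠ 0
        rw [hwF, dotProduct_sub, dotProduct_single, dotProduct_single]
        intro h
        apply hab
        linear_combination h

omit [CharZero C] [CharZero F] in
theorem moving (G : Set (Matrix (Fin n) (Fin n) C)) (hG : Trans F G)
    (U2 : Submodule F (Fin n → F)) (d : ℕ) :
    ∀ U1 : Submodule F (Fin n → F), Module.finrank F (U1 ⊓ U2 : Submodule F (Fin n → F)) = d →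
      Module.finrank F U1 + Module.finrank F U2 ≤ n →
      ∃ h ∈ G, ∀ y ∈ U1, Matrix.vecMul y (h.map (algebraMap C F)) ∈ U2 → y = 0 := by
  induction d using Nat.strong_induction_on with
  | _ d ih =>
    intro U1 hd hsum
    obtain ⟨h1, hmul, hdet, htr⟩ := hG
    by_cases hbot : U1 ⊓ U2 = ⊥
    · refine ⟨1, h1, fun y hy hy2 => ?_⟩
      rw [Matrix.map_one _ (map_zero _) (map_one _), Matrix.vecMul_one] at hy2
      have : y ∈ U1 ⊓ U2 := ⟨hy, hy2⟩
      rw [hbot] at this
      exact (Submodule.mem_bot F).1 this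
    obtain ⟨x, hx, hx0⟩ := Submodule.exists_mem_ne_zero_of_ne_bot hbot
    have hdpos : 0 < Module.finrank F (U1 ⊓ U2 : Submodule F (Fin n → F)) := by
      rw [Nat.pos_iff_ne_zero, Ne, Submodule.finrank_eq_zero]
      exact hbot
    have hW : U1 ⊔ U2 ≠ ⊤ := by
      intro h
      have h2 := Submodule.finrank_sup_add_finrank_inf_eq U1 U2
      rw [h, finrank_top, Module.finrank_fin_fun] at h2
      omega
    obtain ⟨g, hg, φ, v, hv, hgy, hφx⟩ := htr (U1 ⊔ U2) hW x
      ((inf_le_left.trans le_sup_left : U1 ⊓ U2 ≤ U1 ⊔ U2) hx) hx0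
    let T : (Fin n → F) →ₗ[F] (Fin n → F) := Matrix.vecMulLinear (g.map (algebraMap C F))
    have hT : ∀ y, T y = y + φ y • v := hgy
    let U1' := U1.map T
    have hle : U1' ⊓ U2 ≤ (U1 ⊓ U2) ⊓ LinearMap.ker φ := by
      rintro z ⟨⟨y, hy, rfl⟩, hz⟩
      rw [hT] at hz ⊢
      have h3 : φ y = 0 := by
        by_contra hne
        apply hv
        have h4 : φ y • v ∈ U1 ⊔ U2 := by
          have h5 : φ y • v = (y + φ y • v) - y := by abel
          rw [h5]
          exact (U1 ⊔ U2).sub_mem (Submodule.mem_sup_right hz) (Submodule.mem_sup_left hy)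
        exact (Submodule.smul_mem_iff _ hne).1 h4
      rw [h3, zero_smul, add_zero] at hz ⊢
      exact ⟨⟨hy, hz⟩, h3⟩
    have hlt : (U1 ⊓ U2) ⊓ LinearMap.ker φ < U1 ⊓ U2 := by
      refine lt_of_le_of_ne inf_le_left fun h => ?_
      have : x ∈ (U1 ⊓ U2) ⊓ LinearMap.ker φ := by rw [h]; exact hx
      exact hφx this.2
    have hfin : Module.finrank F (U1' ⊓ U2 : Submodule F (Fin n → F)) < d := by
      rw [← hd]
      exact lt_of_le_of_lt (Submodule.finrank_mono hle) (Submodule.finrank_lt_finrank_of_lt hlt)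
    have hfin2 : Module.finrank F U1' ≤ Module.finrank F U1 := Submodule.finrank_map_le T U1
    obtain ⟨h, hh, hhy⟩ := ih _ hfin U1' rfl (by omega)
    refine ⟨g * h, hmul g hg h hh, fun y hy hy2 => ?_⟩
    have h5 : Matrix.vecMul y ((g * h).map (algebraMap C F)) =
        Matrix.vecMul (T y) (h.map (algebraMap C F)) := by
      rw [Matrix.map_mul, ← Matrix.vecMul_vecMul]
      rfl
    rw [h5] at hy2
    have h6 := hhy (T y) ⟨y, hy, rfl⟩ hy2
    have h7 : IsUnit (g.map (algebraMap C F)).det := by
      have : (g.map (algebraMap C F)).det = algebraMap C F g.det := by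
        rw [RingHom.map_det]
        rfl
      rw [this]
      exact isUnit_iff_ne_zero.2 ((map_ne_zero _).2 (hdet g hg))
    have h8 : Matrix.vecMul y (g.map (algebraMap C F)) = 0 := h6
    have h9 := congrArg (fun z => Matrix.vecMul z (g.map (algebraMap C F))⁻¹) h8
    simpa [Matrix.vecMul_vecMul, Matrix.mul_nonsing_inv _ h7] using h9

end moving

end Pool.Agent.V8H79.BM
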