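import Pool.Agent.V8H79.BM.PD

/-!
# A big differential Galois group implies general position
-/

set_option autoImplicit false

namespace Pool.Agent.V8H79.BM

section coefw

variable {C A ι : Type*} [Field C] [CommRing A] [Algebra C A]

/-- a linear functional applied to the coefficients -/
noncomputable def coefw (lam : A →ₗ[C] C) (P : MvPolynomial ι A) : MvPolynomial ι C :=
  ∑ m ∈ P.support, MvPolynomial.monomial m (lam (P.coeff m))

theorem eval_coefw (lam : A →ₗ[C] C) (P : MvPolynomial ι A) (h : ι → C) :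
    MvPolynomial.eval h (coefw lam P) =
      lam (MvPolynomial.eval (fun i => algebraMap C A (h i)) P) := by
  unfold coefw
  rw [map_sum, MvPolynomial.eval_eq, map_sum]
  refine Finset.sum_congr rfl fun m _ => ?_
  rw [MvPolynomial.eval_monomial]
  have h1 : ∏ i ∈ m.support, (algebraMap C A (h i)) ^ m i =
      algebraMap C A (m.prod fun i k => h i ^ k) := by
    rw [Finsupp.prod, map_prod]
    exact Finset.prod_congr rfl fun i _ => (map_pow _ _ _).symm
  rw [h1, mul_comm (MvPolynomial.coeff m P), ← Algebra.smul_def, map_smul, smul_eq_mul, mul_comm]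

theorem aeval_coefw {E : Type*} [CommRing E] [Algebra C E] (lam : A →ₗ[C] C)
    (P : MvPolynomial ι A) (z : ι → E) :
    MvPolynomial.aeval z (coefw lam P) =
      ∑ m ∈ P.support, lam (P.coeff m) • m.prod fun i k => z i ^ k := by
  unfold coefw
  rw [map_sum]
  refine Finset.sum_congr rfl fun m _ => ?_
  rw [MvPolynomial.aeval_monomial, Algebra.smul_def]

end coefw

section disjoint

variable {C E CF F : Type*} [Field C] [Field E] [Field CF] [Field F] [Algebra C E] [Algebra C CF]
  (i : E →+* F) (j : CF →+* F) (hij : ∀ c : C, i (algebraMap C E c) = j (algebraMap C CF c))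
  (hLI : ∀ (q : ℕ) (e : Fin q → E), LinearIndependent C e → ∀ γ : Fin q → CF,
    ∑ u, j (γ u) * i (e u) = 0 → γ = 0)

include hij hLI in
theorem ld_sum {κ : Type*} (S : Finset κ) (γ : κ → CF) (e : κ → E)
    (h : ∑ m ∈ S, j (γ m) * i (e m) = 0) (lam : CF →ₗ[C] C) :
    ∑ m ∈ S, lam (γ m) • e m = 0 := by
  classical
  let V : Submodule C E := Submodule.span C (e '' S)
  have hfin : Module.Finite C V := FiniteDimensional.span_of_finite C (S.finite_toSet.image e)
  let b := Module.finBasis C V
  have hmem : ∀ m ∈ S, e m ∈ V := fun m hm => Submodule.subset_span ⟨m, hm, rfl⟩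
  let c : κ → Fin (Module.finrank C V) → C := fun m u =>
    if hm : m ∈ S then b.repr ⟨e m, hmem m hm⟩ u else 0
  have hc : ∀ m ∈ S, e m = ∑ u, c m u • (b u : E) := by
    intro m hm
    have h1 := congrArg (Subtype.val) (b.sum_repr ⟨e m, hmem m hm⟩)
    rw [Submodule.coe_sum] at h1
    rw [← show ((⟨e m, hmem m hm⟩ : V) : E) = e m from rfl, ← h1]
    refine Finset.sum_congr rfl fun u _ => ?_
    simp only [c, dif_pos hm, Submodule.coe_smul]
  have h2 : ∑ u, j (∑ m ∈ S, γ m * algebraMap C CF (c m u)) * i (b u : E) = 0 := by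
    rw [← h]
    have h3 : ∀ m ∈ S, j (γ m) * i (e m) =
        ∑ u, j (γ m * algebraMap C CF (c m u)) * i (b u : E) := by
      intro m hm
      conv_lhs => rw [hc m hm]
      rw [map_sum, Finset.mul_sum]
      refine Finset.sum_congr rfl fun u _ => ?_
      rw [Algebra.smul_def, map_mul, hij, map_mul, mul_assoc]
    rw [Finset.sum_congr rfl h3, Finset.sum_comm]
    refine Finset.sum_congr rfl fun u _ => ?_
    rw [map_sum, Finset.sum_mul]
  have h3 := hLI _ (fun u => (b u : E)) (b.linearIndependent.map' V.subtype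
    (Submodule.ker_subtype V)) _ h2
  have h4 : ∀ u, ∑ m ∈ S, lam (γ m) * c m u = 0 := by
    intro u
    have h5 := congrArg lam (congrFun h3 u)
    rw [Pi.zero_apply, map_zero, map_sum] at h5
    rw [← h5]
    refine Finset.sum_congr rfl fun m _ => ?_
    rw [mul_comm (γ m), ← Algebra.smul_def, map_smul, smul_eq_mul, mul_comm]
  have h5 : ∀ m ∈ S, lam (γ m) • e m = ∑ u, (lam (γ m) * c m u) • (b u : E) := by
    intro m hm
    conv_lhs => rw [hc m hm]
    rw [Finset.smul_sum]
    exact Finset.sum_congr rfl fun u _ => (mul_smul _ _ _).symm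
  rw [Finset.sum_congr rfl h5, Finset.sum_comm]
  refine Finset.sum_eq_zero fun u _ => ?_
  rw [← Finset.sum_smul, h4, zero_smul]

include hij in
theorem ld_conv {κ : Type*} (S : Finset κ) (γ : κ → CF) (e : κ → E)
    (h : ∀ lam : CF →ₗ[C] C, ∑ m ∈ S, lam (γ m) • e m = 0) :
    ∑ m ∈ S, j (γ m) * i (e m) = 0 := by
  classical
  let V : Submodule C CF := Submodule.span C (γ '' S)
  have hfin : Module.Finite C V := FiniteDimensional.span_of_finite C (S.finite_toSet.image γ)
  let b := Module.finBasis C V
  have hmem : ∀ m ∈ S, γ m ∈ V := fun m hm => Submodule.subset_span ⟨m, hm, rfl⟩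
  have hext : ∀ u, ∃ g : CF →ₗ[C] C, g.comp V.subtype = b.coord u := fun u =>
    LinearMap.exists_extend (b.coord u)
  choose g hg using hext
  have hγ : ∀ m ∈ S, γ m = ∑ u, g u (γ m) • (b u : CF) := by
    intro m hm
    have h1 := congrArg (Subtype.val) (b.sum_repr ⟨γ m, hmem m hm⟩)
    rw [Submodule.coe_sum] at h1
    conv_lhs => rw [← show ((⟨γ m, hmem m hm⟩ : V) : CF) = γ m from rfl, ← h1]
    refine Finset.sum_congr rfl fun u _ => ?_
    rw [Submodule.coe_smul]
    congr 1
    have h2 := LinearMap.congr_fun (hg u) ⟨γ m, hmem m hm⟩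
    exact h2.symm
  have h3 : ∀ m ∈ S, j (γ m) * i (e m) = ∑ u, j (b u : CF) * i (g u (γ m) • e m) := by
    intro m hm
    conv_lhs => rw [hγ m hm]
    rw [map_sum, Finset.sum_mul]
    refine Finset.sum_congr rfl fun u _ => ?_
    rw [Algebra.smul_def, map_mul, ← hij, Algebra.smul_def, map_mul]
    ring
  rw [Finset.sum_congr rfl h3, Finset.sum_comm]
  refine Finset.sum_eq_zero fun u _ => ?_
  rw [← Finset.mul_sum, ← map_sum, h (g u), map_zero, mul_zero]

theorem eval₂_eq_sum {ι : Type*} (P : MvPolynomial ι CF) (z : ι → E) :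
    MvPolynomial.eval₂ j (fun t => i (z t)) P =
      ∑ m ∈ P.support, j (P.coeff m) * i (m.prod fun t k => z t ^ k) := by
  rw [MvPolynomial.eval₂_eq]
  refine Finset.sum_congr rfl fun m _ => ?_
  rw [Finsupp.prod, map_prod]
  congr 1
  exact Finset.prod_congr rfl fun t _ => (map_pow _ _ _).symm

include hij hLI in
theorem ld_poly {ι : Type*} (P : MvPolynomial ι CF) (z : ι → E)
    (h : MvPolynomial.eval₂ j (fun t => i (z t)) P = 0) (lam : CF →ₗ[C] C) :
    MvPolynomial.aeval z (coefw lam P) = 0 := by
  rw [aeval_coefw]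
  rw [eval₂_eq_sum] at h
  exact ld_sum i j hij hLI _ _ _ h lam

include hij in
theorem ld_poly_conv {ι : Type*} (P : MvPolynomial ι CF) (z : ι → E)
    (h : ∀ lam : CF →ₗ[C] C, MvPolynomial.aeval z (coefw lam P) = 0) :
    MvPolynomial.eval₂ j (fun t => i (z t)) P = 0 := by
  rw [eval₂_eq_sum]
  refine ld_conv i j hij _ _ _ fun lam => ?_
  rw [← aeval_coefw]
  exact h lam

end disjoint

section enlarge

variable {F : Type*} [Field F] (δ : Derivation ℤ F F)

theorem enlarge {n : ℕ} (d : ℕ) (hd : d ≤ n) :
    ∀ (t : ℕ) (U : Submodule F (Fin n → F)), (∀ b ∈ U, dv δ b ∈ U) →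
      Module.finrank F U + t = d →
      ∃ U' : Submodule F (Fin n → F), U ≤ U' ∧ (∀ b ∈ U', dv δ b ∈ U') ∧
        Module.finrank F U' = d := by
  classical
  intro t
  induction t with
  | zero =>
    intro U hU h
    exact ⟨U, le_rfl, hU, by simpa using h⟩
  | succ t ih =>
    intro U hU h
    have hne : U ≠ ⊤ := by
      intro h1
      rw [h1, finrank_top, Module.finrank_fin_fun] at h
      omega
    obtain ⟨i, hi⟩ := exists_single_notMem U hne
    set e : Fin n → F := Pi.single i 1 with he
    have hde : dv δ e = 0 := by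
      funext l
      change δ (e l) = 0
      rw [he, Pi.single_apply]
      split_ifs <;> simp
    have hst : ∀ b ∈ U ⊔ Submodule.span F {e}, dv δ b ∈ U ⊔ Submodule.span F {e} := by
      intro b hb
      obtain ⟨u, hu, w, hw, rfl⟩ := Submodule.mem_sup.1 hb
      obtain ⟨c, rfl⟩ := Submodule.mem_span_singleton.1 hw
      have h1 : dv δ (u + c • e) = dv δ u + (δ c • e + c • dv δ e) := by
        funext l
        simp only [dv, Pi.add_apply, Pi.smul_apply, smul_eq_mul, map_add, Derivation.leibniz]
        ring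
      rw [h1, hde, smul_zero, add_zero]
      exact Submodule.add_mem_sup (hU u hu) (Submodule.smul_mem _ _
        (Submodule.mem_span_singleton_self e))
    have hdim : Module.finrank F (U ⊔ Submodule.span F {e} : Submodule F (Fin n → F)) =
        Module.finrank F U + 1 := by
      have h1 := Submodule.finrank_sup_add_finrank_inf_eq U (Submodule.span F {e})
      have h2 : U ⊓ Submodule.span F {e} = ⊥ := by
        rw [Submodule.eq_bot_iff]
        rintro x ⟨hx1, hx2⟩
        obtain ⟨c, rfl⟩ := Submodule.mem_span_singleton.1 hx2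
        by_contra hne
        have hc : c ≠ 0 := by
          rintro rfl
          simp at hne
        exact hi ((Submodule.smul_mem_iff U hc).1 hx1)
      have he0 : e ≠ 0 := by
        intro h
        apply hi
        rw [h]
        exact U.zero_mem
      rw [h2, finrank_bot, finrank_span_singleton he0] at h1
      omega
    obtain ⟨U', h1, h2, h3⟩ := ih _ hst (by omega)
    exact ⟨U', le_sup_left.trans h1, h2, h3⟩

end enlarge

end Pool.Agent.V8H79.BM
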