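import Pool.Agent.V8H79.BM.PE

/-!
# A big differential Galois group implies general position
-/

set_option autoImplicit false

open Matrix

namespace Pool.Agent.V8H79.BM

section semilinear

variable {K F : Type*} [Field K] [Field F] (δ : Derivation ℤ F F) {n : ℕ}

theorem nab_add (M : Matrix (Fin n) (Fin n) F) (a b : Fin n → F) :
    nab δ M (a + b) = nab δ M a + nab δ M b := by
  funext j
  simp only [nab, Pi.add_apply, map_add, add_mul, Finset.sum_add_distrib]
  ring

theorem nab_smul (M : Matrix (Fin n) (Fin n) F) (c : F) (a : Fin n → F) :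
    nab δ M (c • a) = δ c • a + c • nab δ M a := by
  funext j
  simp only [nab, Pi.smul_apply, Pi.add_apply, smul_eq_mul, Derivation.leibniz, mul_assoc,
    ← Finset.mul_sum]
  ring

/-- base change of a flat subspace -/
theorem base_change (δK : Derivation ℤ K K) (j : K →+* F) (hj : ∀ x, δ (j x) = j (δK x))
    (M : Matrix (Fin n) (Fin n) K) (L : Submodule K (Fin n → K))
    (hL : ∀ a ∈ L, nab δK M a ∈ L) :
    ∃ L' : Submodule F (Fin n → F), Module.finrank F L' ≤ Module.finrank K L ∧
      (∀ a ∈ L', nab δ (M.map j) a ∈ L') ∧ ∀ a ∈ L, (fun i => j (a i)) ∈ L' := by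
  classical
  let b := Module.finBasis K L
  let f : Fin (Module.finrank K L) → (Fin n → F) := fun t i => j ((b t : Fin n → K) i)
  have hmem : ∀ a ∈ L, (fun i => j (a i)) ∈ Submodule.span F (Set.range f) := by
    intro a ha
    have h1 := congrArg Subtype.val (b.sum_repr ⟨a, ha⟩)
    rw [Submodule.coe_sum] at h1
    have h2 : (fun i => j (a i)) = ∑ t, j (b.repr ⟨a, ha⟩ t) • f t := by
      funext i
      have h3 := congrFun h1 i
      simp only [Finset.sum_apply, Submodule.coe_smul, Pi.smul_apply, smul_eq_mul] at h3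
      rw [Finset.sum_apply, ← h3, map_sum]
      refine Finset.sum_congr rfl fun t _ => ?_
      rw [map_mul, Pi.smul_apply, smul_eq_mul]
    rw [h2]
    exact Submodule.sum_mem _ fun t _ => Submodule.smul_mem _ _ (Submodule.subset_span ⟨t, rfl⟩)
  refine ⟨Submodule.span F (Set.range f), ?_, ?_, hmem⟩
  · refine (finrank_range_le_card f).trans ?_
    simp
  · intro a ha
    induction ha using Submodule.span_induction with
    | mem x hx =>
      obtain ⟨t, rfl⟩ := hx
      have h1 : nab δ (M.map j) (f t) = fun i => j (nab δK M (b t : Fin n → K) i) := by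
        funext l
        simp only [nab, f, hj, map_add, map_sum, map_mul, Matrix.map_apply]
      rw [h1]
      exact hmem _ (hL _ (b t).2)
    | zero =>
      have : nab δ (M.map j) (0 : Fin n → F) = 0 := by
        funext l
        simp [nab]
      rw [this]
      exact Submodule.zero_mem _
    | add x y _ _ hx hy =>
      rw [nab_add]
      exact Submodule.add_mem _ hx hy
    | smul c x hx0 hx =>
      rw [nab_smul]
      exact Submodule.add_mem _ (Submodule.smul_mem _ _ hx0) (Submodule.smul_mem _ _ hx)

end semilinear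

/-- `det (N Z)` as a polynomial in the entries of `Z` -/
noncomputable def detPoly {A : Type*} [CommRing A] {n d : ℕ} (N : Matrix (Fin d) (Fin n) A) :
    MvPolynomial (Fin n × Fin d) A :=
  Matrix.det (Matrix.of fun (t u : Fin d) => ∑ l, MvPolynomial.C (N t l) * MvPolynomial.X (l, u))

theorem eval_detPoly {A B : Type*} [CommRing A] [CommRing B] {n d : ℕ}
    (N : Matrix (Fin d) (Fin n) A) (j : A →+* B) (z : Fin n × Fin d → B) :
    MvPolynomial.eval₂ j z (detPoly N) =
      Matrix.det (Matrix.of fun (t u : Fin d) => ∑ l, j (N t l) * z (l, u)) := by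
  have h1 : MvPolynomial.eval₂ j z (detPoly N) = MvPolynomial.eval₂Hom j z (detPoly N) := rfl
  rw [h1, detPoly, RingHom.map_det]
  congr 1
  ext t u
  simp

/-- subspaces of complementary dimensions can be moved to general position -/
def Mov {C : Type} [Field C] {n : ℕ} (F : Type) [Field F] [Algebra C F]
    (G : Set (Matrix (Fin n) (Fin n) C)) (r : ℕ) : Prop :=
  ∀ U1 U2 : Submodule F (Fin n → F), Module.finrank F U1 = n - r → Module.finrank F U2 ≤ r →
    ∃ h ∈ G, ∀ y ∈ U1, Matrix.vecMul y (h.map (algebraMap C F)) ∈ U2 → y = 0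

theorem mov_of_trans {C : Type} [Field C] {n : ℕ} {F : Type} [Field F] [Algebra C F]
    {G : Set (Matrix (Fin n) (Fin n) C)} {r : ℕ} (hr : r ≤ n) (hG : Trans F G) : Mov F G r :=
  fun U1 U2 h1 h2 => moving G hG U2 _ U1 rfl (by omega)

theorem gp_of_mov {k : Type} [Field k] [CharZero k] (δ : Derivation ℤ k k) {n : ℕ}
    (M : Matrix (Fin n) (Fin n) k) (r : ℕ) (hr : r ≤ n)
    {E : Type} [Field E] [Algebra k E] (δE : Derivation ℤ E E) (Φ : Matrix (Fin n) (Fin n) E)
    (hδE : ∀ a : k, δE (algebraMap k E a) = algebraMap k E (δ a)) (hdet : Φ.det ≠ 0)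
    (hΦ : ∀ i, nab δE (M.map (algebraMap k E)) (Φ i) = 0)
    (G : Set (Matrix (Fin n) (Fin n) (consts δE)))
    (hZ : ZContains (galMat k δE Φ) G)
    (hG : ∀ (F : Type) [Field F] [CharZero F] [Algebra (consts δE) F], Mov F G r) :
    GP δ M r := by
  classical
  intro K' _ _ δ' hδ' L hdim hflat a ha har
  by_contra ha0
  obtain ⟨F, hF, i, j, δF, hij, hi, hj⟩ := composite δ δE δ' hδE hδ'
  have : CharZero E := charZero_of_injective_algebraMap (algebraMap k E).injective
  have : CharZero F := charZero_of_injective_ringHom i.injective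
  -- the constants
  let C := consts δE
  let CF := consts δF
  let ιC : C →+* E := C.subtype
  let jj : CF →+* F := CF.subtype
  letI : Algebra C F := (i.comp ιC).toAlgebra
  letI : Algebra C CF := ((i.comp ιC).codRestrict CF (fun c => by
    change δF (i c) = 0
    rw [hi]
    have : δE (c : E) = 0 := c.2
    rw [this, map_zero])).toAlgebra
  have hcomp : ∀ c : C, i (algebraMap C E c) = jj (algebraMap C CF c) := fun _ => rfl
  -- the flat subspace over `F`
  have hMF : (M.map (algebraMap k K')).map j = (M.map (algebraMap k E)).map i := by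
    ext p q
    simp only [Matrix.map_apply]
    exact (hij _).symm
  obtain ⟨L', hL'dim, hL'flat, hL'mem⟩ := base_change δF δ' j hj (M.map (algebraMap k K')) L hflat
  rw [hMF] at hL'flat
  set MF := (M.map (algebraMap k E)).map i with hMFdef
  let ΦF := Φ.map i
  have hΦFdet : IsUnit ΦF.det := by
    have h1 : ΦF.det = i Φ.det := by
      rw [RingHom.map_det]
      rfl
    rw [h1]
    exact isUnit_iff_ne_zero.2 ((map_ne_zero _).2 hdet)
  let T : (Fin n → F) →ₗ[F] (Fin n → F) := Matrix.vecMulLinear ΦF
  have hT : ∀ y, T y = y ᵥ* ΦF := fun _ => rfl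
  have hTinj : Function.Injective T := by
    intro x y hxy
    have h1 := congrArg (fun z => z ᵥ* ΦF⁻¹) hxy
    simpa [hT, Matrix.vecMul_vecMul, Matrix.mul_nonsing_inv _ hΦFdet] using h1
  have hnabT : ∀ b, nab δF MF (T b) = T (dv δF b) := by
    intro b
    funext l
    have h1 : ∀ t, δF (ΦF t l) + ∑ q, ΦF t q * MF q l = 0 := by
      intro t
      have h2 := congrArg i (congrFun (hΦ t) l)
      simp only [nab, Pi.zero_apply, map_zero, map_add, map_sum, map_mul] at h2
      rw [← h2]
      simp only [ΦF, Matrix.map_apply, hi, hMFdef]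
    have h3 : ∀ t, b t * δF (ΦF t l) = - ∑ q, b t * ΦF t q * MF q l := by
      intro t
      rw [eq_neg_of_add_eq_zero_left (h1 t), mul_neg, Finset.mul_sum]
      simp only [mul_assoc]
    simp only [nab, hT, vecMul, dotProduct, map_sum, Derivation.leibniz, smul_eq_mul, dv,
      Finset.sum_add_distrib]
    rw [Finset.sum_congr rfl fun t _ => h3 t, Finset.sum_neg_distrib, Finset.sum_comm]
    simp only [Finset.sum_mul]
    have h4 : ∑ t, ΦF t l * δF (b t) = ∑ t, δF (b t) * ΦF t l :=
      Finset.sum_congr rfl fun t _ => mul_comm _ _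
    rw [h4]
    ring
  let U : Submodule F (Fin n → F) := L'.comap T
  have hUdim : Module.finrank F U ≤ Module.finrank F L' := by
    let f : U →ₗ[F] L' := T.restrict (fun x hx => hx)
    refine LinearMap.finrank_le_finrank_of_injective (f := f) ?_
    intro x y hxy
    apply Subtype.ext
    apply hTinj
    exact congrArg Subtype.val hxy
  have hUst : ∀ b ∈ U, dv δF b ∈ U := by
    intro b hb
    change T (dv δF b) ∈ L'
    rw [← hnabT]
    exact hL'flat _ hb
  set d := n - r with hd
  obtain ⟨U', hUU', hU'st, hU'dim⟩ := enlarge δF d (Nat.sub_le n r) (d - Module.finrank F U) U hUst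
    (by omega)
  obtain ⟨N0, hN1, hN2, hN3⟩ := const_basis δF U' hU'st
  let N : Fin d → (Fin n → F) := fun t => N0 (Fin.cast hU'dim.symm t)
  have hNmem : ∀ t, N t ∈ U' := fun t => hN1 _
  have hNc : ∀ t l, δF (N t l) = 0 := fun t l => hN2 _ _
  have hNli : LinearIndependent F N :=
    hN3.comp (Fin.cast hU'dim.symm) (Fin.cast_injective _)
  have hNspan : ∀ y ∈ U', ∃ c : Fin d → F, y = ∑ t, c t • N t := by
    intro y hy
    let N' : Fin d → U' := fun t => ⟨N t, hNmem t⟩
    have hN'li : LinearIndependent F N' := by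
      refine LinearIndependent.of_comp U'.subtype ?_
      exact hNli
    have hsp := hN'li.span_eq_top_of_card_eq_finrank' (by rw [Fintype.card_fin, hU'dim])
    have h1 : (⟨y, hy⟩ : U') ∈ Submodule.span F (Set.range N') := by rw [hsp]; trivial
    obtain ⟨c, hc⟩ := (Submodule.mem_span_range_iff_exists_fun F).1 h1
    refine ⟨c, ?_⟩
    have h2 := congrArg Subtype.val hc
    rw [Submodule.coe_sum] at h2
    rw [← show ((⟨y, hy⟩ : U') : Fin n → F) = y from rfl, ← h2]
    rfl
  -- the matrix over the constants
  let NC : Matrix (Fin d) (Fin n) CF := fun t l => ⟨N t l, hNc t l⟩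
  let col : Fin d → Fin n := fun u => ⟨r + u, by have := u.2; omega⟩
  let z : Fin n × Fin d → E := fun lu => Φ lu.1 (col lu.2)
  let R := detPoly NC
  have hR : MvPolynomial.eval₂ jj (fun t => i (z t)) R = 0 := by
    rw [eval_detPoly, ← Matrix.exists_vecMul_eq_zero_iff]
    let aF : Fin n → F := fun t => j (a t)
    have haF : aF ∈ L' := hL'mem a ha
    let b : Fin n → F := aF ᵥ* ΦF⁻¹
    have hTb : T b = aF := by
      rw [hT]
      simp [b, Matrix.vecMul_vecMul, Matrix.nonsing_inv_mul _ hΦFdet]
    have hbU : b ∈ U := by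
      change T b ∈ L'
      rw [hTb]
      exact haF
    obtain ⟨c, hc⟩ := hNspan b (hUU' hbU)
    refine ⟨c, ?_, ?_⟩
    · rintro rfl
      apply ha0
      have hb0 : b = 0 := by simpa using hc
      rw [hb0, map_zero] at hTb
      funext t
      have := congrFun hTb t
      have h5 : j (a t) = 0 := this.symm
      exact (map_eq_zero j).1 h5
    · funext u
      have h5 : T b (col u) = 0 := by
        rw [hTb]
        change j (a (col u)) = 0
        rw [har (col u) (by change r ≤ r + (u : ℕ); omega), map_zero]
      rw [Pi.zero_apply, ← h5, hT, hc]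
      simp only [vecMul, dotProduct, Matrix.of_apply, Finset.sum_apply, Pi.smul_apply,
        smul_eq_mul, Finset.mul_sum, Finset.sum_mul]
      rw [Finset.sum_comm]
      refine Finset.sum_congr rfl fun l _ => Finset.sum_congr rfl fun t _ => ?_
      change c t * (N t l * i (Φ l (col u))) = c t * N t l * i (Φ l (col u))
      ring
  have hLI : ∀ (q : ℕ) (e : Fin q → E), LinearIndependent C e → ∀ γ : Fin q → CF,
      ∑ u, jj (γ u) * i (e u) = 0 → γ = 0 := by
    intro q e he γ h0
    have h1 := indep_consts δE δF i hi e (fun c hc hce => by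
      have h2 := Fintype.linearIndependent_iff.1 he (fun u => (⟨c u, hc u⟩ : C)) (by
        rw [← hce]
        rfl)
      funext u
      exact congrArg Subtype.val (h2 u)) (fun u => (γ u : F)) (fun u => (γ u).2) h0
    funext u
    exact Subtype.ext (congrFun h1 u)
  -- the relation holds for all elements of `G`
  have hRh : ∀ h ∈ G, ∀ lam : CF →ₗ[C] C, MvPolynomial.aeval
      (fun lu : Fin n × Fin d => ∑ q, ((h lu.1 q : C) : E) * z (q, lu.2)) (coefw lam R) = 0 := by
    intro h hh lam
    set P := coefw lam R with hP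
    have hPz : MvPolynomial.aeval z P = 0 := ld_poly i jj hcomp hLI R z hR lam
    -- the polynomial in the entries of `h`
    let Q : MvPolynomial (Fin n × Fin n) E :=
      MvPolynomial.eval₂ (MvPolynomial.C.comp (algebraMap C E))
        (fun lu : Fin n × Fin d => ∑ q, MvPolynomial.X (lu.1, q) * MvPolynomial.C (z (q, lu.2))) P
    have hQ : ∀ g : Matrix (Fin n) (Fin n) C, MvPolynomial.eval (fun ij => (g ij.1 ij.2 : E)) Q =
        MvPolynomial.aeval (fun lu : Fin n × Fin d => ∑ q, ((g lu.1 q : C) : E) * z (q, lu.2)) P := by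
      intro g
      have h1 := MvPolynomial.hom_eval₂ P (MvPolynomial.C.comp (algebraMap C E))
        (MvPolynomial.eval (fun ij : Fin n × Fin n => (g ij.1 ij.2 : E)))
        (fun lu : Fin n × Fin d => ∑ q, MvPolynomial.X (lu.1, q) * MvPolynomial.C (z (q, lu.2)))
      rw [MvPolynomial.aeval_def]
      refine h1.trans ?_
      have h2 : (MvPolynomial.eval (fun ij : Fin n × Fin n => (g ij.1 ij.2 : E))).comp
          (MvPolynomial.C.comp (algebraMap C E)) = algebraMap C E := by
        ext c
        simp
      rw [h2]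
      congr 1
      funext lu
      simp [map_sum]
    have hQgal : ∀ g ∈ galMat k δE Φ, MvPolynomial.eval (fun ij => (g ij.1 ij.2 : E)) Q = 0 := by
      rintro g ⟨σ, hσ1, hσ2, hσ3⟩
      rw [hQ]
      have h1 : (fun lu : Fin n × Fin d => ∑ q, ((g lu.1 q : C) : E) * z (q, lu.2)) =
          fun lu => σ (z lu) := by
        funext lu
        have h2 := congrFun (congrFun hσ3 lu.1) (col lu.2)
        simp only [Matrix.map_apply, Matrix.mul_apply] at h2
        exact h2.symm
      rw [h1]
      have h3 : MvPolynomial.aeval (fun lu => σ (z lu)) P = σ (MvPolynomial.aeval z P) := by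
        rw [MvPolynomial.aeval_def, MvPolynomial.aeval_def]
        have h4 := MvPolynomial.hom_eval₂ P (algebraMap C E) (σ : E →+* E) z
        have h5 : (σ : E →+* E).comp (algebraMap C E) = algebraMap C E := by
          ext c
          exact hσ2 _ c.2
        rw [h5] at h4
        exact h4.symm
      rw [h3, hPz, map_zero]
    have h6 : ∀ μ : E →ₗ[C] C, μ (MvPolynomial.eval (fun ij => (h ij.1 ij.2 : E)) Q) = 0 := by
      intro μ
      have h7 := hZ (coefw μ Q) (fun g hg => by
        rw [eval_coefw]
        have : (fun ij : Fin n × Fin n => algebraMap C E (g ij.1 ij.2)) =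
            fun ij => (g ij.1 ij.2 : E) := rfl
        rw [this, hQgal g hg, map_zero]) h hh
      rw [eval_coefw] at h7
      exact h7
    rw [← hQ]
    exact (Module.forall_dual_apply_eq_zero_iff C _).1 h6
  -- the moved space
  let U2 : Submodule F (Fin n → F) :=
    { carrier := {y | ∀ t : Fin n, r ≤ (t : ℕ) → T y t = 0}
      zero_mem' := by
        intro t _
        rw [map_zero]
        rfl
      add_mem' := by
        intro x y hx hy t ht
        rw [map_add, Pi.add_apply, hx t ht, hy t ht, add_zero]
      smul_mem' := by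
        intro c x hx t ht
        rw [map_smul, Pi.smul_apply, hx t ht, smul_zero] }
  have hU2dim : Module.finrank F U2 ≤ r := by
    let f : U2 →ₗ[F] (Fin r → F) :=
      { toFun := fun y t => T (y : Fin n → F) ⟨t, lt_of_lt_of_le t.2 hr⟩
        map_add' := by
          intro x y
          funext t
          simp
        map_smul' := by
          intro c x
          funext t
          simp }
    have h1 : Function.Injective f := by
      rw [← LinearMap.ker_eq_bot, Submodule.eq_bot_iff]
      intro y hy
      rw [LinearMap.mem_ker] at hy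
      apply Subtype.ext
      apply hTinj
      rw [Submodule.coe_zero, map_zero]
      funext t
      by_cases ht : (t : ℕ) < r
      · exact congrFun hy ⟨t, ht⟩
      · exact y.2 t (not_lt.1 ht)
    have h2 := LinearMap.finrank_le_finrank_of_injective h1
    rwa [Module.finrank_fin_fun] at h2
  obtain ⟨h, hh, hmove⟩ := hG F U' U2 hU'dim hU2dim
  have h7 := ld_poly_conv i jj hcomp R _ (hRh h hh)
  rw [eval_detPoly, ← Matrix.exists_vecMul_eq_zero_iff] at h7
  obtain ⟨c, hc0, hc⟩ := h7
  have hy : (∑ t, c t • N t) = 0 := by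
    refine hmove _ (Submodule.sum_mem _ fun t _ => Submodule.smul_mem _ _ (hNmem t)) ?_
    intro t ht
    obtain ⟨u, rfl⟩ : ∃ u : Fin d, t = col u := by
      refine ⟨⟨t - r, by have := t.2; omega⟩, ?_⟩
      apply Fin.ext
      change (t : ℕ) = r + (t - r)
      omega
    have h8 := congrFun hc u
    rw [Pi.zero_apply] at h8
    rw [← h8, hT, Matrix.vecMul_vecMul]
    simp only [vecMul, dotProduct, Matrix.of_apply, Finset.sum_apply, Pi.smul_apply,
      smul_eq_mul, Finset.mul_sum, Finset.sum_mul, map_sum, map_mul]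
    rw [Finset.sum_comm]
    refine Finset.sum_congr rfl fun t _ => Finset.sum_congr rfl fun l _ => ?_
    simp only [Matrix.mul_apply, Finset.mul_sum, Matrix.map_apply]
    refine Finset.sum_congr rfl fun q _ => ?_
    change c t * N t l * (i (h l q : E) * i (Φ q (col u))) =
      c t * (N t l * (i (h l q : E) * i (Φ q (col u))))
    ring
  apply hc0
  funext t
  exact Fintype.linearIndependent_iff.1 hNli c hy t

/-- a big differential Galois group implies general position -/
theorem big_gp {k : Type} [Field k] [CharZero k] (δ : Derivation ℤ k k) {n : ℕ}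
    (M : Matrix (Fin n) (Fin n) k) (r : ℕ) (hr : r ≤ n) (h : Big δ M) : GP δ M r := by
  obtain ⟨E, hE, hA, δE, Φ, h1, h2, h3, h4⟩ := h
  have : CharZero E := charZero_of_injective_algebraMap (algebraMap k E).injective
  rcases h4 with ⟨J, hJ1, hJ2, hZ⟩ | hZ
  · exact gp_of_mov δ M r hr δE Φ h1 h2 h3 _ hZ (fun F _ _ _ => mov_of_trans hr (trans_sp J hJ1 hJ2))
  · exact gp_of_mov δ M r hr δE Φ h1 h2 h3 _ hZ (fun F _ _ _ => mov_of_trans hr trans_sl)

end Pool.Agent.V8H79.BM
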