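import Pool.Agent.V8H79.BM.PF

/-!
# Ultraproducts
-/

set_option autoImplicit false

namespace Pool.Agent.V8H79.BM

theorem exists_der {F : Type*} [Field F] (D : F →+ F)
    (hD : ∀ x y, D (x * y) = x * D y + y * D x) :
    ∃ D' : Derivation ℤ F F, ∀ x, D' x = D x :=
  ⟨Derivation.mk' (AddMonoidHom.toIntLinearMap D) hD, fun _ => rfl⟩

section ultra

variable {ι : Type} [Infinite ι] (K : ι → Type) [∀ p, Field (K p)]
  (δ : ∀ p, Derivation ℤ (K p) (K p))

/-- the ultraproduct -/
theorem ultra : ∃ (F : Type) (_ : Field F) (q : (∀ p, K p) →+* F) (D : Derivation ℤ F F),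
    Function.Surjective q ∧ (∀ x, D (q x) = q (fun p => δ p (x p))) ∧
      ∀ x : ∀ p, K p, {p | x p = 0}.Finite → q x ≠ 0 := by
  classical
  let I : Ideal (∀ p, K p) :=
    { carrier := {x | {p | x p ≠ 0}.Finite}
      zero_mem' := by simp
      add_mem' := by
        intro x y hx hy
        refine (hx.union hy).subset fun p hp => ?_
        by_contra h
        simp only [Set.mem_union, Set.mem_ofPred_eq, not_or, not_not] at h
        apply hp
        change x p + y p = 0
        rw [h.1, h.2, add_zero]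
      smul_mem' := by
        intro c x hx
        refine Set.Finite.subset hx fun p hp => ?_
        intro h
        apply hp
        change c p * x p = 0
        rw [h, mul_zero] }
  have hI : I ≠ ⊤ := by
    rw [Ideal.ne_top_iff_one]
    intro h
    have h1 : {p : ι | (1 : ∀ p, K p) p ≠ 0}.Finite := h
    have h2 : {p : ι | (1 : ∀ p, K p) p ≠ 0} = Set.univ := by
      ext p
      simp
    rw [h2] at h1
    exact Set.infinite_univ h1
  obtain ⟨m, hm, hIm⟩ := Ideal.exists_le_maximal I hI
  let D0 : (∀ p, K p) →+ (∀ p, K p) :=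
    { toFun := fun x p => δ p (x p)
      map_zero' := by
        funext p
        simp
      map_add' := by
        intro x y
        funext p
        simp }
  have hD0 : ∀ x y, D0 (x * y) = x * D0 y + y * D0 x := by
    intro x y
    funext p
    change δ p (x p * y p) = x p * δ p (y p) + y p * δ p (x p)
    rw [Derivation.leibniz]
    rfl
  have hst : ∀ x ∈ m, D0 x ∈ m := by
    intro x hx
    have h1 : D0 x = (D0 x * fun p => (x p)⁻¹) * x := by
      funext p
      change δ p (x p) = δ p (x p) * (x p)⁻¹ * x p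
      by_cases h : x p = 0
      · rw [h]
        simp
      · rw [mul_assoc, inv_mul_cancel₀ h, mul_one]
    rw [h1]
    exact m.mul_mem_left _ hx
  obtain ⟨D1, hD1, hD1'⟩ := exists_qder D0 hD0 m hst
  let _ : Field ((∀ p, K p) ⧸ m) := Ideal.Quotient.field m
  obtain ⟨D, hD⟩ := exists_der D1 hD1
  refine ⟨(∀ p, K p) ⧸ m, inferInstance, Ideal.Quotient.mk m, D, Ideal.Quotient.mk_surjective,
    ?_, ?_⟩
  · intro x
    rw [hD, hD1']
    rfl
  · intro x hx h0
    rw [Ideal.Quotient.eq_zero_iff_mem] at h0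
    have h1 : (1 : ∀ p, K p) - (fun p => (x p)⁻¹) * x ∈ I := by
      refine Set.Finite.subset hx fun p hp => ?_
      by_contra h
      apply hp
      change 1 - (x p)⁻¹ * x p = 0
      rw [inv_mul_cancel₀ h, sub_self]
    have h2 := m.add_mem (hIm h1) (m.mul_mem_left (fun p => (x p)⁻¹) h0)
    rw [sub_add_cancel] at h2
    exact (Ideal.ne_top_iff_one m).1 hm.ne_top h2

end ultra

/-- a map out of the fraction field which is compatible with derivations -/
theorem frac_map {B K F : Type*} [CommRing B] [IsDomain B] [Field K] [Field F] [Algebra B K]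
    [IsFractionRing B K] (δ : Derivation ℤ K K) (D : Derivation ℤ F F) (d : B → B)
    (hδ : ∀ x : B, δ (algebraMap B K x) = algebraMap B K (d x))
    (ψ : B →+* F) (hψ : Function.Injective ψ) (hψd : ∀ x, D (ψ x) = ψ (d x)) :
    ∃ f : K →+* F, (∀ x : B, f (algebraMap B K x) = ψ x) ∧ ∀ x, D (f x) = f (δ x) := by
  let f : K →+* F := IsFractionRing.lift hψ
  have hf : ∀ x : B, f (algebraMap B K x) = ψ x := fun x => IsFractionRing.lift_algebraMap hψ x
  refine ⟨f, hf, fun x => ?_⟩
  obtain ⟨a, b, hb, rfl⟩ := IsFractionRing.div_surjective (A := B) x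
  have hb0 : algebraMap B K b ≠ 0 := by
    intro h
    exact nonZeroDivisors.ne_zero hb ((IsFractionRing.injective B K) (by rw [h, map_zero]))
  set y := algebraMap B K a / algebraMap B K b with hy
  have h1 : algebraMap B K b * y = algebraMap B K a := by
    rw [hy, mul_div_cancel₀ _ hb0]
  have h2 := congrArg δ h1
  rw [Derivation.leibniz, hδ, hδ] at h2
  have h3 := congrArg f h2
  have h4 := congrArg f h1
  rw [map_mul, hf, hf] at h4
  have h5 := congrArg D h4
  rw [Derivation.leibniz, hψd, hψd] at h5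
  simp only [smul_eq_mul, map_add, map_mul, hf] at h3 h5
  have hfb : ψ b ≠ 0 := by
    rw [← hf]
    exact (map_ne_zero f).2 hb0
  apply mul_left_cancel₀ hfb
  linear_combination h5 - h3

/-- **from positive characteristic to characteristic zero** -/
theorem not_gp {k : Type} [Field k] [CharZero k] (δ : Derivation ℤ k k) {n r : ℕ}
    (B : Type) [CommRing B] [IsDomain B] (d : B →+ B) (hd : ∀ x y, d (x * y) = x * d y + y * d x)
    (ψ : B →+* k) (hψ : Function.Injective ψ) (hψd : ∀ x, δ (ψ x) = ψ (d x))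
    (M : Matrix (Fin n) (Fin n) B)
    {ι : Type} [Infinite ι] (K : ι → Type) [∀ p, Field (K p)]
    (δK : ∀ p, Derivation ℤ (K p) (K p)) (φ : ∀ p, B →+* K p)
    (hφ : ∀ p x, δK p (φ p x) = φ p (d x))
    (hfin : ∀ x : B, x ≠ 0 → {p | φ p x = 0}.Finite)
    (L : ∀ p, Submodule (K p) (Fin n → K p))
    (hLdim : ∀ p, Module.finrank (K p) (L p) + r ≤ n)
    (hLflat : ∀ p, ∀ a ∈ L p, nab (δK p) (M.map (φ p)) a ∈ L p)
    (hLW : ∀ p, ∃ a ∈ L p, a ≠ 0 ∧ ∀ i : Fin n, r ≤ (i : ℕ) → a i = 0) :
    ¬ GP δ (M.map ψ) r := by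
  classical
  intro hGP
  obtain ⟨F, hF, q, D, hq, hD, hq0⟩ := ultra K δK
  -- the map of `B`
  let Ψ : B →+* F := q.comp (RingHom.pi φ)
  have hΨ : ∀ x, Ψ x = q (fun p => φ p x) := fun _ => rfl
  have hΨinj : Function.Injective Ψ := by
    rw [injective_iff_map_eq_zero]
    intro x hx
    by_contra hne
    exact hq0 _ (hfin x hne) hx
  have hΨd : ∀ x, D (Ψ x) = Ψ (d x) := by
    intro x
    rw [hΨ, hD, hΨ]
    congr 1
    funext p
    exact hφ p x
  -- partition of unity
  have hpart : ∀ {T : Type} [Fintype T] (t : ι → T) (c : T → ∀ p, K p),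
      (∀ p, c (t p) p = 1) → ∃ s, q (c s) ≠ 0 := by
    intro T _ t c hc
    by_contra hcon
    push Not at hcon
    let e : T → ∀ p, K p := fun s p => if t p = s then 1 else 0
    have h1 : ∑ s, e s = 1 := by
      funext p
      simp [e]
    have h2 : ∀ s, e s = e s * c s := by
      intro s
      funext p
      change (if t p = s then (1 : K p) else 0) = (if t p = s then 1 else 0) * c s p
      split_ifs with h
      · rw [← h, hc p, one_mul]
      · rw [zero_mul]
    have h3 : q 1 = 0 := by
      rw [← h1, map_sum]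
      refine Finset.sum_eq_zero fun s _ => ?_
      rw [h2 s, map_mul, hcon s, mul_zero]
    rw [map_one] at h3
    exact one_ne_zero h3
  -- the limit space
  let LF : Submodule F (Fin n → F) :=
    { carrier := {a | ∃ x : Fin n → ∀ p, K p, (∀ p, (fun i => x i p) ∈ L p) ∧ ∀ i, q (x i) = a i}
      zero_mem' := ⟨0, fun p => (L p).zero_mem, fun i => map_zero q⟩
      add_mem' := by
        rintro a b ⟨x, hx, hxa⟩ ⟨y, hy, hyb⟩
        refine ⟨x + y, fun p => (L p).add_mem (hx p) (hy p), fun i => ?_⟩
        rw [Pi.add_apply, map_add, hxa, hyb]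
        rfl
      smul_mem' := by
        rintro c a ⟨x, hx, hxa⟩
        obtain ⟨c', rfl⟩ := hq c
        refine ⟨fun i => c' * x i, fun p => (L p).smul_mem (c' p) (hx p), fun i => ?_⟩
        rw [map_mul, hxa]
        rfl }
  have hLFdim : Module.finrank F LF + r ≤ n := by
    by_contra hcon
    set t := n - r + 1 with ht
    have hle : t ≤ Module.finrank F LF := by
      have h1 : Module.finrank (K (Classical.arbitrary ι)) (L (Classical.arbitrary ι)) + r ≤ n :=
        hLdim _
      omega
    let b := Module.finBasis F LF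
    let v : Fin t → LF := fun s => b (Fin.castLE hle s)
    have hv : LinearIndependent F v := b.linearIndependent.comp _ (Fin.castLE_injective hle)
    have hv' : ∀ s, ∃ x : Fin n → ∀ p, K p, (∀ p, (fun i => x i p) ∈ L p) ∧
        ∀ i, q (x i) = (v s : Fin n → F) i := fun s => (v s).2
    choose x hx hxv using hv'
    have hdep : ∀ p, ∃ (c : Fin t → K p) (s0 : Fin t), c s0 = 1 ∧
        ∀ i, ∑ s, c s * x s i p = 0 := by
      intro p
      let w : Fin t → L p := fun s => ⟨fun i => x s i p, hx s p⟩
      have h1 : ¬ LinearIndependent (K p) w := by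
        intro h2
        have h3 := h2.fintype_card_le_finrank
        rw [Fintype.card_fin] at h3
        have h4 := hLdim p
        omega
      rw [Fintype.linearIndependent_iff] at h1
      push Not at h1
      obtain ⟨g, hg, s0, hs0⟩ := h1
      refine ⟨fun s => (g s0)⁻¹ * g s, s0, inv_mul_cancel₀ hs0, fun i => ?_⟩
      have h2 := congrFun (congrArg Subtype.val hg) i
      rw [Submodule.coe_sum, Finset.sum_apply] at h2
      have h3 : ∑ s, g s * x s i p = 0 := h2
      simp only [mul_assoc]
      rw [← Finset.mul_sum, h3, mul_zero]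
    choose c s0 hc1 hc2 using hdep
    obtain ⟨s, hs⟩ := hpart s0 (fun s p => c p s) hc1
    apply hs
    have h5 : ∑ s, q (fun p => c p s) • v s = 0 := by
      apply Subtype.ext
      rw [Submodule.coe_sum]
      funext i
      rw [Finset.sum_apply]
      change ∑ s, q (fun p => c p s) * (v s : Fin n → F) i = 0
      have h6 : ∀ s, q (fun p => c p s) * (v s : Fin n → F) i =
          q ((fun p => c p s) * x s i) := by
        intro s
        rw [map_mul, hxv]
      rw [Finset.sum_congr rfl fun s _ => h6 s, ← map_sum]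
      have h7 : ∑ s, (fun p => c p s) * x s i = 0 := by
        funext p
        rw [Finset.sum_apply]
        exact hc2 p i
      rw [h7, map_zero]
    exact Fintype.linearIndependent_iff.1 hv _ h5 s
  have hLFflat : ∀ a ∈ LF, nab D (M.map Ψ) a ∈ LF := by
    rintro a ⟨x, hx, hxa⟩
    refine ⟨fun j p => nab (δK p) (M.map (φ p)) (fun i => x i p) j,
      fun p => hLflat p _ (hx p), fun j => ?_⟩
    have h1 : (fun p => nab (δK p) (M.map (φ p)) (fun i => x i p) j) =
        (fun p => δK p (x j p)) + ∑ i, x i * (fun p => φ p (M i j)) := by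
      funext p
      simp [nab, Finset.sum_apply]
    change q (fun p => nab (δK p) (M.map (φ p)) (fun i => x i p) j) = _
    rw [h1, map_add, ← hD, map_sum, hxa]
    simp only [nab, map_mul, hxa, Matrix.map_apply]
    rfl
  have hLFW : ∃ a ∈ LF, a ≠ 0 ∧ ∀ i : Fin n, r ≤ (i : ℕ) → a i = 0 := by
    have hnorm : ∀ p, ∃ (a : Fin n → K p) (i0 : Fin n), a ∈ L p ∧ a i0 = 1 ∧
        ∀ i : Fin n, r ≤ (i : ℕ) → a i = 0 := by
      intro p
      obtain ⟨a, ha, ha0, har⟩ := hLW p
      obtain ⟨i0, hi0⟩ := Function.ne_iff.1 ha0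
      refine ⟨(a i0)⁻¹ • a, i0, (L p).smul_mem _ ha, ?_, ?_⟩
      · rw [Pi.smul_apply, smul_eq_mul, inv_mul_cancel₀ hi0]
      · intro i hi
        rw [Pi.smul_apply, har i hi, smul_zero]
    choose a i0 ha1 ha2 ha3 using hnorm
    obtain ⟨s, hs⟩ := hpart i0 (fun i p => a p i) ha2
    refine ⟨fun i => q (fun p => a p i), ⟨fun i p => a p i, ha1, fun _ => rfl⟩, ?_, ?_⟩
    · intro h
      exact hs (congrFun h s)
    · intro i hi
      have : (fun p => a p i) = (0 : ∀ p, K p) := funext fun p => ha3 p i hi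
      change q (fun p => a p i) = 0
      rw [this, map_zero]
  -- the fraction field of `B`
  obtain ⟨δ0, hδ0⟩ := exists_fder (K := FractionRing B) d hd
  obtain ⟨f1, hf1, hf1'⟩ := frac_map δ0 δ d hδ0 ψ hψ hψd
  obtain ⟨f2, hf2, hf2'⟩ := frac_map δ0 D d hδ0 Ψ hΨinj hΨd
  have : CharZero (FractionRing B) := by
    refine ⟨fun a b hab => ?_⟩
    have := congrArg f1 hab
    simpa using this
  let alg1 : Algebra (FractionRing B) k := f1.toAlgebra
  let alg2 : Algebra (FractionRing B) F := f2.toAlgebra
  obtain ⟨F2, hF2, i, j, δ2, hij, hi, hj⟩ := composite (K := FractionRing B) (E := k) (L := F)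
    δ0 δ D hf1' hf2'
  obtain ⟨L', hL'dim, hL'flat, hL'mem⟩ := base_change δ2 D j hj (M.map Ψ) LF hLFflat
  obtain ⟨a, haL, ha0, har⟩ := hLFW
  let alg3 : Algebra k F2 := i.toAlgebra
  have hM2 : (M.map Ψ).map j = (M.map ψ).map (algebraMap k F2) := by
    ext s t
    simp only [Matrix.map_apply]
    change j (Ψ (M s t)) = i (ψ (M s t))
    rw [← hf1, ← hf2]
    exact (hij _).symm
  rw [hM2] at hL'flat
  have h1 := hGP F2 δ2 hi L' (by omega) hL'flat _ (hL'mem a haL) (fun i hi => by
    rw [har i hi, map_zero])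
  apply ha0
  funext t
  exact (map_eq_zero j).1 (congrFun h1 t)

end Pool.Agent.V8H79.BM
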