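import Pool.Agent.V8H79.BM.PA

/-!
# Differential primes of residue characteristic `p`
-/

set_option autoImplicit false

open Polynomial

namespace Pool.Agent.V8H79.BM

theorem exists_basis (k : Type) [Field k] [CharZero k] [FinTrdeg ℚ k] :
    ∃ (ι : Type) (_ : Finite ι) (x : ι → k), AlgebraicIndependent ℤ x ∧
      Algebra.IsAlgebraic (Algebra.adjoin ℤ (Set.range x)) k := by
  obtain ⟨ι, x, hx⟩ := exists_isTranscendenceBasis' ℤ k
  have h1 : AlgebraicIndependent ℚ x := by
    have : Algebra.IsAlgebraic ℤ ℚ := IsLocalization.isAlgebraic (R := ℤ) (S := ℚ) (nonZeroDivisors ℤ)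
    exact hx.1.extendScalars ℚ
  exact ⟨ι, finite_of_algebraicIndependent (K := ℚ) h1, x, hx.1, hx.isAlgebraic⟩

section

variable {k : Type} [Field k] [CharZero k] {ι : Type} {x : ι → k}

omit [CharZero k] in
theorem prime_P (hx : AlgebraicIndependent ℤ x) {p : ℕ} (hp : p.Prime) :
    Prime ((p : ℕ) : Algebra.adjoin ℤ (Set.range x)) := by
  let e := hx.aevalEquiv
  have h1 : Prime (MvPolynomial.C (p : ℤ) : MvPolynomial ι ℤ) :=
    (MvPolynomial.prime_C_iff ι).2 (Nat.prime_iff_prime_int.1 hp)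
  have h2 := (MulEquiv.prime_iff (e : MvPolynomial ι ℤ ≃* Algebra.adjoin ℤ (Set.range x))).2 h1
  convert! h2 using 1
  change _ = e (MvPolynomial.C (p : ℤ))
  have h3 : (MvPolynomial.C (p : ℤ) : MvPolynomial ι ℤ) = ((p : ℕ) : MvPolynomial ι ℤ) := by simp
  rw [h3, map_natCast]

omit [CharZero k] in
theorem finite_P (hx : AlgebraicIndependent ℤ x) (a : Algebra.adjoin ℤ (Set.range x))
    (ha : a ≠ 0) : {p : ℕ | ((p : ℕ) : Algebra.adjoin ℤ (Set.range x)) ∣ a}.Finite := by
  let e := hx.aevalEquiv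
  obtain ⟨f, rfl⟩ := e.surjective a
  have hf : f ≠ 0 := by
    rintro rfl
    exact ha (map_zero e)
  obtain ⟨m, hm⟩ := MvPolynomial.ne_zero_iff.1 hf
  refine Set.Finite.subset (s := {p : ℕ | p ∣ (MvPolynomial.coeff m f).natAbs}) ?_ ?_
  · exact (Nat.divisors (MvPolynomial.coeff m f).natAbs).finite_toSet.subset fun p hp => by
      simp only [Finset.mem_coe, Nat.mem_divisors]
      exact ⟨hp, by simpa using hm⟩
  · rintro p ⟨c, hc⟩
    obtain ⟨g, rfl⟩ := e.surjective c
    have h1 : f = MvPolynomial.C (p : ℤ) * g := by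
      apply e.injective
      rw [map_mul, hc]
      congr 1
      have h3 : (MvPolynomial.C (p : ℤ) : MvPolynomial ι ℤ) = ((p : ℕ) : MvPolynomial ι ℤ) := by
        simp
      rw [h3, map_natCast]
    have h2 : MvPolynomial.coeff m f = (p : ℤ) * MvPolynomial.coeff m g := by
      rw [h1, MvPolynomial.coeff_C_mul]
    change p ∣ (MvPolynomial.coeff m f).natAbs
    rw [h2, Int.natAbs_mul, Int.natAbs_natCast]
    exact dvd_mul_right _ _

omit [CharZero k] in
/-- derivative of the value of a polynomial -/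
theorem der_eval (δ : Derivation ℤ k k) (f : k[X]) (y : k) :
    δ (f.eval y) = (dc δ f).eval y + (derivative f).eval y * δ y := by
  induction f using Polynomial.induction_on' with
  | add f g hf hg =>
    rw [eval_add, map_add, hf, hg, map_add, eval_add, derivative_add, eval_add]
    ring
  | monomial n a =>
    have h1 : dc δ (monomial n a) = monomial n (δ a) := by
      ext i
      rw [coeff_dc, coeff_monomial, coeff_monomial]
      split_ifs <;> simp
    rw [h1, eval_monomial, eval_monomial, derivative_monomial, eval_monomial, Derivation.leibniz,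
      Derivation.leibniz_pow]
    simp only [smul_eq_mul, nsmul_eq_mul]
    ring

/-- the denominator of the derivative of an algebraic element -/
theorem exists_den (δ : Derivation ℤ k k) (P R : Subalgebra ℤ k) (hPR : P ≤ R)
    (hδ : ∀ a ∈ P, δ a ∈ R) (y : k) (hy : y ∈ R) (halg : IsAlgebraic P y) :
    ∃ b ∈ R, b ≠ 0 ∧ b * δ y ∈ R := by
  classical
  -- a polynomial of minimal degree
  have hex : ∃ n : ℕ, ∃ f : P[X], f ≠ 0 ∧ aeval y f = 0 ∧ f.natDegree = n := by
    obtain ⟨f, h1, h2⟩ := halg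
    exact ⟨_, f, h1, h2, rfl⟩
  obtain ⟨f, hf0, hfy, hfn⟩ := Nat.find_spec hex
  have hinj : Function.Injective (algebraMap P k) := Subtype.val_injective
  have hev : ∀ g : P[X], aeval y g = (g.map (algebraMap P k)).eval y := by
    intro g
    rw [aeval_def, eval_map]
  have hmem : ∀ g : k[X], (∀ i, g.coeff i ∈ R) → g.eval y ∈ R := by
    intro g hg
    rw [eval_eq_sum_range]
    exact R.sum_mem fun i _ => R.mul_mem (hg i) (R.pow_mem hy _)
  have hdeg : f.natDegree ≠ 0 := by
    intro h
    rw [natDegree_eq_zero] at h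
    obtain ⟨c, rfl⟩ := h
    rw [aeval_C] at hfy
    apply hf0
    rw [show c = 0 from hinj (by rw [hfy, map_zero]), C_0]
  have : CharZero P := by
    refine ⟨fun a b h => ?_⟩
    have := congrArg (algebraMap P k) h
    simpa using this
  have hd0 : aeval y (derivative f) ≠ 0 := by
    intro h
    have h1 : derivative f ≠ 0 := by
      intro h0
      exact hdeg (derivative_eq_zero.1 h0)
    have h2 : (derivative f).natDegree < f.natDegree := natDegree_derivative_lt hdeg
    exact Nat.find_min hex (hfn ▸ h2) ⟨_, h1, h, rfl⟩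
  set g := f.map (algebraMap P k) with hg
  have h1 := der_eval δ g y
  rw [hev] at hfy
  rw [hfy, map_zero] at h1
  have h2 : (derivative g).eval y = aeval y (derivative f) := by
    rw [hg, derivative_map, ← hev]
  refine ⟨aeval y (derivative f), ?_, hd0, ?_⟩
  · rw [← h2]
    refine hmem _ fun i => ?_
    rw [hg, derivative_map, coeff_map]
    exact hPR (Subtype.mem _)
  · rw [← h2]
    have h3 : (derivative g).eval y * δ y = -(dc δ g).eval y := by
      linear_combination -h1
    rw [h3]
    refine R.neg_mem (hmem _ fun i => ?_)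
    rw [coeff_dc, hg, coeff_map]
    exact hδ _ (Subtype.mem _)

omit [CharZero k] in
/-- a monic polynomial of bounded degree -/
theorem exists_charpoly (P B : Subalgebra ℤ k) {n : ℕ} (g : Fin n → k)
    (hg : ∃ i, g i ≠ 0) (hB : ∀ y ∈ B, ∀ i, ∃ c : Fin n → P, y * g i = ∑ j, (c j : k) * g j)
    (y : k) (hy : y ∈ B) : ∃ χ : P[X], χ.Monic ∧ χ.natDegree = n ∧ aeval y χ = 0 := by
  classical
  choose c hc using hB y hy
  let A : Matrix (Fin n) (Fin n) P := Matrix.of c
  refine ⟨A.charpoly, A.charpoly_monic, ?_, ?_⟩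
  · rw [Matrix.charpoly_natDegree_eq_dim, Fintype.card_fin]
  · have h1 : aeval y A.charpoly = (A.map (algebraMap P k)).charpoly.eval y := by
      rw [aeval_def, ← eval_map, ← Matrix.charpoly_map]
    rw [h1, Matrix.eval_charpoly, ← Matrix.exists_mulVec_eq_zero_iff]
    refine ⟨g, ?_, ?_⟩
    · obtain ⟨i, hi⟩ := hg
      intro h
      exact hi (congrFun h i)
    · rw [Matrix.sub_mulVec]
      funext i
      have h2 : (Matrix.scalar (Fin n) y).mulVec g i = y * g i := by
        simp [Matrix.scalar_apply, Matrix.mulVec_diagonal]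
      have h3 : (A.map (algebraMap P k)).mulVec g i = ∑ j, (c i j : k) * g j := rfl
      rw [Pi.sub_apply, h2, h3, hc i, sub_self]
      rfl

end

/-- primes of large residue characteristic are differential -/
theorem diff_prime {R S : Type*} [CommRing R] [CommRing S] [Algebra R S] (Q : Ideal S)
    [hQ : Q.IsPrime] (D : S →+ S) (hD : ∀ x y, D (x * y) = x * D y + y * D x) (p n : ℕ)
    (hpn : n < p) (hj : ∀ j : ℕ, 0 < j → j < p → (j : S) ∉ Q) (hpQ : (p : S) ∈ Q)
    (hRQ : ∀ c : R, algebraMap R S c ∈ Q → ∃ s : S, algebraMap R S c = p * s)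
    (hmon : ∀ x : S, ∃ χ : R[X], χ.Monic ∧ χ.natDegree = n ∧ aeval x χ = 0) :
    ∀ x ∈ Q, D x ∈ Q := by
  classical
  intro x hx
  have hD1 : D 1 = 0 := by
    have := hD 1 1
    simpa using this
  have hDn : ∀ m : ℕ, D (m : S) = 0 := by
    intro m
    induction m with
    | zero => simp
    | succ m ih => rw [Nat.cast_succ, map_add, ih, hD1, add_zero]
  have hDpow : ∀ m : ℕ, D (x ^ (m + 1)) = (m + 1 : ℕ) * x ^ m * D x := by
    intro m
    induction m with
    | zero => simp
    | succ m ih =>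
      rw [pow_succ, hD, ih]
      push_cast
      ring
  -- some power of `x` is divisible by `p` up to `Q`
  have hex : ∃ j : ℕ, j ≤ n ∧ ∃ u : S, u ∉ Q ∧ ∃ s : S, u * x ^ j = p * s := by
    obtain ⟨χ, hχ, hdeg, h0⟩ := hmon x
    have hex2 : ∃ i, algebraMap R S (χ.coeff i) ∉ Q := by
      refine ⟨χ.natDegree, ?_⟩
      rw [hχ.coeff_natDegree, map_one]
      exact fun h => hQ.ne_top ((Ideal.eq_top_iff_one Q).2 h)
    have hn : algebraMap R S (χ.coeff n) ∉ Q := by
      rw [← hdeg, hχ.coeff_natDegree, map_one]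
      exact fun h => hQ.ne_top ((Ideal.eq_top_iff_one Q).2 h)
    set i0 := Nat.find hex2 with hi0
    have h1 : algebraMap R S (χ.coeff i0) ∉ Q := Nat.find_spec hex2
    have h2 : ∀ i, i < i0 → ∃ s : S, algebraMap R S (χ.coeff i) = p * s := fun i hi =>
      hRQ _ (not_not.1 (Nat.find_min hex2 hi))
    have h3 : i0 ≤ n := Nat.find_min' hex2 hn
    obtain ⟨m, hm⟩ : ∃ m, n = i0 + m := ⟨n - i0, by omega⟩
    rw [aeval_eq_sum_range, hdeg, hm, add_assoc, Finset.sum_range_add] at h0
    simp only [Algebra.smul_def] at h0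
    refine ⟨i0, h3, ∑ i ∈ Finset.range (m + 1), algebraMap R S (χ.coeff (i0 + i)) * x ^ i, ?_, ?_⟩
    · rw [Finset.sum_range_succ']
      intro h
      have h4 : ∑ i ∈ Finset.range m, algebraMap R S (χ.coeff (i0 + (i + 1))) * x ^ (i + 1) ∈ Q :=
        Q.sum_mem fun i _ => Q.mul_mem_left _ (by
          rw [pow_succ]
          exact Q.mul_mem_left _ hx)
      have h5 := (Q.add_mem_iff_right h4).1 h
      simp only [pow_zero, mul_one, add_zero] at h5
      exact h1 h5
    · have h6 : ∃ s : S, ∑ i ∈ Finset.range i0, algebraMap R S (χ.coeff i) * x ^ i = p * s := by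
        have h7 : ∀ i ∈ Finset.range i0, ∃ s : S, algebraMap R S (χ.coeff i) * x ^ i = p * s := by
          intro i hi
          obtain ⟨s, hs⟩ := h2 i (Finset.mem_range.1 hi)
          exact ⟨s * x ^ i, by rw [hs]; ring⟩
        exact Finset.dvd_sum h7
      obtain ⟨s, hs⟩ := h6
      refine ⟨-s, ?_⟩
      have h8 : ∑ i ∈ Finset.range (m + 1), algebraMap R S (χ.coeff (i0 + i)) * x ^ (i0 + i) =
          (∑ i ∈ Finset.range (m + 1), algebraMap R S (χ.coeff (i0 + i)) * x ^ i) * x ^ i0 := by
        rw [Finset.sum_mul]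
        refine Finset.sum_congr rfl fun i _ => ?_
        rw [pow_add]
        ring
      rw [h8, hs] at h0
      linear_combination h0
  have hex' : ∃ j : ℕ, ∃ u : S, u ∉ Q ∧ ∃ s : S, u * x ^ j = p * s := by
    obtain ⟨j, -, h⟩ := hex
    exact ⟨j, h⟩
  set j := Nat.find hex' with hjdef
  obtain ⟨u, hu, s, hs⟩ : ∃ u : S, u ∉ Q ∧ ∃ s : S, u * x ^ j = p * s := Nat.find_spec hex'
  have hjn : j ≤ n := by
    obtain ⟨j', hj', h⟩ := hex
    exact (Nat.find_min' hex' h).trans hj'
  have hj0 : j ≠ 0 := by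
    intro h
    rw [h, pow_zero, mul_one] at hs
    exact hu (hs ▸ Q.mul_mem_right _ hpQ)
  obtain ⟨i, hi⟩ : ∃ i, j = i + 1 := ⟨j - 1, by omega⟩
  by_contra hDx
  have h1 := congrArg D hs
  rw [hi, hD, hDpow, hD, hDn] at h1
  rw [hi] at hs
  refine Nat.find_min hex' (m := i) (by omega) ⟨(i + 1 : ℕ) * u * u * D x, ?_, ?_⟩
  · intro h
    rcases hQ.mem_or_mem h with h2 | h2
    · rcases hQ.mem_or_mem h2 with h3 | h3
      · rcases hQ.mem_or_mem h3 with h4 | h4
        · exact hj (i + 1) (by omega) (by omega) h4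
        · exact hu h4
      · exact hu h3
    · exact hDx h2
  · refine ⟨u * D s - D u * s, ?_⟩
    linear_combination u * h1 - D u * hs

end Pool.Agent.V8H79.BM
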