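import Pool.Agent.V8H79.BM.PH

/-!
# A finitely generated differential ring with differential primes over all large `p`
-/

set_option autoImplicit false

open Polynomial

namespace Pool.Agent.V8H79.BM

section

variable {k : Type} [Field k] [CharZero k]

/-- an additive Leibniz map preserves a ring if it maps the generators to it -/
theorem der_adjoin (δ : Derivation ℤ k k) (X : Set k) (R : Subalgebra ℤ k)
    (hXR : Algebra.adjoin ℤ X ≤ R) (hX : ∀ y ∈ X, δ y ∈ R) :
    ∀ y ∈ Algebra.adjoin ℤ X, δ y ∈ R := by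
  intro y hy
  induction hy using Algebra.adjoin_induction with
  | mem y hy => exact hX y hy
  | algebraMap r =>
    have : δ (algebraMap ℤ k r) = 0 := by simp
    rw [this]
    exact R.zero_mem
  | add a b ha hb h1 h2 =>
    rw [map_add]
    exact R.add_mem h1 h2
  | mul a b ha hb h1 h2 =>
    rw [Derivation.leibniz]
    exact R.add_mem (R.mul_mem (hXR ha) h2) (R.mul_mem (hXR hb) h1)

theorem exists_ring [FinTrdeg ℚ k] {τ : Type} [Fintype τ] (δ : τ → Derivation ℤ k k) (Y : Set k)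
    (hY : Y.Finite) :
    ∃ B : Subalgebra ℤ k, Y ⊆ B ∧ (∀ i, ∀ y ∈ B, δ i y ∈ B) ∧ ∃ (N0 : ℕ) (Q : ℕ → Ideal B),
      (∀ p, N0 ≤ p → p.Prime → (Q p).IsPrime ∧ ((p : ℕ) : B) ∈ Q p ∧
        ∀ (i : τ) (D : B →+ B), (∀ y : B, ((D y : B) : k) = δ i y) → ∀ y ∈ Q p, D y ∈ Q p) ∧
      ∀ y : B, y ≠ 0 → {p : ℕ | p.Prime ∧ N0 ≤ p ∧ y ∈ Q p}.Finite := by
  classical
  obtain ⟨ι, hι, x, hx, halg⟩ := exists_basis k
  set P := Algebra.adjoin ℤ (Set.range x) with hP
  set X0 : Set k := Y ∪ Set.range x ∪ ⋃ i, δ i '' Set.range x with hX0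
  have hX0fin : X0.Finite :=
    (hY.union (Set.finite_range x)).union
      (Set.finite_iUnion fun i => (Set.finite_range x).image (δ i))
  set R0 := Algebra.adjoin ℤ X0 with hR0
  have hPR0 : P ≤ R0 := Algebra.adjoin_mono fun y hy => Or.inl (Or.inr hy)
  have hδP : ∀ i, ∀ a ∈ P, δ i a ∈ R0 := fun i => der_adjoin (δ i) _ R0 hPR0 fun y hy =>
    Algebra.subset_adjoin (Or.inr (Set.mem_iUnion.2 ⟨i, y, hy, rfl⟩))
  have hden : ∀ i (y : k), ∃ b : k, b ∈ R0 ∧ b ≠ 0 ∧ (y ∈ R0 → b * δ i y ∈ R0) := by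
    intro i y
    by_cases hy : y ∈ R0
    · obtain ⟨b, h1, h2, h3⟩ := exists_den (δ i) P R0 hPR0 (hδP i) y hy (halg.isAlgebraic y)
      exact ⟨b, h1, h2, fun _ => h3⟩
    · exact ⟨1, R0.one_mem, one_ne_zero, fun h => absurd h hy⟩
  choose b hb1 hb2 hb3 using hden
  let S0 : Finset (τ × k) := Finset.univ ×ˢ hX0fin.toFinset
  set bb : k := ∏ y ∈ S0, b y.1 y.2 with hbb
  have hbbR : bb ∈ R0 := R0.prod_mem fun y _ => hb1 y.1 y.2
  have hbb0 : bb ≠ 0 := Finset.prod_ne_zero_iff.2 fun y _ => hb2 y.1 y.2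
  have hbbδ : ∀ i, ∀ y ∈ X0, bb * δ i y ∈ R0 := by
    intro i y hy
    have hyS : (i, y) ∈ S0 := Finset.mem_product.2 ⟨Finset.mem_univ i, hX0fin.mem_toFinset.2 hy⟩
    rw [hbb, ← Finset.mul_prod_erase S0 (fun y => b y.1 y.2) hyS, mul_right_comm]
    exact R0.mul_mem (hb3 i y (Algebra.subset_adjoin hy)) (R0.prod_mem fun z _ => hb1 z.1 z.2)
  set G : Set k := X0 ∪ {bb⁻¹} with hG
  have hGfin : G.Finite := hX0fin.union (Set.finite_singleton _)
  have hPinj : Function.Injective (algebraMap P k) := Subtype.val_injective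
  obtain ⟨b0, hb00, hb0⟩ := Algebra.IsAlgebraic.exists_integral_multiples P hGfin.toFinset
  have hb0k : (b0 : k) ≠ 0 := fun h => hb00 (Subtype.ext h)
  set gens : Set k := G ∪ {(b0 : k)⁻¹} with hgens
  have hgensfin : gens.Finite := hGfin.union (Set.finite_singleton _)
  set B := Algebra.adjoin ℤ gens with hB
  have hX0B : ∀ y ∈ X0, y ∈ B := fun y hy => Algebra.subset_adjoin (Or.inl (Or.inl hy))
  have hR0B : R0 ≤ B := Algebra.adjoin_le fun y hy => hX0B y hy
  have hbbiB : bb⁻¹ ∈ B := Algebra.subset_adjoin (Or.inl (Or.inr rfl))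
  have hb0iB : (b0 : k)⁻¹ ∈ B := Algebra.subset_adjoin (Or.inr rfl)
  have hδX0 : ∀ i, ∀ y ∈ X0, δ i y ∈ B := by
    intro i y hy
    have h1 : δ i y = bb⁻¹ * (bb * δ i y) := by rw [← mul_assoc, inv_mul_cancel₀ hbb0, one_mul]
    rw [h1]
    exact B.mul_mem hbbiB (hR0B (hbbδ i y hy))
  have hδR0 : ∀ i, ∀ y ∈ R0, δ i y ∈ B := fun i => der_adjoin (δ i) _ B hR0B (hδX0 i)
  have hδB : ∀ i, ∀ y ∈ B, δ i y ∈ B := by
    intro i
    refine der_adjoin (δ i) _ B le_rfl ?_
    rintro y ((hy | hy) | hy)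
    · exact hδX0 i y hy
    · rw [Set.mem_singleton_iff.1 hy, Derivation.leibniz_inv]
      exact B.mul_mem (B.neg_mem (B.pow_mem hbbiB 2)) (hδR0 i _ hbbR)
    · rw [Set.mem_singleton_iff.1 hy, Derivation.leibniz_inv]
      exact B.mul_mem (B.neg_mem (B.pow_mem hb0iB 2)) (hδR0 i _ (hPR0 b0.2))
  -- the base ring
  set P' := Algebra.adjoin ℤ (Set.range x ∪ {(b0 : k)⁻¹}) with hP'
  have hPP' : P ≤ P' := Algebra.adjoin_mono fun y hy => Or.inl hy
  have hb0iP' : (b0 : k)⁻¹ ∈ P' := Algebra.subset_adjoin (Or.inr rfl)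
  have hP'B : P' ≤ B := by
    refine Algebra.adjoin_le ?_
    rintro y (hy | hy)
    · exact hX0B y (Or.inl (Or.inr hy))
    · rw [Set.mem_singleton_iff.1 hy]
      exact hb0iB
  have hint : ∀ y ∈ gens, IsIntegral P' y := by
    rintro y (hy | hy)
    · have h1 := hb0 y (hGfin.mem_toFinset.2 hy)
      have h2 : IsIntegral P' (b0 • y) := by
        obtain ⟨f, hf, hf0⟩ := h1
        refine ⟨f.map (Subalgebra.inclusion hPP').toRingHom, hf.map _, ?_⟩
        rw [eval₂_map]
        exact hf0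
      have h3 : y = algebraMap P' k ⟨(b0 : k)⁻¹, hb0iP'⟩ * (b0 • y) := by
        change y = (b0 : k)⁻¹ * ((b0 : k) * y)
        rw [← mul_assoc, inv_mul_cancel₀ hb0k, one_mul]
      rw [h3]
      exact isIntegral_algebraMap.mul h2
    · rw [Set.mem_singleton_iff.1 hy]
      exact isIntegral_algebraMap (R := P') (x := ⟨(b0 : k)⁻¹, hb0iP'⟩)
  have hfg := fg_adjoin_of_finite hgensfin hint
  obtain ⟨n, g, hgspan⟩ := Submodule.fg_iff_exists_fin_generating_family.1 hfg
  have hBM : ∀ y ∈ B, y ∈ Algebra.adjoin P' gens := by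
    intro y hy
    have h1 : B ≤ (Algebra.adjoin P' gens).restrictScalars ℤ :=
      Algebra.adjoin_le fun z hz => Algebra.subset_adjoin hz
    exact h1 hy
  have hmemg : ∀ i, g i ∈ Algebra.adjoin P' gens := by
    intro i
    have h1 : g i ∈ Submodule.span P' (Set.range g) := Submodule.subset_span ⟨i, rfl⟩
    rw [hgspan] at h1
    exact h1
  have hcoef : ∀ y ∈ Algebra.adjoin P' gens, ∃ c : Fin n → P', y = ∑ j, (c j : k) * g j := by
    intro y hy
    have h1 : y ∈ Submodule.span P' (Set.range g) := by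
      rw [hgspan]
      exact hy
    obtain ⟨c, hc⟩ := (Submodule.mem_span_range_iff_exists_fun P').1 h1
    exact ⟨c, hc.symm⟩
  have hg0 : ∃ i, g i ≠ 0 := by
    by_contra h
    push Not at h
    obtain ⟨c, hc⟩ := hcoef 1 (one_mem _)
    rw [Finset.sum_eq_zero fun j _ => by rw [h j, mul_zero]] at hc
    exact one_ne_zero hc
  have hchar : ∀ y ∈ B, ∃ χ : P'[X], χ.Monic ∧ χ.natDegree = n ∧ aeval y χ = 0 := by
    intro y hy
    exact exists_charpoly P' B g hg0 (fun z hz i => hcoef _ (mul_mem (hBM z hz) (hmemg i))) y hy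
  -- `B` is an algebra over `P'`
  let incl : P' →+* B := (Subalgebra.inclusion hP'B).toRingHom
  let algP' : Algebra P' B := incl.toAlgebra
  have hincl : ∀ c : P', ((algebraMap P' B c : B) : k) = (c : k) := fun _ => rfl
  have hincl_inj : Function.Injective (algebraMap P' B) := by
    intro a c h
    apply Subtype.ext
    exact congrArg (fun z : B => (z : k)) h
  have haev : ∀ (y : B) (χ : P'[X]), ((aeval y χ : B) : k) = aeval (y : k) χ := by
    intro y χ
    rw [aeval_def, aeval_def]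
    have h1 := Polynomial.hom_eval₂ χ (algebraMap P' B) (B.val.toRingHom) y
    exact h1
  have hcharB : ∀ y : B, ∃ χ : P'[X], χ.Monic ∧ χ.natDegree = n ∧ aeval y χ = 0 := by
    intro y
    obtain ⟨χ, h1, h2, h3⟩ := hchar y y.2
    refine ⟨χ, h1, h2, ?_⟩
    apply Subtype.ext
    rw [haev, h3]
    rfl
  have hintB : Algebra.IsIntegral P' B := ⟨fun y => by
    obtain ⟨χ, h1, -, h3⟩ := hcharB y
    exact ⟨χ, h1, h3⟩⟩
  -- elements of `P'`
  have hP'el : ∀ c ∈ P', ∃ (m : ℕ) (a : P), (b0 : k) ^ m * c = a := by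
    intro c hc
    induction hc using Algebra.adjoin_induction with
    | mem c hc =>
      rcases hc with hc | hc
      · exact ⟨0, ⟨c, Algebra.subset_adjoin hc⟩, by simp⟩
      · rw [Set.mem_singleton_iff.1 hc]
        exact ⟨1, 1, by rw [pow_one, mul_inv_cancel₀ hb0k]; rfl⟩
    | algebraMap r => exact ⟨0, algebraMap ℤ P r, by rw [pow_zero, one_mul]; rfl⟩
    | add c1 c2 _ _ h1 h2 =>
      obtain ⟨m1, a1, h1⟩ := h1
      obtain ⟨m2, a2, h2⟩ := h2
      refine ⟨m1 + m2, b0 ^ m2 * a1 + b0 ^ m1 * a2, ?_⟩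
      push_cast
      rw [← h1, ← h2, pow_add]
      ring
    | mul c1 c2 _ _ h1 h2 =>
      obtain ⟨m1, a1, h1⟩ := h1
      obtain ⟨m2, a2, h2⟩ := h2
      refine ⟨m1 + m2, a1 * a2, ?_⟩
      push_cast
      rw [← h1, ← h2, pow_add]
      ring
  -- `p` is prime in `P'`
  have hprime : ∀ p : ℕ, p.Prime → ¬ ((p : ℕ) : P) ∣ b0 → Prime ((p : ℕ) : P') := by
    intro p hp hpb
    have hpP := prime_P hx hp
    have hdiv : ∀ (m : ℕ) (a : P), ((p : ℕ) : P) ∣ b0 ^ m * a → ((p : ℕ) : P) ∣ a := by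
      intro m a h
      rcases hpP.dvd_or_dvd h with h1 | h1
      · exact absurd (hpP.dvd_of_dvd_pow h1) hpb
      · exact h1
    have key : ∀ (c : P') (m : ℕ) (a : P), (b0 : k) ^ m * c = a →
        (((p : ℕ) : P') ∣ c ↔ ((p : ℕ) : P) ∣ a) := by
      intro c m a hca
      constructor
      · rintro ⟨e, he⟩
        obtain ⟨m', a', h'⟩ := hP'el e e.2
        apply hdiv m'
        refine ⟨b0 ^ m * a', ?_⟩
        apply Subtype.ext
        push_cast
        rw [← hca, ← h', he]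
        push_cast
        ring
      · rintro ⟨a', ha'⟩
        refine ⟨⟨(b0 : k)⁻¹, hb0iP'⟩ ^ m * ⟨a', hPP' a'.2⟩, ?_⟩
        apply Subtype.ext
        have h1 : (c : k) = ((b0 : k)⁻¹) ^ m * a := by
          rw [← hca, ← mul_assoc, ← mul_pow, inv_mul_cancel₀ hb0k, one_pow, one_mul]
        push_cast
        rw [h1, ha']
        push_cast
        ring
    refine ⟨?_, ?_, ?_⟩
    · intro h
      have := congrArg (algebraMap P' k) h
      rw [map_natCast, map_zero] at this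
      exact hp.ne_zero (by exact_mod_cast this)
    · intro h
      have h1 : ((p : ℕ) : P') ∣ 1 := h.dvd
      rw [key 1 0 1 (by push_cast; simp)] at h1
      exact hpP.not_unit (isUnit_of_dvd_one h1)
    · intro c1 c2 h
      obtain ⟨m1, a1, h1⟩ := hP'el c1 c1.2
      obtain ⟨m2, a2, h2⟩ := hP'el c2 c2.2
      rw [key (c1 * c2) (m1 + m2) (a1 * a2) (by push_cast; rw [← h1, ← h2, pow_add]; ring)] at h
      rw [key c1 m1 a1 h1, key c2 m2 a2 h2]
      exact hpP.dvd_or_dvd h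
  -- the finite sets of primes
  have hfin0 := finite_P hx b0 hb00
  obtain ⟨N1, hN1⟩ := hfin0.bddAbove
  let N0 := max (N1 + 1) (n + 1)
  have hN0 : ∀ p, N0 ≤ p → ¬ ((p : ℕ) : P) ∣ b0 := by
    intro p hp h
    have h1 : p ≤ N1 := hN1 h
    have h2 : N1 + 1 ≤ p := (le_max_left _ _).trans hp
    omega
  have hexQ : ∀ p : ℕ, ∃ Q : Ideal B, N0 ≤ p → p.Prime →
      Q.IsPrime ∧ Q.comap (algebraMap P' B) = Ideal.span {((p : ℕ) : P')} := by
    intro p
    by_cases h : N0 ≤ p ∧ p.Prime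
    · have h1 := hprime p h.2 (hN0 p h.1)
      have : (Ideal.span {((p : ℕ) : P')}).IsPrime := by
        rw [Ideal.span_singleton_prime h1.ne_zero]
        exact h1
      obtain ⟨Q, -, hQ1, hQ2⟩ := Ideal.exists_ideal_over_prime_of_isIntegral
        (Ideal.span {((p : ℕ) : P')}) (⊥ : Ideal B) (by
          rw [← RingHom.ker_eq_comap_bot, (RingHom.injective_iff_ker_eq_bot _).1 hincl_inj]
          exact bot_le)
      exact ⟨Q, fun _ _ => ⟨hQ1, hQ2⟩⟩
    · exact ⟨⊥, fun h1 h2 => absurd ⟨h1, h2⟩ h⟩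
  choose Q hQ using hexQ
  refine ⟨B, fun y hy => hX0B y (Or.inl (Or.inl hy)), hδB, N0, Q, ?_, ?_⟩
  · intro p hp0 hp
    obtain ⟨hQp, hQc⟩ := hQ p hp0 hp
    have hpQ : ((p : ℕ) : B) ∈ Q p := by
      have h1 : ((p : ℕ) : P') ∈ (Q p).comap (algebraMap P' B) := by
        rw [hQc]
        exact Ideal.mem_span_singleton_self _
      have h2 : algebraMap P' B ((p : ℕ) : P') ∈ Q p := h1
      rwa [map_natCast] at h2
    refine ⟨hQp, hpQ, fun i D hD => ?_⟩
    have hDl : ∀ y z : B, D (y * z) = y * D z + z * D y := by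
      intro y z
      apply Subtype.ext
      rw [hD]
      push_cast
      rw [Derivation.leibniz, hD, hD]
      rfl
    refine diff_prime (R := P') (Q p) D hDl p n ?_ ?_ hpQ ?_ hcharB
    · have : n + 1 ≤ p := (le_max_right _ _).trans hp0
      omega
    · intro j hj1 hj2 hj3
      have hcop : Nat.Coprime j p := by
        rw [Nat.coprime_comm]
        exact (Nat.Prime.coprime_iff_not_dvd hp).2 fun h => absurd (Nat.le_of_dvd hj1 h) (by omega)
      have h1 := Nat.isCoprime_iff_coprime.2 hcop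
      obtain ⟨u, v, huv⟩ := h1
      have h2 : ((u : ℤ) : B) * (j : B) + ((v : ℤ) : B) * (p : B) = 1 := by
        have := congrArg (fun z : ℤ => (z : B)) huv
        push_cast at this
        exact this
      have h3 : (1 : B) ∈ Q p := by
        rw [← h2]
        exact (Q p).add_mem ((Q p).mul_mem_left _ hj3) ((Q p).mul_mem_left _ hpQ)
      exact hQp.ne_top ((Ideal.eq_top_iff_one _).2 h3)
    · intro c hc
      have h1 : c ∈ (Q p).comap (algebraMap P' B) := hc
      rw [hQc, Ideal.mem_span_singleton] at h1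
      obtain ⟨e, rfl⟩ := h1
      exact ⟨algebraMap P' B e, by rw [map_mul, map_natCast]⟩
  · intro y hy0
    -- a nonzero multiple in `P`
    have hyk : (y : k) ≠ 0 := fun h => hy0 (Subtype.ext h)
    obtain ⟨f, hf0, hfy⟩ := (halg.isAlgebraic (y : k)).exists_nonzero_coeff_and_aeval_eq_zero
      (mem_nonZeroDivisors_of_ne_zero hyk)
    refine (finite_P hx (f.coeff 0) hf0).subset ?_
    rintro p ⟨hp, hp0, hyQ⟩
    obtain ⟨hQp, hQc⟩ := hQ p hp0 hp
    -- the constant coefficient lies in `Q p`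
    have h1 : (⟨(f.coeff 0 : k), hP'B (hPP' (f.coeff 0).2)⟩ : B) ∈ Q p := by
      have h2 : (⟨(f.coeff 0 : k), hP'B (hPP' (f.coeff 0).2)⟩ : B) =
          -(y * ∑ i ∈ Finset.range f.natDegree,
            (⟨(f.coeff (i + 1) : k), hP'B (hPP' (f.coeff (i + 1)).2)⟩ : B) * y ^ i) := by
        apply Subtype.ext
        rw [aeval_eq_sum_range, Finset.sum_range_succ'] at hfy
        push_cast
        simp only [Algebra.smul_def, pow_zero, mul_one] at hfy
        rw [Finset.mul_sum, eq_neg_iff_add_eq_zero, add_comm, ← hfy]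
        congr 1
        refine Finset.sum_congr rfl fun i _ => ?_
        change (y : k) * ((f.coeff (i + 1) : k) * (y : k) ^ i) = (f.coeff (i + 1) : k) * (y : k) ^ (i + 1)
        ring
      rw [h2]
      exact (Q p).neg_mem ((Q p).mul_mem_right _ hyQ)
    have h3 : (⟨(f.coeff 0 : k), hPP' (f.coeff 0).2⟩ : P') ∈ (Q p).comap (algebraMap P' B) := h1
    rw [hQc, Ideal.mem_span_singleton] at h3
    obtain ⟨e, he⟩ := h3
    obtain ⟨m, a, hma⟩ := hP'el e e.2
    change ((p : ℕ) : P) ∣ f.coeff 0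
    have hpP := prime_P hx hp
    have h4 : ((p : ℕ) : P) ∣ b0 ^ m * f.coeff 0 := by
      refine ⟨a, ?_⟩
      apply Subtype.ext
      have h5 := congrArg (fun z : P' => (z : k)) he
      push_cast at h5 ⊢
      rw [h5, ← hma]
      ring
    rcases hpP.dvd_or_dvd h4 with h5 | h5
    · exact absurd (hpP.dvd_of_dvd_pow h5) (hN0 p hp0)
    · exact h5

end

end Pool.Agent.V8H79.BM
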