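import Pool.Agent.V8H79.BM.PA
import Pool.Agent.V8H79.BM.PB
import Pool.Agent.V8H79.BM.PF
import Pool.Agent.V8H79.BM.PG
import Pool.Agent.V8H79.BM.PI

/-!
# The Hasse–Witt matrices at differential primes
-/

set_option autoImplicit false

open Polynomial

namespace Pool.Agent.V8H79.BM

theorem hw_det_map {R S : Type*} [CommRing R] [CommRing S] (p d : ℕ) (φ : R →+* S) (F : R[X]) :
    φ (hw p d F).det = (hw p d (F.map φ)).det := by
  rw [RingHom.map_det]
  congr 1
  ext i j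
  change φ ((X ^ ((j : ℕ) + 1) * F).coeff (p * ((i : ℕ) + 1))) =
    (X ^ ((j : ℕ) + 1) * (F.map φ)).coeff (p * ((i : ℕ) + 1))
  rw [← map_X φ, ← Polynomial.map_pow, ← Polynomial.map_mul, coeff_map]

theorem co_map {R S : Type*} [CommRing R] [CommRing S] {N : ℕ} (φ : R →+* S) (s : Fin N → R)
    (l : Fin N) : (co s l).map φ = co (fun i => φ (s i)) l := by
  simp [co, Polynomial.map_prod]

theorem pr_map {R S : Type*} [CommRing R] [CommRing S] {N : ℕ} (φ : R →+* S) (s : Fin N → R) :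
    (pr s).map φ = pr (fun i => φ (s i)) := by
  simp [pr, Polynomial.map_prod]

/-- the residue field of a differential prime -/
theorem exists_res {B : Type} [CommRing B] (d : B →+ B)
    (hd : ∀ x y, d (x * y) = x * d y + y * d x) (Q : Ideal B) (hQp : Q.IsPrime)
    (hQ : ∀ x ∈ Q, d x ∈ Q) :
    ∃ (K : Type) (_ : Field K) (δK : Derivation ℤ K K) (φ : B →+* K),
      (∀ x, δK (φ x) = φ (d x)) ∧ ∀ x, φ x = 0 ↔ x ∈ Q := by
  obtain ⟨D', h1, h2⟩ := exists_qder d hd Q hQ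
  obtain ⟨D, h3⟩ := exists_fder (K := FractionRing (B ⧸ Q)) D' h1
  refine ⟨FractionRing (B ⧸ Q), inferInstance, D,
    (algebraMap (B ⧸ Q) (FractionRing (B ⧸ Q))).comp (Ideal.Quotient.mk Q), ?_, ?_⟩
  · intro x
    rw [RingHom.comp_apply, h3, h2]
    rfl
  · intro x
    rw [RingHom.comp_apply, map_eq_zero_iff _ (IsFractionRing.injective _ _),
      Ideal.Quotient.eq_zero_iff_mem]

/-- the identity of the Gauss–Manin matrix over a ring -/
def GMId {B : Type*} [CommRing B] (d : B →+ B) (m : ℕ) {n : ℕ} (s : Fin (n + 1) → B)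
    (b : Fin (n + 1) → ℕ) (M : Matrix (Fin n) (Fin n) B) (Q : Fin n → B[X]) : Prop :=
  ∀ i : Fin n, X ^ (i : ℕ) * ∑ l, C ((b l : B) * d (s l)) * co s l =
      (m : B[X]) * pr s * (∑ j, C (M i j) * X ^ (j : ℕ) + derivative (Q i)) -
        Q i * ∑ l, (b l : B[X]) * co s l

theorem GMId.map {B K : Type*} [CommRing B] [CommRing K] {d : B →+ B} {δ : Derivation ℤ K K}
    {φ : B →+* K} (hφ : ∀ x, δ (φ x) = φ (d x)) {m n : ℕ} {s : Fin (n + 1) → B}
    {b : Fin (n + 1) → ℕ} {M : Matrix (Fin n) (Fin n) B} {Q : Fin n → B[X]}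
    (h : GMId d m s b M Q) : IsGM δ m (fun l => φ (s l)) b (M.map φ) := by
  intro i
  refine ⟨(Q i).map φ, ?_⟩
  have h1 := congrArg (Polynomial.map φ) (h i)
  simp only [Polynomial.map_mul, Polynomial.map_pow, map_X, Polynomial.map_sum, map_C,
    Polynomial.map_sub, Polynomial.map_add, Polynomial.map_natCast, co_map, pr_map,
    map_mul, map_natCast, derivative_map, ← hφ] at h1
  simpa only [derivative_map, Matrix.map_apply, C_mul, map_natCast] using h1

theorem GMId.of_map {B K : Type*} [CommRing B] [CommRing K] {d : B →+ B} {δ : Derivation ℤ K K}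
    {φ : B →+* K} (hinj : Function.Injective φ) (hφ : ∀ x, δ (φ x) = φ (d x)) {m n : ℕ}
    {s : Fin (n + 1) → B} {b : Fin (n + 1) → ℕ} {M : Matrix (Fin n) (Fin n) B} {Q : Fin n → B[X]}
    (h : ∀ i : Fin n, X ^ (i : ℕ) * ∑ l, C ((b l : K) * δ (φ (s l))) * co (fun l => φ (s l)) l =
      (m : K[X]) * pr (fun l => φ (s l)) *
        (∑ j, C ((M.map φ) i j) * X ^ (j : ℕ) + derivative ((Q i).map φ)) -
        (Q i).map φ * ∑ l, (b l : K[X]) * co (fun l => φ (s l)) l) : GMId d m s b M Q := by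
  intro i
  apply map_injective φ hinj
  simp only [Polynomial.map_mul, Polynomial.map_pow, map_X, Polynomial.map_sum, map_C,
    Polynomial.map_sub, Polynomial.map_add, Polynomial.map_natCast, co_map, pr_map,
    map_mul, map_natCast, ← hφ]
  simpa only [derivative_map, Matrix.map_apply, C_mul, map_natCast] using h i

/-- one system: the Hasse–Witt determinant vanishes at finitely many of the primes only. -/
theorem single {k : Type} [Field k] [CharZero k] (B : Subalgebra ℤ k) (N0 : ℕ) (Q : ℕ → Ideal B)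
    (hQ : ∀ p, N0 ≤ p → p.Prime → (Q p).IsPrime ∧ ((p : ℕ) : B) ∈ Q p)
    (hQfin : ∀ y : B, y ≠ 0 → {p : ℕ | p.Prime ∧ N0 ≤ p ∧ y ∈ Q p}.Finite)
    {n : ℕ} (m r : ℕ) (s : Fin (n + 1) → B) (hs : Function.Injective s)
    (b : Fin (n + 1) → ℕ) (hb : ∀ l, b l < m) (hr : r ≤ n)
    (hr1 : m * r ≤ ∑ l, b l) (hr2 : ∑ l, b l < m * (r + 1))
    (h : 0 < r → r < n → ∃ (δ : Derivation ℤ k k) (d : B →+ B) (_ : ∀ y : B, ((d y : B) : k) = δ y)
      (_ : ∀ p, N0 ≤ p → p.Prime → ∀ y ∈ Q p, d y ∈ Q p)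
      (M : Matrix (Fin n) (Fin n) B) (G : Fin n → B[X]), GMId d m s b M G ∧
        GP δ (M.map (algebraMap B k)) r) :
    {p : ℕ | p.Prime ∧ N0 ≤ p ∧ m ∣ p - 1 ∧
      (hw p r (∏ l, (X - C (s l)) ^ (b l * ((p - 1) / m)))).det ∈ Q p}.Finite := by
  classical
  by_contra hinf
  set δs : B := ∏ x ∈ (Finset.univ : Finset (Fin (n + 1))).offDiag, (s x.1 - s x.2) with hδs
  have hδs0 : δs ≠ 0 := by
    rw [hδs, Finset.prod_ne_zero_iff]
    intro x hx
    rw [Finset.mem_offDiag] at hx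
    exact sub_ne_zero.2 fun h => hx.2.2 (hs h)
  have hinf2 := (Set.Infinite.sdiff hinf (hQfin δs hδs0))
  set S := {p : ℕ | p.Prime ∧ N0 ≤ p ∧ m ∣ p - 1 ∧
      (hw p r (∏ l, (X - C (s l)) ^ (b l * ((p - 1) / m)))).det ∈ Q p} \
      {p : ℕ | p.Prime ∧ N0 ≤ p ∧ δs ∈ Q p} with hS
  have hm0 : 0 < m := lt_of_le_of_lt (Nat.zero_le _) (hb 0)
  -- facts for one prime
  have hfact : ∀ p ∈ S, ∀ (K : Type) [Field K] (φ : B →+* K), (∀ x, φ x = 0 ↔ x ∈ Q p) →
      CharP K p ∧ 2 ≤ p ∧ (m : K) ≠ 0 ∧ (Function.Injective fun l => φ (s l)) ∧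
      (∀ l, m * (b l * ((p - 1) / m)) = b l * (p - 1)) ∧
      (hw p r (gg (fun l => φ (s l)) (fun l => b l * ((p - 1) / m)))).det = 0 := by
    rintro p ⟨⟨hp, hp0, hmp, hdet⟩, hnot⟩ K _ φ hφ
    obtain ⟨hQp, hpQ⟩ := hQ p hp0 hp
    have hK0 : ((p : ℕ) : K) = 0 := by
      have := (hφ (p : B)).2 hpQ
      rwa [map_natCast] at this
    have hchar : CharP K p := by
      obtain ⟨q, hq⟩ := CharP.exists K
      have h1 : q ∣ p := (CharP.cast_eq_zero_iff K q p).1 hK0
      rcases (Nat.dvd_prime hp).1 h1 with h2 | h2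
      · subst h2
        exact absurd (CharP.char_ne_one K 1 rfl) (by simp)
      · rwa [← h2]
    have hp2 := hp.two_le
    have hmle : m ≤ p - 1 := Nat.le_of_dvd (by omega) hmp
    refine ⟨hchar, hp2, ?_, ?_, ?_, ?_⟩
    · intro h0
      have h1 := (CharP.cast_eq_zero_iff K p m).1 h0
      have := Nat.le_of_dvd hm0 h1
      omega
    · intro i j hij
      by_contra hne
      apply hnot
      refine ⟨hp, hp0, ?_⟩
      have h1 : φ (s i - s j) = 0 := by rw [map_sub]; exact sub_eq_zero.2 hij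
      exact (Q p).mem_of_dvd (Finset.dvd_prod_of_mem
        (fun x : Fin (n + 1) × Fin (n + 1) => s x.1 - s x.2)
        (show (i, j) ∈ (Finset.univ : Finset (Fin (n + 1))).offDiag by
          rw [Finset.mem_offDiag]; exact ⟨Finset.mem_univ _, Finset.mem_univ _, hne⟩))
        ((hφ _).1 h1)
    · intro l
      rw [Nat.mul_left_comm, Nat.mul_div_cancel' hmp]
    · have h1 := (hφ _).2 hdet
      rw [hw_det_map] at h1
      simpa [gg, Polynomial.map_prod] using h1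
  rcases Nat.eq_zero_or_pos r with h0 | h0
  · obtain ⟨p, hp⟩ := hinf2.nonempty
    obtain ⟨⟨hp1, hp0, -, hdet⟩, -⟩ := hp
    subst h0
    rw [Matrix.det_isEmpty] at hdet
    exact (hQ p hp0 hp1).1.ne_top ((Ideal.eq_top_iff_one _).2 hdet)
  · rcases Nat.lt_or_ge r n with hrn | hrn
    · -- the main case
      obtain ⟨δ, d, hd, hdQ, M, G, hGM, hGP⟩ := h h0 hrn
      have hdl : ∀ x y : B, d (x * y) = x * d y + y * d x := by
        intro x y
        apply Subtype.ext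
        rw [hd]
        push_cast
        rw [Derivation.leibniz, hd, hd]
        rfl
      have : Infinite S := hinf2.to_subtype
      have hex : ∀ p : S, ∃ (K : Type) (_ : Field K) (δK : Derivation ℤ K K) (φ : B →+* K),
          (∀ x, δK (φ x) = φ (d x)) ∧ ∀ x, φ x = 0 ↔ x ∈ Q p := by
        rintro ⟨p, ⟨hp, hp0, hmp, hdet⟩, hnot⟩
        exact exists_res d hdl (Q p) (hQ p hp0 hp).1 (hdQ p hp0 hp)
      choose K hK δK φ hφ1 hφ2 using hex
      have hL : ∀ p : S, ∃ L : Submodule (K p) (Fin n → K p), Module.finrank (K p) L + r ≤ n ∧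
          (∀ a ∈ L, nab (δK p) (M.map (φ p)) a ∈ L) ∧
          ∃ a ∈ L, a ≠ 0 ∧ ∀ i : Fin n, r ≤ (i : ℕ) → a i = 0 := by
        intro p
        obtain ⟨h1, h2, h3, h4, h5, h6⟩ := hfact p p.2 (K p) (φ p) (hφ2 p)
        obtain ⟨L, hL1, hL2, hL3⟩ := partA (p : ℕ) h2 (δK p) m h3 r hr _ h4 b _ hb (M.map (φ p))
          (hGM.map (hφ1 p)) h5 hr1 hr2
        exact ⟨L, hL1, hL2, hL3 h6⟩
      choose L hL1 hL2 hL3 using hL
      refine not_gp δ B d hdl (algebraMap B k) Subtype.val_injective (fun x => (hd x).symm) M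
        K δK φ hφ1 ?_ L hL1 hL2 hL3 hGP
      intro x hx
      have h1 : {p : S | φ p x = 0} ⊆
          (fun p : S => (p : ℕ)) ⁻¹' {p : ℕ | p.Prime ∧ N0 ≤ p ∧ x ∈ Q p} := by
        intro p hp
        exact ⟨p.2.1.1, p.2.1.2.1, (hφ2 p x).1 hp⟩
      exact ((hQfin x hx).preimage Subtype.val_injective.injOn).subset h1
    · -- `r = n`
      obtain ⟨p, hp⟩ := hinf2.nonempty
      have hp' := hp
      obtain ⟨⟨hp1, hp0, -, hdet⟩, -⟩ := hp'
      obtain ⟨K, hK, δK, φ, -, hφ2⟩ := exists_res (0 : B →+ B) (by simp) (Q p) (hQ p hp0 hp1).1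
        (by simp)
      obtain ⟨h1, h2, h3, h4, h5, h6⟩ := hfact p hp K φ hφ2
      obtain ⟨L, hL1, hL2, hL3⟩ := partA p h2 (0 : Derivation ℤ K K) m h3 r hr _ h4 b _ hb
        (0 : Matrix (Fin n) (Fin n) K) (fun i => ⟨0, by simp⟩) h5 hr1 hr2
      obtain ⟨a, ha1, ha2, -⟩ := hL3 h6
      have hL0 : Module.finrank K L = 0 := by omega
      have : L = ⊥ := Submodule.finrank_eq_zero.1 hL0
      rw [this] at ha1
      exact ha2 ((Submodule.mem_bot K).1 ha1)

end Pool.Agent.V8H79.BM
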