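import Pool.Agent.V8H79.BM.PJ

/-!
# Reduction at closed points
-/

set_option autoImplicit false

open Polynomial

namespace Pool.Agent.V8H79.BM

theorem jac_int : IsJacobsonRing ℤ := by
  rw [isJacobsonRing_iff_prime_eq]
  intro P hP
  by_cases h : P = ⊥
  · subst h
    rw [eq_bot_iff]
    intro x hx
    rw [Ideal.mem_jacobson_bot] at hx
    have h1 := hx x
    rw [Int.isUnit_iff] at h1
    rw [Ideal.mem_bot]
    rcases h1 with h1 | h1
    · have : x * x = 0 := by linarith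
      exact mul_self_eq_zero.1 this
    · exfalso
      nlinarith [mul_self_nonneg x]
  · have : P.IsMaximal := IsPrime.to_maximal_ideal h
    exact Ideal.jacobson_eq_self_of_isMaximal

/-- the polynomial of the block `j`. -/
noncomputable def bk {R : Type*} [CommRing R] (p m j : ℕ) (G : ℕ → R[X]) : R[X] :=
  ∏ e ∈ Finset.range m, G e ^ ((j * e % m) * ((p - 1) / m))

theorem bk_map {R S : Type*} [CommRing R] [CommRing S] (p m i : ℕ) (G : ℕ → R[X])
    (φ : R →+* S) : (bk p m i G).map φ = bk p m i (fun e => (G e).map φ) := by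
  unfold bk
  rw [Polynomial.map_prod]
  exact Finset.prod_congr rfl fun e _ => Polynomial.map_pow _ _

theorem bk_prod {R : Type*} [CommRing R] (p m j : ℕ) {N : ℕ} (s : Fin N → R) (a : Fin N → ℕ)
    (ha : ∀ l, a l < m) :
    bk p m j (fun e => ∏ l with a l = e, (X - C (s l))) =
      ∏ l, (X - C (s l)) ^ ((j * a l % m) * ((p - 1) / m)) := by
  unfold bk
  rw [← Finset.prod_fiberwise_of_maps_to (s := Finset.univ) (t := Finset.range m) (g := a)
    (fun l _ => Finset.mem_range.2 (ha l))]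
  refine Finset.prod_congr rfl fun e _ => ?_
  rw [← Finset.prod_pow]
  refine Finset.prod_congr rfl fun l hl => ?_
  rw [(Finset.mem_filter.1 hl).2]

theorem main {k ι : Type} [Field k] [CharZero k] [FinTrdeg ℚ k] [Fintype ι]
    (m n : ι → ℕ) (s : ∀ c, Fin (n c + 1) → k) (hs : ∀ c, Function.Injective (s c))
    (a : ∀ c, Fin (n c + 1) → ℕ) (ha : ∀ c l, a c l < m c)
    (hbig : ∀ c j, 1 ≤ j → j < m c → 0 < (∑ l, j * a c l % m c) / m c →
      (∑ l, j * a c l % m c) / m c < n c →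
      ∃ (δ : Derivation ℤ k k) (M : Matrix (Fin (n c)) (Fin (n c)) k),
        IsGM δ (m c) (s c) (fun l => j * a c l % m c) M ∧
        (Big δ M ∨ GP δ M ((∑ l, j * a c l % m c) / m c)))
    (A : Subalgebra ℤ k) (hA : A.FG) (F : ι → ℕ → A[X])
    (hF : ∀ c e, (F c e).map (algebraMap A k) = ∏ l with a c l = e, (X - C (s c l)))
    (g : A) (hg : g ≠ 0) :
    ∃ N : ℕ, ∀ p : ℕ, N ≤ p → p.Prime → (∀ c, m c ∣ p - 1) → ∃ M : Ideal A, M.IsMaximal ∧
      (p : A) ∈ M ∧ g ∉ M ∧ ∀ c, ∀ j, 1 ≤ j → j < m c →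
        (hw p ((∑ l, j * a c l % m c) / m c) (bk p (m c) j
          (fun e => (F c e).map (Ideal.Quotient.mk M)))).det ≠ 0 := by
  classical
  have hm0 : ∀ c, 0 < m c := fun c => lt_of_le_of_lt (Nat.zero_le _) (ha c 0)
  set r : ι → ℕ → ℕ := fun c j => (∑ l, j * a c l % m c) / m c with hr
  have hrn : ∀ c j, r c j ≤ n c := by
    intro c j
    have h1 : ∑ l, j * a c l % m c < m c * (n c + 1) := by
      have h2 : ∑ l : Fin (n c + 1), j * a c l % m c < ∑ _l : Fin (n c + 1), m c :=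
        Finset.sum_lt_sum_of_nonempty ⟨0, Finset.mem_univ _⟩ fun l _ => Nat.mod_lt _ (hm0 c)
      rw [Finset.sum_const, Finset.card_univ, Fintype.card_fin, smul_eq_mul, mul_comm] at h2
      exact h2
    have h3 : r c j < n c + 1 := Nat.div_lt_of_lt_mul h1
    omega
  -- the data
  have hdata : ∀ t : (c : ι) × Fin (m c), ∃ (δ : Derivation ℤ k k)
      (M : Matrix (Fin (n t.1)) (Fin (n t.1)) k) (G : Fin (n t.1) → k[X]),
      1 ≤ (t.2 : ℕ) → 0 < r t.1 t.2 → r t.1 t.2 < n t.1 →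
      (∀ i : Fin (n t.1), X ^ (i : ℕ) *
          ∑ l, C (((t.2 * a t.1 l % m t.1 : ℕ) : k) * δ (s t.1 l)) * co (s t.1) l =
        (m t.1 : k[X]) * pr (s t.1) * (∑ j, C (M i j) * X ^ (j : ℕ) + derivative (G i)) -
          G i * ∑ l, ((t.2 * a t.1 l % m t.1 : ℕ) : k[X]) * co (s t.1) l) ∧
      GP δ M (r t.1 t.2) := by
    rintro ⟨c, j, hj⟩
    by_cases h : 1 ≤ j ∧ 0 < r c j ∧ r c j < n c
    · obtain ⟨δ, M, h1, h2⟩ := hbig c j h.1 hj h.2.1 h.2.2
      choose G hG using h1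
      refine ⟨δ, M, G, fun _ _ _ => ⟨hG, ?_⟩⟩
      rcases h2 with h2 | h2
      · exact big_gp δ M _ (hrn c j) h2
      · exact h2
    · exact ⟨0, 0, 0, fun h1 h2 h3 => absurd ⟨h1, h2, h3⟩ h⟩
  choose δ M G hMG using hdata
  -- the finite set
  obtain ⟨T, hT⟩ := hA
  set Y : Set k := (T : Set k) ∪ (⋃ c, Set.range (s c)) ∪
    (⋃ t, Set.range fun ij : Fin (n t.1) × Fin (n t.1) => M t ij.1 ij.2) ∪
    (⋃ t, ⋃ i : Fin (n t.1), ((G t i).coeffs : Set k)) with hY
  have hYfin : Y.Finite := by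
    refine Set.Finite.union (Set.Finite.union (Set.Finite.union ?_ ?_) ?_) ?_
    · exact T.finite_toSet
    · exact Set.finite_iUnion fun c => Set.finite_range _
    · exact Set.finite_iUnion fun t => Set.finite_range _
    · exact Set.finite_iUnion fun t => Set.finite_iUnion fun i => Finset.finite_toSet _
  obtain ⟨B, hYB, hδB, N0, Q, hQ, hQfin⟩ := exists_ring δ Y hYfin
  have hAB : A ≤ B := by
    rw [← hT]
    exact Algebra.adjoin_le fun y hy => hYB (Or.inl (Or.inl (Or.inl hy)))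
  have hsB : ∀ c l, s c l ∈ B := fun c l =>
    hYB (Or.inl (Or.inl (Or.inr (Set.mem_iUnion.2 ⟨c, l, rfl⟩))))
  have hMB : ∀ t i j, M t i j ∈ B := fun t i j =>
    hYB (Or.inl (Or.inr (Set.mem_iUnion.2 ⟨t, (i, j), rfl⟩)))
  have hGB : ∀ t i, ∃ q : B[X], q.map (algebraMap B k) = G t i := by
    intro t i
    have h1 : G t i ∈ Polynomial.lifts (algebraMap B k) := by
      rw [Polynomial.lifts_iff_coeff_lifts]
      intro e
      by_cases he : (G t i).coeff e = 0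
      · rw [he]
        exact ⟨0, map_zero _⟩
      · have h2 : (G t i).coeff e ∈ B := hYB (Or.inr (Set.mem_iUnion.2 ⟨t, Set.mem_iUnion.2 ⟨i,
          Polynomial.coeff_mem_coeffs he⟩⟩))
        exact ⟨⟨_, h2⟩, rfl⟩
    exact (Polynomial.mem_lifts _).1 h1
  choose GB hGB using hGB
  let sB : ∀ c, Fin (n c + 1) → B := fun c l => ⟨s c l, hsB c l⟩
  let MB : ∀ t : (c : ι) × Fin (m c), Matrix (Fin (n t.1)) (Fin (n t.1)) B :=
    fun t => Matrix.of fun i j => ⟨M t i j, hMB t i j⟩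
  let d : ∀ _ : (c : ι) × Fin (m c), B →+ B := fun t =>
    { toFun := fun y => ⟨δ t y, hδB t y y.2⟩
      map_zero' := Subtype.ext (map_zero (δ t))
      map_add' := fun x y => Subtype.ext (map_add (δ t) _ _) }
  have hd : ∀ t (y : B), ((d t y : B) : k) = δ t y := fun t y => rfl
  have hsing : ∀ t : (c : ι) × Fin (m c), 1 ≤ (t.2 : ℕ) →
      {p : ℕ | p.Prime ∧ N0 ≤ p ∧ m t.1 ∣ p - 1 ∧
        (hw p (r t.1 t.2) (∏ l, (X - C (sB t.1 l)) ^
          ((t.2 * a t.1 l % m t.1) * ((p - 1) / m t.1)))).det ∈ Q p}.Finite := by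
    intro t ht
    refine single B N0 Q (fun p h1 h2 => ⟨(hQ p h1 h2).1, (hQ p h1 h2).2.1⟩) hQfin (m t.1)
      (r t.1 t.2) (sB t.1) (fun i j h => hs _ (congrArg Subtype.val h))
      (fun l => t.2 * a t.1 l % m t.1) (fun l => Nat.mod_lt _ (hm0 _)) (hrn _ _) ?_ ?_ ?_
    · exact Nat.mul_div_le _ _
    · exact Nat.lt_mul_div_succ _ (hm0 _)
    · intro h1 h2
      obtain ⟨h3, h4⟩ := hMG t ht h1 h2
      refine ⟨δ t, d t, hd t, fun p hp0 hp => (hQ p hp0 hp).2.2 t (d t) (hd t), MB t, GB t, ?_, ?_⟩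
      · refine GMId.of_map (φ := algebraMap B k) (d := d t) Subtype.val_injective (δ := δ t)
          (fun x => (hd t x).symm) ?_
        intro i
        rw [hGB]
        exact h3 i
      · exact h4
  -- the bad primes
  let bad : Set ℕ := {p : ℕ | p.Prime ∧ N0 ≤ p ∧ (⟨g, hAB g.2⟩ : B) ∈ Q p} ∪
    ⋃ t : (c : ι) × Fin (m c), {p : ℕ | 1 ≤ (t.2 : ℕ) ∧ p.Prime ∧ N0 ≤ p ∧ m t.1 ∣ p - 1 ∧
        (hw p (r t.1 t.2) (∏ l, (X - C (sB t.1 l)) ^
          ((t.2 * a t.1 l % m t.1) * ((p - 1) / m t.1)))).det ∈ Q p}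
  have hbad : bad.Finite := by
    refine Set.Finite.union (hQfin _ fun h => hg (Subtype.ext
      (congrArg (fun y : B => (y : k)) h))) ?_
    refine Set.finite_iUnion fun t => ?_
    by_cases ht : 1 ≤ (t.2 : ℕ)
    · exact (hsing t ht).subset fun p hp => hp.2
    · have : {p : ℕ | 1 ≤ (t.2 : ℕ) ∧ p.Prime ∧ N0 ≤ p ∧ m t.1 ∣ p - 1 ∧
        (hw p (r t.1 t.2) (∏ l, (X - C (sB t.1 l)) ^
          ((t.2 * a t.1 l % m t.1) * ((p - 1) / m t.1)))).det ∈ Q p} = ∅ := by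
        ext p
        simp only [Set.mem_ofPred_eq, Set.mem_empty_iff_false, iff_false]
        exact fun h => ht h.1
      rw [this]
      exact Set.finite_empty
  obtain ⟨N1, hN1⟩ := hbad.bddAbove
  refine ⟨max N0 (N1 + 1), fun p hp hpp hdvd => ?_⟩
  have hpN0 : N0 ≤ p := (le_max_left _ _).trans hp
  have hpbad : p ∉ bad := fun h => by
    have h1 : p ≤ N1 := hN1 h
    have h2 : N1 + 1 ≤ p := (le_max_right _ _).trans hp
    omega
  obtain ⟨hQp, hpQ, -⟩ := hQ p hpN0 hpp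
  let iA : A →+* B := (Subalgebra.inclusion hAB).toRingHom
  let M0 : Ideal A := (Q p).comap iA
  have hM0 : M0.IsPrime := Ideal.comap_isPrime iA (Q p)
  have hpM0 : (p : A) ∈ M0 := by
    change iA (p : A) ∈ Q p
    rwa [map_natCast]
  have hgM0 : g ∉ M0 := fun h => hpbad (Or.inl ⟨hpp, hpN0, h⟩)
  have hFB : ∀ c e, (F c e).map iA = ∏ l with a c l = e, (X - C (sB c l)) := by
    intro c e
    apply map_injective (algebraMap B k) Subtype.val_injective
    rw [Polynomial.map_map]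
    have e1 : (algebraMap B k).comp iA = algebraMap A k := rfl
    rw [e1, hF]
    simp [Polynomial.map_prod, sB]
  have hdM0 : ∀ c j, 1 ≤ j → j < m c → (hw p (r c j) (bk p (m c) j (F c))).det ∉ M0 := by
    intro c j h1 h2 h3
    apply hpbad
    right
    refine Set.mem_iUnion.2 ⟨⟨c, ⟨j, h2⟩⟩, h1, hpp, hpN0, hdvd c, ?_⟩
    have h4 : iA (hw p (r c j) (bk p (m c) j (F c))).det ∈ Q p := h3
    rw [hw_det_map, bk_map] at h4
    simp_rw [hFB] at h4
    rwa [bk_prod _ _ _ _ _ (ha c)] at h4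
  have hprod : g * ∏ c, ∏ j ∈ Finset.Ico 1 (m c), (hw p (r c j) (bk p (m c) j (F c))).det
      ∉ M0 := by
    intro hm
    rcases hM0.mem_or_mem hm with h1 | h1
    · exact hgM0 h1
    · obtain ⟨i, -, hi⟩ := (hM0.prod_mem_iff).1 h1
      obtain ⟨j, hj, hj'⟩ := (hM0.prod_mem_iff).1 hi
      rw [Finset.mem_Ico] at hj
      exact hdM0 i j hj.1 hj.2 hj'
  have hfA : Algebra.FiniteType ℤ A := (Subalgebra.fg_iff_finiteType _).mp ⟨T, hT⟩
  have hJ : IsJacobsonRing A := by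
    have := jac_int
    exact isJacobsonRing_of_finiteType (A := ℤ)
  have hjac : M0.jacobson = M0 := isJacobsonRing_iff_prime_eq.mp hJ M0 hM0
  rw [← hjac, Ideal.jacobson, Submodule.mem_sInf] at hprod
  push Not at hprod
  obtain ⟨MM, ⟨hM0M, hMM⟩, hMa⟩ := hprod
  refine ⟨MM, hMM, hM0M hpM0, fun h1 => hMa (Ideal.mul_mem_right _ MM h1), fun i j h1 h2 => ?_⟩
  rw [← bk_map, ← hw_det_map]
  intro h3
  refine hMa (Ideal.mul_mem_left MM _ ?_)
  refine Ideal.mem_of_dvd MM (Finset.dvd_prod_of_mem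
    (fun i => ∏ j ∈ Finset.Ico 1 (m i), (hw p (r i j) (bk p (m i) j (F i))).det)
    (Finset.mem_univ i)) ?_
  exact Ideal.mem_of_dvd MM (Finset.dvd_prod_of_mem
    (fun j => (hw p (r i j) (bk p (m i) j (F i))).det)
    (Finset.mem_Ico.2 ⟨h1, h2⟩)) (Ideal.Quotient.eq_zero_iff_mem.1 h3)

end Pool.Agent.V8H79.BM
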